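import Pool.Agent.StarF.Small

/-!
# `K_{1,2}` and an odd number of components `K_{1,1}` is not SSEM (MP_fb2988_co)
-/

set_option autoImplicit false

open Finset

namespace Pool.Agent.StarF

theorem not_ssem_ones {k : ℕ} (hk : 1 ≤ k) (m : Fin (2 * k) → ℕ) (i0 : Fin (2 * k))
    (h2 : m i0 = 2) (h1 : ∀ i, i ≠ i0 → m i = 1) : ¬ IsSSEM (starForest m) := by
  intro h
  obtain ⟨p, a, s, own, cen, L⟩ := exists_lab (by omega) m h
  have e1 : ∀ F : Fin (2 * k) → ℕ, ∑ i ∈ univ.erase i0, F i + F i0 = ∑ i, F i :=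
    fun F => sum_erase_add univ F (mem_univ i0)
  have hq : ∑ i, m i = 2 * k + 1 := by
    rw [← e1, h2, sum_congr rfl (fun i hi => h1 i (ne_of_mem_erase hi)), sum_const,
      card_erase_of_mem (mem_univ i0), card_univ, Fintype.card_fin, smul_eq_mul]
    omega
  have hp := L.p_eq
  rw [hq] at hp
  have hc : ∑ i, ((m i : ℤ) - 1) * cen i = cen i0 := by
    rw [← sum_erase_add univ _ (mem_univ i0), h2, sum_eq_zero]
    · ring
    · intro i hi
      rw [h1 i (ne_of_mem_erase hi)]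
      ring
  have ht := L.total
  rw [hc, hq, hp] at ht
  have ha := L.a_eq
  have ha2 : a = ∑ i, (if cen i ≤ a then 1 else m i) := by
    rw [sum_ite, ← card_eq_sum_ones]
    exact ha
  rw [← e1] at ha2
  have e2 : ∑ i ∈ univ.erase i0, (if cen i ≤ a then 1 else m i) = 2 * k - 1 := by
    rw [sum_congr rfl (g := fun _ => 1), sum_const, card_erase_of_mem (mem_univ i0), card_univ,
      Fintype.card_fin, smul_eq_mul, mul_one]
    intro i hi
    rw [h1 i (ne_of_mem_erase hi), ite_self]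
  rw [e2, h2] at ha2
  have hc1 := L.cen1 i0
  have hcp := L.cenp i0
  have hdvd : ((2 * k + 1 : ℕ) : ℤ) ∣ (cen i0 : ℤ) := by
    refine ⟨(s : ℤ) + k - (4 * k + 1), ?_⟩
    push_cast at ht ⊢
    linarith
  have hdvd2 : (2 * k + 1) ∣ cen i0 := by exact_mod_cast hdvd
  obtain ⟨c, hc⟩ := hdvd2
  have hc0 : 1 ≤ c := by
    rcases Nat.eq_zero_or_pos c with g | g
    · subst g
      omega
    · exact g
  by_cases g : cen i0 ≤ a
  · rw [if_pos g] at ha2
    have : 2 * k + 1 ≤ (2 * k + 1) * c := Nat.le_mul_of_pos_right _ hc0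
    omega
  · rw [if_neg g] at ha2
    have hc2 : 2 ≤ c := by
      by_contra hcon
      have : c = 1 := by omega
      subst this
      omega
    have : (2 * k + 1) * 2 ≤ (2 * k + 1) * c := Nat.mul_le_mul_left _ hc2
    omega

theorem not_two_ones {t : ℕ} (ht : Even t) (m : Fin t → ℕ) (i0 : Fin t) (h2 : m i0 = 2)
    (h1 : ∀ i, i ≠ i0 → m i = 1) : ¬ IsSSEM (starForest m) := by
  obtain ⟨k, rfl⟩ := ht.two_dvd
  have h3 := i0.2
  exact not_ssem_ones (by omega) m i0 h2 h1

end Pool.Agent.StarF
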