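import Pool.Agent.StarF.Defs

/-!
# Star forests: from a labeling to the function `own` (MP_fb2988_co)
-/

set_option autoImplicit false

open Finset

namespace Pool.Agent.StarF

variable {t : ℕ}

theorem card_vert (m : Fin t → ℕ) :
    Fintype.card (Σ i : Fin t, Option (Fin (m i))) = ∑ i, (m i + 1) := by
  simp [Fintype.card_sigma]

theorem adj_iff (m : Fin t → ℕ) (u v : Σ i : Fin t, Option (Fin (m i))) :
    (starForest m).Adj u v ↔ ∃ (i : Fin t) (k : Fin (m i)),
      (u = ⟨i, none⟩ ∧ v = ⟨i, some k⟩) ∨ (v = ⟨i, none⟩ ∧ u = ⟨i, some k⟩) := by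
  obtain ⟨i, o⟩ := u
  obtain ⟨j, o'⟩ := v
  constructor
  · rintro ⟨h1, h2⟩
    simp only at h1 h2
    subst h1
    cases o with
    | none =>
      cases o' with
      | none => exact absurd rfl (h2.1 rfl)
      | some k => exact ⟨i, k, Or.inl ⟨rfl, rfl⟩⟩
    | some k =>
      cases o' with
      | none => exact ⟨i, k, Or.inr ⟨rfl, rfl⟩⟩
      | some l =>
        have h3 := h2.2 (Option.some_ne_none l)
        exact absurd h3 (Option.some_ne_none k)
  · rintro ⟨l, k, ⟨h1, h2⟩ | ⟨h1, h2⟩⟩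
    · rw [h1, h2]
      exact ⟨rfl, ⟨fun _ => Option.some_ne_none k, fun _ => rfl⟩⟩
    · rw [h1, h2]
      exact ⟨rfl, ⟨fun h => absurd h (Option.some_ne_none k), fun h => absurd rfl h⟩⟩

theorem edge_ncard (m : Fin t → ℕ) : (starForest m).edgeSet.ncard = ∑ i, m i := by
  have he : Function.Injective (fun x : (Σ i : Fin t, Fin (m i)) =>
      (s(⟨x.1, none⟩, ⟨x.1, some x.2⟩) : Sym2 (Σ i : Fin t, Option (Fin (m i))))) := by
    rintro ⟨i, k⟩ ⟨j, l⟩ h
    simp only [Sym2.eq_iff] at h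
    rcases h with ⟨h1, h2⟩ | ⟨h1, h2⟩
    · have h3 : i = j := congrArg Sigma.fst h1
      subst h3
      have h4 : some k = some l := by
        have h5 := (Sigma.mk.inj_iff.1 h2).2
        exact eq_of_heq h5
      rw [Option.some.inj h4]
    · have h3 : i = j := congrArg Sigma.fst h1
      subst h3
      have h5 := eq_of_heq (Sigma.mk.inj_iff.1 h1).2
      exact absurd h5.symm (Option.some_ne_none l)
  have hr : Set.range (fun x : (Σ i : Fin t, Fin (m i)) =>
      (s(⟨x.1, none⟩, ⟨x.1, some x.2⟩) : Sym2 (Σ i : Fin t, Option (Fin (m i))))) =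
      (starForest m).edgeSet := by
    ext e
    induction e using Sym2.ind with
    | _ u v =>
      rw [SimpleGraph.mem_edgeSet, adj_iff]
      constructor
      · rintro ⟨⟨i, k⟩, h⟩
        simp only [Sym2.eq_iff] at h
        rcases h with ⟨h1, h2⟩ | ⟨h1, h2⟩
        · exact ⟨i, k, Or.inl ⟨h1.symm, h2.symm⟩⟩
        · exact ⟨i, k, Or.inr ⟨h1.symm, h2.symm⟩⟩
      · rintro ⟨i, k, ⟨h1, h2⟩ | ⟨h1, h2⟩⟩
        · exact ⟨⟨i, k⟩, by simp only [Sym2.eq_iff]; exact Or.inl ⟨h1.symm, h2.symm⟩⟩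
        · exact ⟨⟨i, k⟩, by simp only [Sym2.eq_iff]; exact Or.inr ⟨h1.symm, h2.symm⟩⟩
  rw [← hr, ← Set.image_univ, Set.ncard_image_of_injective _ he, Set.ncard_univ,
    Nat.card_eq_fintype_card, Fintype.card_sigma]
  simp

theorem exists_lab (ht : 0 < t) (m : Fin t → ℕ) (h : IsSSEM (starForest m)) :
    ∃ (p a s : ℕ) (own : ℕ → Fin t) (cen : Fin t → ℕ), Lab m p a s own cen := by
  obtain ⟨A, f, hst, hf, hA, s, hs⟩ := h
  rw [edge_ncard] at hs
  rw [card_vert] at hf
  have : Nonempty (Σ i : Fin t, Option (Fin (m i))) := ⟨⟨⟨0, ht⟩, none⟩⟩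
  have hinj : Function.Injective f := by
    intro u v huv
    exact hf.injOn (Set.mem_univ u) (Set.mem_univ v) huv
  have hg : ∀ v, Function.invFun f (f v) = v := Function.leftInverse_invFun hinj
  have hfg : ∀ n, 1 ≤ n → n ≤ ∑ i, (m i + 1) → f (Function.invFun f n) = n := by
    intro n h1 h2
    obtain ⟨v, -, hv⟩ := hf.surjOn (Set.mem_Icc.2 ⟨h1, h2⟩)
    exact Function.invFun_eq ⟨v, hv⟩
  have hmem : ∀ v, 1 ≤ f v ∧ f v ≤ ∑ i, (m i + 1) := by
    intro v
    have := hf.mapsTo (Set.mem_univ v)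
    exact Set.mem_Icc.1 this
  have hAf : ∀ v, v ∈ A ↔ f v ≤ A.ncard := by
    intro v
    constructor
    · intro hv
      have : f v ∈ Set.Icc 1 A.ncard := by
        rw [← hA]
        exact ⟨v, hv, rfl⟩
      exact (Set.mem_Icc.1 this).2
    · intro hv
      have : f v ∈ f '' A := by
        rw [hA]
        exact Set.mem_Icc.2 ⟨(hmem v).1, hv⟩
      obtain ⟨u, hu, huv⟩ := this
      rwa [← hinj huv]
  refine ⟨∑ i, (m i + 1), A.ncard, s, fun n => (Function.invFun f n).1,
    fun i => f ⟨i, none⟩, ?_⟩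
  refine ⟨rfl, ?_, fun i => (hmem _).1, fun i => (hmem _).2, fun i => ?_, fun i => ?_, ?_, ?_⟩
  · by_contra hc
    have h1 : A.ncard ∈ f '' A := by
      rw [hA]
      exact Set.mem_Icc.2 ⟨by omega, le_refl _⟩
    obtain ⟨u, -, hu⟩ := h1
    have := (hmem u).2
    omega
  · show (Function.invFun f (f ⟨i, none⟩)).1 = i
    rw [hg]
  · have h1 : ((Icc 1 (∑ i, (m i + 1))).filter fun n => (Function.invFun f n).1 = i) =
        (univ : Finset (Option (Fin (m i)))).image fun o => f ⟨i, o⟩ := by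
      ext n
      rw [mem_filter, mem_Icc, mem_image]
      constructor
      · rintro ⟨⟨h1, h2⟩, h3⟩
        have h4 := hfg n h1 h2
        generalize Function.invFun f n = v at h3 h4
        obtain ⟨j, o⟩ := v
        simp only at h3
        subst h3
        exact ⟨o, mem_univ _, h4⟩
      · rintro ⟨o, -, rfl⟩
        refine ⟨hmem _, ?_⟩
        rw [hg]
    rw [h1, card_image_of_injective]
    · simp
    · intro o o' ho
      have h2 := hinj ho
      exact eq_of_heq (Sigma.mk.inj_iff.1 h2).2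
  · intro n h1 h2 h3
    have h4 := hfg n h1 h2
    generalize Function.invFun f n = v at h3 h4 ⊢
    obtain ⟨j, o⟩ := v
    cases o with
    | none => exact absurd h4.symm h3
    | some k =>
      have h5 := hst ⟨j, some k⟩ ⟨j, none⟩ ((adj_iff m _ _).2 ⟨j, k, Or.inr ⟨rfl, rfl⟩⟩)
      rw [hAf, hAf, h4] at h5
      exact h5
  · have h1 : ((((Icc 1 (∑ i, (m i + 1))).filter fun n =>
        n ≠ f ⟨(Function.invFun f n).1, none⟩).image
        fun n => n + f ⟨(Function.invFun f n).1, none⟩ : Finset ℕ) : Set ℕ) =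
        {x : ℕ | ∃ u v, (starForest m).Adj u v ∧ x = f u + f v} := by
      ext x
      simp only [coe_image, coe_filter, mem_Icc, Set.mem_image, Set.mem_ofPred_eq]
      constructor
      · rintro ⟨n, ⟨⟨h1, h2⟩, h3⟩, rfl⟩
        have h4 := hfg n h1 h2
        generalize Function.invFun f n = v at h3 h4 ⊢
        obtain ⟨j, o⟩ := v
        simp only at h3 ⊢
        cases o with
        | none => exact absurd h4.symm h3
        | some k =>
          exact ⟨⟨j, some k⟩, ⟨j, none⟩, (adj_iff m _ _).2 ⟨j, k, Or.inr ⟨rfl, rfl⟩⟩,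
            by rw [h4]⟩
      · rintro ⟨u, v, huv, rfl⟩
        obtain ⟨i, k, ⟨rfl, rfl⟩ | ⟨rfl, rfl⟩⟩ := (adj_iff m _ _).1 huv
        · refine ⟨f ⟨i, some k⟩, ⟨hmem _, ?_⟩, ?_⟩
          · rw [hg]
            intro h6
            have h7 := hinj h6
            have h8 := eq_of_heq (Sigma.mk.inj_iff.1 h7).2
            exact Option.some_ne_none k h8
          · rw [hg, add_comm]
        · refine ⟨f ⟨i, some k⟩, ⟨hmem _, ?_⟩, ?_⟩
          · rw [hg]
            intro h6
            have h7 := hinj h6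
            have h8 := eq_of_heq (Sigma.mk.inj_iff.1 h7).2
            exact Option.some_ne_none k h8
          · rw [hg]
    rw [hs] at h1
    have h2 : (Set.Ico s (s + ∑ i, m i) : Set ℕ) = ((Ico s (s + ∑ i, m i) : Finset ℕ) : Set ℕ) := by
      rw [coe_Ico]
    rw [h2] at h1
    exact coe_injective h1

end Pool.Agent.StarF
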