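import Pool.Agent.StarF.Div
import Pool.Agent.StarF.Ext

/-!
# Star forests: the congruences when `g` divides all but one of the `m_i - 1` (MP_fb2988_co)
-/

set_option autoImplicit false

open Finset

namespace Pool.Agent.StarF

variable {t : ℕ} {m : Fin t → ℕ} {p a s : ℕ} {own : ℕ → Fin t} {cen : Fin t → ℕ}

/-- index of the centre `c` in its own part -/
def ct (a c : ℕ) : ℤ := if c ≤ a then (c : ℤ) else (c : ℤ) - a

namespace Lab

theorem sum_one (L : Lab m p a s own cen) :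
    (a : ℤ) - t = ∑ i ∈ univ.filter (fun i => ¬ cen i ≤ a), ((m i : ℤ) - 1) := by
  have h3 := L.a_eq
  have e1 : ((univ.filter fun i => cen i ≤ a).card : ℤ) +
      ((univ.filter fun i => ¬ cen i ≤ a).card : ℤ) = t := by
    have := card_filter_add_card_filter_not (s := (univ : Finset (Fin t))) (fun i => cen i ≤ a)
    rw [card_univ, Fintype.card_fin] at this
    exact_mod_cast this
  rw [sum_sub_distrib, sum_const, nsmul_eq_mul, mul_one]
  have e3 : (a : ℤ) = ((univ.filter fun i => cen i ≤ a).card : ℤ) +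
      ∑ i ∈ univ.filter (fun i => ¬ cen i ≤ a), (m i : ℤ) := by
    exact_mod_cast h3
  linarith

/-- the count identity -/
theorem ident (L : Lab m p a s own cen) :
    2 * ∑ i, ((m i : ℤ) - 1) * ((s : ℤ) - a - 1 - ct a (cen i)) =
      -2 * (∑ i ∈ univ.filter (fun i => ¬ cen i ≤ a), ((m i : ℤ) - 1)) *
        (∑ i ∈ univ.filter (fun i => cen i ≤ a), ((m i : ℤ) - 1)) -
      t * (2 * ((s : ℤ) - a) - t - 3) := by
  have h1 := L.total
  have h2 := L.p_eq
  have h3 := L.sum_one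
  have h4 : (∑ i ∈ univ.filter (fun i => cen i ≤ a), ((m i : ℤ) - 1)) +
      (∑ i ∈ univ.filter (fun i => ¬ cen i ≤ a), ((m i : ℤ) - 1)) = ∑ i, ((m i : ℤ) - 1) :=
    sum_filter_add_sum_filter_not univ (fun i => cen i ≤ a) _
  have h5 : ∑ i, ((m i : ℤ) - 1) * ct a (cen i) = ∑ i, ((m i : ℤ) - 1) * cen i -
      a * ∑ i ∈ univ.filter (fun i => ¬ cen i ≤ a), ((m i : ℤ) - 1) := by
    rw [mul_sum, sum_filter, ← sum_sub_distrib]
    apply sum_congr rfl
    intro i _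
    unfold ct
    split_ifs <;> ring
  have h6 : ∑ i, ((m i : ℤ) - 1) * ((s : ℤ) - a - 1 - ct a (cen i)) =
      (∑ i, ((m i : ℤ) - 1)) * ((s : ℤ) - a - 1) - ∑ i, ((m i : ℤ) - 1) * ct a (cen i) := by
    rw [sum_mul, ← sum_sub_distrib]
    apply sum_congr rfl
    intro i _
    ring
  have h7 : ∑ i, ((m i : ℤ) - 1) = ((∑ i, m i : ℕ) : ℤ) - t := by
    rw [sum_sub_distrib, Nat.cast_sum]
    simp
  have h8 : (p : ℤ) = ((∑ i, m i : ℕ) : ℤ) + t := by exact_mod_cast h2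
  rw [h6, h5]
  generalize ∑ i ∈ univ.filter (fun i => ¬ cen i ≤ a), ((m i : ℤ) - 1) = A at *
  generalize ∑ i ∈ univ.filter (fun i => cen i ≤ a), ((m i : ℤ) - 1) = B at *
  generalize ∑ i, ((m i : ℤ) - 1) * (cen i : ℤ) = C at *
  generalize ((∑ i, m i : ℕ) : ℤ) = q at *
  rw [h8] at h1
  have hq : q = t + A + B := by linarith
  have ha : (a : ℤ) = t + A := by linarith
  rw [← h4, ha]
  subst hq
  linear_combination (-1) * h1

/-- the congruence modulo a divisor of all but one of the `m i - 1` -/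
theorem dvd_of_all_but (L : Lab m p a s own cen) (k : Fin t) {g : ℕ}
    (hg : ∀ i, i ≠ k → (g : ℤ) ∣ (m i : ℤ) - 1) {h : ℕ} (ht : t = 2 * h) :
    (g : ℤ) ∣ ((m k : ℤ) - 1) * ((s : ℤ) - a - 1 - ct a (cen k)) +
      h * (2 * ((s : ℤ) - a) - t - 3) := by
  have h1 := L.ident
  have h2 : (g : ℤ) ∣ (∑ i ∈ univ.filter (fun i => ¬ cen i ≤ a), ((m i : ℤ) - 1)) *
        (∑ i ∈ univ.filter (fun i => cen i ≤ a), ((m i : ℤ) - 1)) := by
    by_cases hk : cen k ≤ a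
    · apply Dvd.dvd.mul_right
      apply dvd_sum
      intro i hi
      rw [mem_filter] at hi
      apply hg
      rintro rfl
      exact hi.2 hk
    · apply Dvd.dvd.mul_left
      apply dvd_sum
      intro i hi
      rw [mem_filter] at hi
      apply hg
      rintro rfl
      exact hk hi.2
  have h3 : (g : ℤ) ∣ ∑ i ∈ univ.erase k, ((m i : ℤ) - 1) * ((s : ℤ) - a - 1 - ct a (cen i)) :=
    dvd_sum fun i hi => Dvd.dvd.mul_right (hg i (ne_of_mem_erase hi)) _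
  have h4 : ((m k : ℤ) - 1) * ((s : ℤ) - a - 1 - ct a (cen k)) +
      ∑ i ∈ univ.erase k, ((m i : ℤ) - 1) * ((s : ℤ) - a - 1 - ct a (cen i)) =
      ∑ i, ((m i : ℤ) - 1) * ((s : ℤ) - a - 1 - ct a (cen i)) :=
    add_sum_erase univ (fun i => ((m i : ℤ) - 1) * ((s : ℤ) - a - 1 - ct a (cen i))) (mem_univ k)
  obtain ⟨c, hc⟩ := h2
  obtain ⟨d, hd⟩ := h3
  have ht' : (t : ℤ) = 2 * h := by exact_mod_cast ht
  refine ⟨-c - d, ?_⟩
  rw [← h4] at h1
  rw [mul_assoc, hc, hd] at h1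
  have h5 : (t : ℤ) * (2 * ((s : ℤ) - a) - t - 3) = 2 * (h * (2 * ((s : ℤ) - a) - t - 3)) := by
    conv_lhs => rw [ht']
    rw [ht']
    ring
  linarith

/-- the star of the edge with the first sum has its centre near the low end -/
theorem low_centre (L : Lab m p a s own cen) (hq : 1 ≤ ∑ i, m i) :
    ∃ k, 1 ≤ ct a (cen k) ∧ ct a (cen k) ≤ (s : ℤ) - a - 1 := by
  obtain ⟨n, h2, h3, h4, h5⟩ := L.cov (x := s) (le_refl _) (by omega)
  refine ⟨own n, ?_⟩
  have h6 := L.cen1 (own n)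
  have h7 := L.side n h2 h3 h4
  unfold ct
  split_ifs with h
  · have : ¬ n ≤ a := fun h8 => (h7.1 h8) h
    omega
  · have : n ≤ a := h7.2 h
    omega

end Lab

/-- **The congruences for an even number of stars.** -/
theorem all_but_one (h : ℕ) (hh : 1 ≤ h) (m : Fin (2 * h) → ℕ) (hm : ∀ i, 1 ≤ m i)
    (hS : IsSSEM (starForest m)) : ∃ w : ℤ, Odd w ∧ |w| ≤ 2 * (h : ℤ) - 3 ∧
      (∃ (k : Fin (2 * h)) (x : ℕ), 2 * (x : ℤ) ≤ 2 * h - 1 + w ∧
        ∀ g : ℕ, (∀ i, i ≠ k → (g : ℤ) ∣ (m i : ℤ) - 1) → (g : ℤ) ∣ x * ((m k : ℤ) - 1) + h * w) ∧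
      (∃ (l : Fin (2 * h)) (y : ℕ), 2 * (y : ℤ) ≤ 2 * h - 1 - w ∧
        ∀ g : ℕ, (∀ i, i ≠ l → (g : ℤ) ∣ (m i : ℤ) - 1) →
          (g : ℤ) ∣ y * ((m l : ℤ) - 1) - h * w) := by
  obtain ⟨p, a, s, own, cen, L⟩ := exists_lab (by omega) m hS
  have hq : 1 ≤ ∑ i, m i := Lab.q_pos hm (by omega)
  have h1 := L.lower hm (by omega)
  have h2 := L.upper hm (by omega)
  have L' := L.refl hq
  have h3 := L.p_eq
  have h4 := L.ha
  have hs : s + ∑ i, m i ≤ 2 * p + 1 := by omega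
  refine ⟨2 * ((s : ℤ) - a) - (2 * h : ℕ) - 3, ?_, ?_, ?_, ?_⟩
  · rw [Int.odd_iff]
    push_cast
    omega
  · rw [abs_le]
    push_cast
    omega
  · obtain ⟨k, h5, h6⟩ := L.low_centre hq
    refine ⟨k, ((s : ℤ) - a - 1 - ct a (cen k)).toNat, ?_, ?_⟩
    · push_cast
      omega
    · intro g hg
      have h7 := L.dvd_of_all_but k hg (h := h) rfl
      rw [Int.toNat_of_nonneg (by omega), mul_comm ((s : ℤ) - a - 1 - ct a (cen k))]
      exact h7
  · obtain ⟨k, h5, h6⟩ := L'.low_centre hq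
    set a' : ℕ := p - a with ha'
    set s' : ℕ := 2 * p + 3 - (s + ∑ i, m i) with hs'
    set c' : ℕ := p + 1 - cen k with hc'
    refine ⟨k, ((s' : ℤ) - a' - 1 - ct a' c').toNat, ?_, ?_⟩
    · push_cast
      omega
    · intro g hg
      have h7 := L'.dvd_of_all_but k hg (h := h) rfl
      rw [Int.toNat_of_nonneg (by omega), mul_comm ((s' : ℤ) - a' - 1 - ct a' c')]
      have e : 2 * ((s' : ℤ) - a') - ((2 * h : ℕ) : ℤ) - 3 =
          -(2 * ((s : ℤ) - a) - ((2 * h : ℕ) : ℤ) - 3) := by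
        omega
      rw [e] at h7
      have e2 : ((m k : ℤ) - 1) * ((s' : ℤ) - a' - 1 - ct a' c') +
          h * (-(2 * ((s : ℤ) - a) - ((2 * h : ℕ) : ℤ) - 3)) =
          ((m k : ℤ) - 1) * ((s' : ℤ) - a' - 1 - ct a' c') -
          h * (2 * ((s : ℤ) - a) - ((2 * h : ℕ) : ℤ) - 3) := by ring
      rw [e2] at h7
      exact h7

end Pool.Agent.StarF
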