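import Pool.Agent.StarF.Abo

/-!
# Star forests: four stars, an example (MP_fb2988_co)
-/

set_option autoImplicit false

open Finset

namespace Pool.Agent.StarF

/-- Four stars: if `p_k` divides `m_j - 1` for all `j ≠ k`, but neither `2` nor `m_k - 3`, for each
`k`, then the forest is not special super edge-magic. -/
theorem four_not (m : Fin 4 → ℕ) (hm : ∀ i, 1 ≤ m i) (P : Fin 4 → ℕ)
    (h1 : ∀ k i, i ≠ k → (P k : ℤ) ∣ (m i : ℤ) - 1) (h2 : ∀ k, ¬ (P k : ℤ) ∣ 2)
    (h3 : ∀ k, ¬ (P k : ℤ) ∣ (m k : ℤ) - 3) : ¬ IsSSEM (starForest m) := by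
  intro hS
  obtain ⟨w, hw, hw', ⟨k, x, hx, hk⟩, ⟨l, y, hy, hl⟩⟩ := all_but_one 2 (by norm_num) m hm hS
  have key : ∀ (j : Fin 4) (z : ℕ), z ≤ 1 → ¬ (P j : ℤ) ∣ z * ((m j : ℤ) - 1) - 2 := by
    intro j z hz h
    have hz' : z = 0 ∨ z = 1 := by omega
    rcases hz' with rfl | rfl
    · apply h2 j
      have := dvd_neg.2 h
      simpa using this
    · apply h3 j
      have e : (m j : ℤ) - 3 = (1 : ℕ) * ((m j : ℤ) - 1) - 2 := by push_cast; ring
      rw [e]
      exact h
  have hw1 : w = 1 ∨ w = -1 := by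
    rw [abs_le] at hw'
    rw [Int.odd_iff] at hw
    push_cast at hw'
    omega
  push_cast at hx hy
  rcases hw1 with rfl | rfl
  · have := hl (P l) (h1 l)
    push_cast at this
    exact key l y (by omega) (by simpa using this)
  · have := hk (P k) (h1 k)
    push_cast at this
    refine key k x (by omega) ?_
    have e : (x : ℤ) * ((m k : ℤ) - 1) - 2 = x * ((m k : ℤ) - 1) + 2 * -1 := by ring
    rw [e]
    exact this

theorem four_example : ¬ IsSSEM (starForest ![61, 85, 106, 281]) := by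
  apply four_not ![61, 85, 106, 281] _ ![7, 5, 4, 3]
  · decide
  · decide
  · decide
  · decide

end Pool.Agent.StarF
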