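import Pool.Agent.StarF.Defs

/-!
# Star forests: basic facts on `Lab` (MP_fb2988_co)
-/

set_option autoImplicit false

open Finset

namespace Pool.Agent.StarF

variable {t : ℕ} {m : Fin t → ℕ} {p a s : ℕ} {own : ℕ → Fin t} {cen : Fin t → ℕ}

/-- the labels of the leaves of the star `i` -/
def lv (p : ℕ) (own : ℕ → Fin t) (cen : Fin t → ℕ) (i : Fin t) : Finset ℕ :=
  ((Icc 1 p).filter fun n => own n = i).erase (cen i)

namespace Lab

theorem p_eq (L : Lab m p a s own cen) : p = ∑ i, m i + t := by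
  rw [L.hp, sum_add_distrib]
  simp

theorem mem_lv (L : Lab m p a s own cen) (i : Fin t) (n : ℕ) :
    n ∈ lv p own cen i ↔ (1 ≤ n ∧ n ≤ p) ∧ n ≠ cen (own n) ∧ own n = i := by
  unfold lv
  rw [mem_erase, mem_filter, mem_Icc]
  constructor
  · rintro ⟨h1, h2, h3⟩
    refine ⟨h2, ?_, h3⟩
    rw [h3]
    exact h1
  · rintro ⟨h1, h2, h3⟩
    refine ⟨?_, h1, h3⟩
    rw [h3] at h2
    exact h2

theorem lv_card (L : Lab m p a s own cen) (i : Fin t) : (lv p own cen i).card = m i := by
  unfold lv
  rw [card_erase_of_mem, L.card i]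
  · omega
  · rw [mem_filter, mem_Icc]
    exact ⟨⟨L.cen1 i, L.cenp i⟩, L.own_cen i⟩

/-- all leaves -/
theorem leaf_card (L : Lab m p a s own cen) :
    ((Icc 1 p).filter fun n => n ≠ cen (own n)).card = ∑ i, m i := by
  rw [card_eq_sum_card_fiberwise (f := own) (t := univ) (fun n _ => mem_coe.2 (mem_univ _))]
  apply sum_congr rfl
  intro i _
  rw [← L.lv_card i]
  congr 1
  ext n
  rw [mem_filter, mem_filter, mem_Icc, L.mem_lv i n]
  tauto

theorem inj (L : Lab m p a s own cen) {n n' : ℕ} (h1 : 1 ≤ n) (h2 : n ≤ p)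
    (h3 : n ≠ cen (own n)) (h1' : 1 ≤ n') (h2' : n' ≤ p) (h3' : n' ≠ cen (own n'))
    (h : n + cen (own n) = n' + cen (own n')) : n = n' := by
  have h4 : (((Icc 1 p).filter fun n => n ≠ cen (own n)).image fun n => n + cen (own n)).card =
      ((Icc 1 p).filter fun n => n ≠ cen (own n)).card := by
    rw [L.sums, L.leaf_card, Nat.card_Ico]
    omega
  have h5 := card_image_iff.1 h4
  apply h5 _ _ h
  · rw [mem_coe, mem_filter, mem_Icc]
    exact ⟨⟨h1, h2⟩, h3⟩
  · rw [mem_coe, mem_filter, mem_Icc]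
    exact ⟨⟨h1', h2'⟩, h3'⟩

theorem rng (L : Lab m p a s own cen) {n : ℕ} (h1 : 1 ≤ n) (h2 : n ≤ p)
    (h3 : n ≠ cen (own n)) : s ≤ n + cen (own n) ∧ n + cen (own n) < s + ∑ i, m i := by
  have h4 : n + cen (own n) ∈ Ico s (s + ∑ i, m i) := by
    rw [← L.sums, mem_image]
    refine ⟨n, ?_, rfl⟩
    rw [mem_filter, mem_Icc]
    exact ⟨⟨h1, h2⟩, h3⟩
  exact mem_Ico.1 h4

theorem cov (L : Lab m p a s own cen) {x : ℕ} (h1 : s ≤ x) (h2 : x < s + ∑ i, m i) :
    ∃ n, 1 ≤ n ∧ n ≤ p ∧ n ≠ cen (own n) ∧ n + cen (own n) = x := by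
  have h3 : x ∈ Ico s (s + ∑ i, m i) := mem_Ico.2 ⟨h1, h2⟩
  rw [← L.sums, mem_image] at h3
  obtain ⟨n, h4, h5⟩ := h3
  rw [mem_filter, mem_Icc] at h4
  exact ⟨n, h4.1.1, h4.1.2, h4.2, h5⟩

/-- the centre on the side of `A`: the sum of a leaf -/
theorem opp (L : Lab m p a s own cen) {n : ℕ} (h1 : 1 ≤ n) (h2 : n ≤ p)
    (h3 : n ≠ cen (own n)) : (n ≤ a ∧ a < cen (own n)) ∨ (a < n ∧ cen (own n) ≤ a) := by
  have h4 := L.side n h1 h2 h3
  by_cases h5 : n ≤ a
  · left
    exact ⟨h5, by have := h4.1 h5; omega⟩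
  · right
    refine ⟨by omega, ?_⟩
    by_contra h6
    exact h5 (h4.2 h6)

theorem ne_cen (L : Lab m p a s own cen) {n : ℕ} (h3 : n ≠ cen (own n)) (i : Fin t) :
    n ≠ cen i := by
  intro h
  apply h3
  rw [h, L.own_cen]

theorem exists_leaf (L : Lab m p a s own cen) (i : Fin t) (hm : 1 ≤ m i) :
    ∃ n, 1 ≤ n ∧ n ≤ p ∧ n ≠ cen (own n) ∧ own n = i := by
  have h1 : 0 < (lv p own cen i).card := by
    rw [L.lv_card]
    omega
  obtain ⟨n, hn⟩ := card_pos.1 h1
  rw [L.mem_lv] at hn
  exact ⟨n, hn.1.1, hn.1.2, hn.2.1, hn.2.2⟩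

/-- the corner is not used if there are two stars -/
theorem corner (L : Lab m p a s own cen) (hm : ∀ i, 1 ≤ m i) (ht : 2 ≤ t) : s ≠ a + 2 := by
  intro hs
  have hq : 1 ≤ ∑ i, m i := by
    have h1 : m ⟨0, by omega⟩ ≤ ∑ i, m i := single_le_sum (fun i _ => Nat.zero_le (m i)) (mem_univ _)
    have h2 := hm ⟨0, by omega⟩
    omega
  have key : ∀ i0 : Fin t, (∀ n, 1 ≤ n → n ≤ p → n ≠ cen (own n) → own n = i0) → False := by
    intro i0 h
    have h2 : ∃ i1 : Fin t, i1 ≠ i0 := by
      by_cases h3 : i0 = ⟨0, by omega⟩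
      · refine ⟨⟨1, by omega⟩, ?_⟩
        rw [h3]
        intro h4
        have := congrArg Fin.val h4
        simp at this
      · exact ⟨_, Ne.symm h3⟩
    obtain ⟨i1, h3⟩ := h2
    obtain ⟨n, h4, h5, h6, h7⟩ := L.exists_leaf i1 (hm i1)
    exact h3 (h7.symm.trans (h n h4 h5 h6))
  obtain ⟨n0, h1, h2, h3, h4⟩ := L.cov (x := s) (le_refl _) (by omega)
  rcases L.opp h1 h2 h3 with ⟨h5, h6⟩ | ⟨h5, h6⟩
  · -- the centre is `a + 1`
    have hn0 : n0 = 1 := by omega
    have hc0 : cen (own n0) = a + 1 := by omega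
    have hP : ∀ k, k < ∑ i, m i → 1 + k ≤ a ∧ 1 + k ≠ cen (own (1 + k)) ∧ own (1 + k) = own n0 := by
      intro k
      induction k using Nat.strong_induction_on with
      | _ k ih =>
        intro hk
        obtain ⟨n, g1, g2, g3, g4⟩ := L.cov (x := s + k) (by omega) (by omega)
        have g6 : n = 1 + k := by
          rcases L.opp g1 g2 g3 with ⟨g5, g6⟩ | ⟨g5, g6⟩
          · by_contra hne
            have g7 : n - 1 < k := by
              omega
            obtain ⟨-, -, g8⟩ := ih (n - 1) g7 (by omega)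
            have g9 : 1 + (n - 1) = n := by omega
            rw [g9] at g8
            rw [g8, hc0] at g4
            omega
          · exfalso
            have c1 := L.cen1 (own n)
            rcases Nat.lt_or_ge (cen (own n) - 1) k with g7 | g7
            · obtain ⟨-, g8, -⟩ := ih (cen (own n) - 1) g7 (by omega)
              have g9 : 1 + (cen (own n) - 1) = cen (own n) := by omega
              rw [g9, L.own_cen] at g8
              exact g8 rfl
            · have g8 : n = a + 1 := by omega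
              exact L.ne_cen g3 (own n0) (by omega)
        subst g6
        rcases L.opp g1 g2 g3 with ⟨g5, g6⟩ | ⟨g5, g6⟩
        · refine ⟨g5, g3, ?_⟩
          have g7 : cen (own (1 + k)) = cen (own n0) := by omega
          have g8 := congrArg own g7
          rwa [L.own_cen, L.own_cen] at g8
        · exfalso
          have c1 := L.cen1 (own (1 + k))
          have g8 : 1 + k = a + 1 := by omega
          exact L.ne_cen g3 (own n0) (by omega)
    apply key (own n0)
    intro n g1 g2 g3
    have g4 := L.rng g1 g2 g3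
    obtain ⟨k, hk⟩ : ∃ k, n + cen (own n) = s + k := ⟨n + cen (own n) - s, by omega⟩
    have hk' : k < ∑ i, m i := by omega
    obtain ⟨q1, q2, q3⟩ := hP k hk'
    have g5 : n = 1 + k := by
      apply L.inj g1 g2 g3 (by omega) (by have := L.ha; omega) q2
      rw [q3, hc0, hk]
      omega
    rw [g5]
    exact q3
  · -- the centre is `1`
    have c0 := L.cen1 (own n0)
    have hn0 : n0 = a + 1 := by omega
    have hc0 : cen (own n0) = 1 := by omega
    have hP : ∀ k, k < ∑ i, m i → a + 1 + k ≤ p ∧ a + 1 + k ≠ cen (own (a + 1 + k)) ∧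
        own (a + 1 + k) = own n0 := by
      intro k
      induction k using Nat.strong_induction_on with
      | _ k ih =>
        intro hk
        obtain ⟨n, g1, g2, g3, g4⟩ := L.cov (x := s + k) (by omega) (by omega)
        have g6 : n = a + 1 + k := by
          rcases L.opp g1 g2 g3 with ⟨g5, g6⟩ | ⟨g5, g6⟩
          · exfalso
            have c1 := L.cen1 (own n)
            rcases Nat.lt_or_ge (cen (own n) - (a + 1)) k with g7 | g7
            · obtain ⟨-, g8, -⟩ := ih (cen (own n) - (a + 1)) g7 (by omega)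
              have g9 : a + 1 + (cen (own n) - (a + 1)) = cen (own n) := by omega
              rw [g9, L.own_cen] at g8
              exact g8 rfl
            · have g8 : n = 1 := by omega
              exact L.ne_cen g3 (own n0) (by omega)
          · by_contra hne
            have c1 := L.cen1 (own n)
            have g7 : n - (a + 1) < k := by
              omega
            obtain ⟨-, -, g8⟩ := ih (n - (a + 1)) g7 (by omega)
            have g9 : a + 1 + (n - (a + 1)) = n := by omega
            rw [g9] at g8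
            rw [g8, hc0] at g4
            omega
        subst g6
        rcases L.opp g1 g2 g3 with ⟨g5, g6⟩ | ⟨g5, g6⟩
        · omega
        · refine ⟨g2, g3, ?_⟩
          have g7 : cen (own (a + 1 + k)) = cen (own n0) := by omega
          have g8 := congrArg own g7
          rwa [L.own_cen, L.own_cen] at g8
    apply key (own n0)
    intro n g1 g2 g3
    have g4 := L.rng g1 g2 g3
    obtain ⟨k, hk⟩ : ∃ k, n + cen (own n) = s + k := ⟨n + cen (own n) - s, by omega⟩
    have hk' : k < ∑ i, m i := by omega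
    obtain ⟨q1, q2, q3⟩ := hP k hk'
    have g5 : n = a + 1 + k := by
      apply L.inj g1 g2 g3 (by omega) q1 q2
      rw [q3, hc0, hk]
      omega
    rw [g5]
    exact q3

end Lab

end Pool.Agent.StarF
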