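import Pool.Agent.StarF.Three

/-!
# Star forests: the case `r1 = 1`, `r2 = a` (MP_fb2988_co)
-/

set_option autoImplicit false

open Finset

namespace Pool.Agent.StarF

/-- among `1, .., k d` there are `k` numbers congruent to `1` modulo `d` -/
theorem cnt_one (d : ℕ) (hd : 2 ≤ d) (k : ℕ) :
    ((Ico 1 (1 + k * d)).filter fun j => j % d = 1).card = k := by
  induction k with
  | zero => simp
  | succ k ih =>
    have h1 : (Ico 1 (1 + (k + 1) * d)).filter (fun j => j % d = 1) =
        insert (1 + k * d) ((Ico 1 (1 + k * d)).filter fun j => j % d = 1) := by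
      ext j
      rw [mem_insert, mem_filter, mem_filter, mem_Ico, mem_Ico]
      have e1 : (k + 1) * d = k * d + d := by ring
      rw [e1]
      constructor
      · rintro ⟨⟨g1, g2⟩, g3⟩
        by_cases g4 : j < 1 + k * d
        · exact Or.inr ⟨⟨g1, g4⟩, g3⟩
        · left
          obtain ⟨x, rfl⟩ := Nat.exists_eq_add_of_le (not_lt.1 g4)
          have e2 : (1 + k * d + x) % d = (1 + x) % d := by
            rw [show 1 + k * d + x = (1 + x) + d * k by ring, Nat.add_mul_mod_self_left]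
          rw [e2] at g3
          by_cases g5 : 1 + x < d
          · rw [Nat.mod_eq_of_lt g5] at g3
            omega
          · have g6 : 1 + x = d := by omega
            rw [g6, Nat.mod_self] at g3
            omega
      · rintro (rfl | ⟨⟨g1, g2⟩, g3⟩)
        · refine ⟨⟨by omega, by omega⟩, ?_⟩
          rw [show 1 + k * d = 1 + d * k by ring, Nat.add_mul_mod_self_left, Nat.mod_eq_of_lt (by omega)]
        · exact ⟨⟨g1, by omega⟩, g3⟩
    rw [h1, card_insert_of_notMem, ih]
    rw [mem_filter, mem_Ico]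
    omega

theorem cnt_not (d : ℕ) (hd : 2 ≤ d) (k : ℕ) :
    ((Ico 1 (1 + k * d)).filter fun j => ¬ j % d = 1).card = k * (d - 1) := by
  have h1 := card_filter_add_card_filter_not (s := Ico 1 (1 + k * d)) (fun j => j % d = 1)
  rw [cnt_one d hd k, Nat.card_Ico] at h1
  have e1 : k * (d - 1) + k = k * d := by
    obtain ⟨d', rfl⟩ : ∃ d', d = d' + 1 := ⟨d - 1, by omega⟩
    simp
    ring
  omega

namespace G3

variable {a b c : ℕ} {X : ℕ → Prop}

/-- the left part in the case `r1 = 1`, `r2 = a` -/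
theorem leftA (G : G3 a b c 1 a X) (ha : 3 ≤ a) :
    (∃ k, c = 1 + k * (a - 1)) ∧ ∀ u, 1 ≤ u → u < c → (X u ↔ ¬ u % (a - 1) = 1) := by
  have e4 := G.c1
  have e5 := G.c2
  -- the left columns in the row `a`
  have hN : ∀ u, 1 ≤ u → u < c → ¬ X u → u + a ≤ c + 1 := by
    intro u h1 h2 h3
    have := G.f2 (j := u) h1 (by omega) (by omega) h3
    omega
  have hR : ∀ u, c < u → u ≤ b → X u → c + a ≤ u + 1 := by
    intro u h1 h2 h3
    have := G.f1 (j := u) (by omega) h2 (by omega) h3
    omega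
  -- the sum `u + 1` for `2 ≤ u ≤ c`
  have hC : ∀ u, 2 ≤ u → u ≤ c → (u < c ∧ X u) ∨ (a ≤ u ∧ ¬ X (u + 1 - a)) := by
    intro u h1 h2
    rcases G.cov (u + 1) (by omega) (by omega) with
      ⟨i, g1, g2, g3, g4, g5⟩ | ⟨j, g1, g2, g3, g4, g5⟩ | ⟨j, g1, g2, g3, g4, g5⟩
    · omega
    · have : j = u := by omega
      rw [this] at g4 g3
      left
      exact ⟨by omega, g4⟩
    · right
      have : j = u + 1 - a := by omega
      rw [this] at g4
      exact ⟨by omega, g4⟩
  have hI : ∀ u, a ≤ u → u < c → X u → X (u + 1 - a) := by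
    intro u h1 h2 h3
    by_contra h4
    have := G.inj3 u (u + 1 - a) (by omega) (by omega) (by omega) h3 (by omega) (by omega)
      (by omega) h4
    omega
  have h1 : 1 < c → ¬ X 1 := by
    intro h1 h2
    have := G.rng1 1 (by omega) (by omega) (by omega) h2
    omega
  have hX : ∀ u, 1 ≤ u → u < c → (X u ↔ ¬ u % (a - 1) = 1) := by
    intro u
    induction u using Nat.strong_induction_on with
    | _ u ih =>
      intro g1 g2
      by_cases g3 : u = 1
      · subst g3
        rw [Nat.mod_eq_of_lt (by omega)]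
        exact ⟨fun h => absurd h (h1 g2), fun h => absurd rfl h⟩
      · by_cases g4 : u < a
        · have g5 : X u := by
            rcases hC u (by omega) (by omega) with ⟨-, h⟩ | ⟨h, -⟩
            · exact h
            · omega
          refine ⟨fun _ => ?_, fun _ => g5⟩
          by_cases g6 : u = a - 1
          · rw [g6, Nat.mod_self]
            omega
          · rw [Nat.mod_eq_of_lt (by omega)]
            exact g3
        · have g5 := ih (u + 1 - a) (by omega) (by omega) (by omega)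
          have g6 : u % (a - 1) = (u + 1 - a) % (a - 1) := by
            have : u = (u + 1 - a) + (a - 1) := by omega
            conv_lhs => rw [this]
            rw [Nat.add_mod_right]
          rw [g6, ← g5]
          constructor
          · exact hI u (by omega) g2
          · intro h
            rcases hC u (by omega) (by omega) with ⟨-, h'⟩ | ⟨-, h'⟩
            · exact h'
            · exact absurd h h'
  refine ⟨?_, hX⟩
  by_cases hc : c = 1
  · exact ⟨0, by omega⟩
  · rcases hC c (by omega) (by omega) with ⟨h, -⟩ | ⟨h2, h3⟩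
    · omega
    · have h4 := hX (c + 1 - a) (by omega) (by omega)
      have h5 : (c + 1 - a) % (a - 1) = 1 := by
        by_contra h6
        exact h3 (h4.2 h6)
      have h6 := Nat.div_add_mod (c + 1 - a) (a - 1)
      rw [h5] at h6
      refine ⟨(c + 1 - a) / (a - 1) + 1, ?_⟩
      have h7 : ((c + 1 - a) / (a - 1) + 1) * (a - 1) = (a - 1) * ((c + 1 - a) / (a - 1)) + (a - 1) := by
        ring
      omega

theorem countL (G : G3 a b c 1 a X) (ha : 3 ≤ a) : ∃ k, c = 1 + k * (a - 1) ∧
    (∀ T : Finset ℕ, (∀ j, j ∈ T ↔ (1 ≤ j ∧ j < c) ∧ X j) → T.card = k * (a - 2)) ∧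
    (∀ T : Finset ℕ, (∀ j, j ∈ T ↔ (1 ≤ j ∧ j < c) ∧ ¬ X j) → T.card = k) := by
  obtain ⟨⟨k, hk⟩, hX⟩ := G.leftA ha
  have e5 := G.c2
  refine ⟨k, hk, ?_, ?_⟩
  · intro T hT
    have h1 : T = (Ico 1 (1 + k * (a - 1))).filter fun j => ¬ j % (a - 1) = 1 := by
      ext j
      rw [hT, mem_filter, mem_Ico, ← hk]
      constructor
      · rintro ⟨g1, g2⟩
        exact ⟨g1, (hX j g1.1 g1.2).1 g2⟩
      · rintro ⟨g1, g2⟩
        exact ⟨g1, (hX j g1.1 g1.2).2 g2⟩
    rw [h1, cnt_not (a - 1) (by omega) k]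
    congr 1
  · intro T hT
    have h1 : T = (Ico 1 (1 + k * (a - 1))).filter fun j => j % (a - 1) = 1 := by
      ext j
      rw [hT, mem_filter, mem_Ico, ← hk]
      constructor
      · rintro ⟨g1, g2⟩
        refine ⟨g1, ?_⟩
        rw [hX j g1.1 g1.2, not_not] at g2
        exact g2
      · rintro ⟨g1, g2⟩
        refine ⟨g1, ?_⟩
        rw [hX j g1.1 g1.2, not_not]
        exact g2
    rw [h1, cnt_one (a - 1) (by omega) k]

/-- the sizes in the case `r1 = 1`, `r2 = a` -/
theorem countA (G : G3 a b c 1 a X) (ha : 3 ≤ a) : ∃ k l,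
    (∀ T : Finset ℕ, (∀ j, j ∈ T ↔ (1 ≤ j ∧ j ≤ b) ∧ j ≠ c ∧ X j) → T.card = k * (a - 2) + l) ∧
    (∀ T : Finset ℕ, (∀ j, j ∈ T ↔ (1 ≤ j ∧ j ≤ b) ∧ j ≠ c ∧ ¬ X j) →
      T.card = k + l * (a - 2)) := by
  have e4 := G.c1
  have e5 := G.c2
  obtain ⟨k, hk, h1, h2⟩ := G.countL ha
  have G' := G.refl
  have e1 : a + 1 - a = 1 := by omega
  have e2 : a + 1 - 1 = a := by omega
  rw [e1, e2] at G'
  obtain ⟨l, hl, h3, h4⟩ := G'.countL ha
  have key : ∀ (P : ℕ → Prop) (x y : ℕ) (T : Finset ℕ),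
      (∀ T : Finset ℕ, (∀ j, j ∈ T ↔ (1 ≤ j ∧ j < c) ∧ P j) → T.card = x) →
      (∀ T : Finset ℕ, (∀ j, j ∈ T ↔ (1 ≤ j ∧ j < b + 1 - c) ∧ P (b + 1 - j)) → T.card = y) →
      (∀ j, j ∈ T ↔ (1 ≤ j ∧ j ≤ b) ∧ j ≠ c ∧ P j) → T.card = x + y := by
    intro P x y T hx hy hT
    have h5 := card_filter_add_card_filter_not (s := T) (fun j => j < c)
    rw [← h5]
    congr 1
    · apply hx
      intro j
      rw [mem_filter, hT]
      constructor
      · rintro ⟨⟨⟨g1, g2⟩, g3, g4⟩, g5⟩
        exact ⟨⟨g1, g5⟩, g4⟩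
      · rintro ⟨⟨g1, g2⟩, g3⟩
        exact ⟨⟨⟨g1, by omega⟩, by omega, g3⟩, g2⟩
    · rw [← hy ((T.filter fun j => ¬ j < c).image fun j => b + 1 - j), card_image_of_injOn]
      · intro j hj j' hj' h
        rw [mem_coe, mem_filter, hT] at hj hj'
        simp only at h
        omega
      · intro j
        rw [mem_image]
        constructor
        · rintro ⟨j', hj', rfl⟩
          rw [mem_filter, hT] at hj'
          obtain ⟨⟨⟨g1, g2⟩, g3, g4⟩, g5⟩ := hj'
          have g6 : b + 1 - (b + 1 - j') = j' := by omega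
          rw [g6]
          exact ⟨⟨by omega, by omega⟩, g4⟩
        · rintro ⟨⟨g1, g2⟩, g3⟩
          refine ⟨b + 1 - j, ?_, by omega⟩
          rw [mem_filter, hT]
          exact ⟨⟨⟨by omega, by omega⟩, by omega, g3⟩, by omega⟩
  refine ⟨k, l, ?_, ?_⟩
  · intro T hT
    apply key X _ _ T h1 _ hT
    intro T' hT'
    apply h4
    intro j
    rw [hT', not_not]
  · intro T hT
    exact key (fun j => ¬ X j) _ _ T h2 h3 hT

end G3

end Pool.Agent.StarF
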