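import Pool.Agent.StarF.Enc
import Pool.Agent.StarF.Cnt

/-!
# Star forests: constructions for three stars (MP_fb2988_co)
-/

set_option autoImplicit false

open Finset

namespace Pool.Agent.StarF

section general

variable {t : ℕ} {m : Fin t → ℕ} {p a s : ℕ} {own : ℕ → Fin t} {cen : Fin t → ℕ}

/-- it is enough to cover the sums -/
theorem lab_of_cov (hp : p = ∑ i, (m i + 1)) (ha : a ≤ p) (cen1 : ∀ i, 1 ≤ cen i)
    (cenp : ∀ i, cen i ≤ p) (own_cen : ∀ i, own (cen i) = i)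
    (card : ∀ i, ((Icc 1 p).filter fun n => own n = i).card = m i + 1)
    (side : ∀ n, 1 ≤ n → n ≤ p → n ≠ cen (own n) → (n ≤ a ↔ ¬ cen (own n) ≤ a))
    (cov : ∀ x, s ≤ x → x < s + ∑ i, m i → ∃ n, (1 ≤ n ∧ n ≤ p) ∧ n ≠ cen (own n) ∧
      n + cen (own n) = x) : Lab m p a s own cen := by
  refine ⟨hp, ha, cen1, cenp, own_cen, card, side, ?_⟩
  symm
  apply eq_of_subset_of_card_le
  · intro x hx
    rw [mem_Ico] at hx
    obtain ⟨n, h1, h2, h3⟩ := cov x hx.1 hx.2
    rw [mem_image]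
    exact ⟨n, mem_filter.2 ⟨mem_Icc.2 h1, h2⟩, h3⟩
  · refine card_image_le.trans ?_
    rw [Nat.card_Ico]
    have h1 : (Icc 1 p).filter (fun n => n ≠ cen (own n)) = (Icc 1 p) \ (univ.image cen) := by
      ext n
      rw [mem_filter, mem_sdiff, mem_image]
      constructor
      · rintro ⟨g1, g2⟩
        refine ⟨g1, ?_⟩
        rintro ⟨i, -, g3⟩
        apply g2
        rw [← g3, own_cen]
      · rintro ⟨g1, g2⟩
        refine ⟨g1, ?_⟩
        intro g3
        exact g2 ⟨own n, mem_univ _, g3.symm⟩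
    have h2 : (univ.image cen).card = t := by
      rw [card_image_of_injective, card_univ, Fintype.card_fin]
      intro i j h
      rw [← own_cen i, ← own_cen j, h]
    rw [h1, card_sdiff_of_subset, h2, Nat.card_Icc, hp, sum_add_distrib]
    · simp
    · intro n hn
      rw [mem_image] at hn
      obtain ⟨i, -, rfl⟩ := hn
      exact mem_Icc.2 ⟨cen1 i, cenp i⟩

theorem ssem_perm (ht : 0 < t) (σ : Equiv.Perm (Fin t)) (h : IsSSEM (starForest (fun i => m (σ i)))) :
    IsSSEM (starForest m) := by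
  obtain ⟨p, a, s, own, cen, L⟩ := exists_lab ht _ h
  have e1 : ∑ i, m (σ i) = ∑ i, m i := Equiv.sum_comp σ m
  have L' : Lab m p a s (fun n => σ (own n)) (fun i => cen (σ.symm i)) := by
    refine ⟨?_, L.ha, fun i => L.cen1 _, fun i => L.cenp _, fun i => ?_, fun i => ?_, ?_, ?_⟩
    · rw [L.hp, sum_add_distrib, sum_add_distrib, e1]
    · show σ (own (cen (σ.symm i))) = i
      rw [L.own_cen, Equiv.apply_symm_apply]
    · have h1 := L.card (σ.symm i)
      rw [Equiv.apply_symm_apply] at h1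
      rw [← h1]
      congr 1
      ext n
      rw [mem_filter, mem_filter, Equiv.eq_symm_apply]
    · intro n h1 h2 h3
      rw [Equiv.symm_apply_apply] at h3 ⊢
      exact L.side n h1 h2 h3
    · have h1 := L.sums
      rw [e1] at h1
      rw [← h1]
      simp only [Equiv.symm_apply_apply]
  exact L'.toSSEM

end general

theorem mk3 {x y z p a s : ℕ} (P Q : ℕ → Prop) [DecidablePred P] [DecidablePred Q]
    (c0 c1 c2 : ℕ) (hp : p = x + y + z + 3) (ha : a ≤ p) (h0 : 1 ≤ c0 ∧ c0 ≤ p)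
    (h1 : 1 ≤ c1 ∧ c1 ≤ p) (h2 : 1 ≤ c2 ∧ c2 ≤ p) (e0 : P c0) (e1 : ¬ P c1 ∧ Q c1)
    (e2 : ¬ P c2 ∧ ¬ Q c2) (k0 : ((Icc 1 p).filter P).card = x + 1)
    (k1 : ((Icc 1 p).filter fun n => ¬ P n ∧ Q n).card = y + 1)
    (s0 : ∀ n, 1 ≤ n → n ≤ p → n ≠ c0 → P n → (n ≤ a ↔ ¬ c0 ≤ a))
    (s1 : ∀ n, 1 ≤ n → n ≤ p → n ≠ c1 → ¬ P n → Q n → (n ≤ a ↔ ¬ c1 ≤ a))
    (s2 : ∀ n, 1 ≤ n → n ≤ p → n ≠ c2 → ¬ P n → ¬ Q n → (n ≤ a ↔ ¬ c2 ≤ a))
    (cov : ∀ v, s ≤ v → v < s + (x + y + z) →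
      (c0 < v ∧ v ≤ c0 + p ∧ v ≠ 2 * c0 ∧ P (v - c0)) ∨
      (c1 < v ∧ v ≤ c1 + p ∧ v ≠ 2 * c1 ∧ ¬ P (v - c1) ∧ Q (v - c1)) ∨
      (c2 < v ∧ v ≤ c2 + p ∧ v ≠ 2 * c2 ∧ ¬ P (v - c2) ∧ ¬ Q (v - c2))) :
    IsSSEM (starForest ![x, y, z]) := by
  set own : ℕ → Fin 3 := fun n => if P n then 0 else if Q n then 1 else 2 with hown
  have w0 : ∀ n, own n = 0 ↔ P n := by
    intro n
    rw [hown]
    by_cases g : P n
    · simp [g]
    · by_cases g' : Q n <;> simp [g, g']
  have w1 : ∀ n, own n = 1 ↔ ¬ P n ∧ Q n := by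
    intro n
    rw [hown]
    by_cases g : P n
    · simp [g]
    · by_cases g' : Q n <;> simp [g, g']
  have w2 : ∀ n, own n = 2 ↔ ¬ P n ∧ ¬ Q n := by
    intro n
    rw [hown]
    by_cases g : P n
    · simp [g]
    · by_cases g' : Q n <;> simp [g, g']
  have hall : ∀ n, own n = 0 ∨ own n = 1 ∨ own n = 2 := by
    intro n
    rw [w0, w1, w2]
    tauto
  have hsum : ∑ i, (![x, y, z] : Fin 3 → ℕ) i = x + y + z := by
    rw [Fin.sum_univ_three]
    rfl
  have c0e : (![c0, c1, c2] : Fin 3 → ℕ) 0 = c0 := rfl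
  have c1e : (![c0, c1, c2] : Fin 3 → ℕ) 1 = c1 := rfl
  have c2e : (![c0, c1, c2] : Fin 3 → ℕ) 2 = c2 := rfl
  have L : Lab ![x, y, z] p a s own ![c0, c1, c2] := by
    apply lab_of_cov
    · rw [sum_add_distrib, hsum, hp]
      simp
    · exact ha
    · intro i
      fin_cases i
      · exact h0.1
      · exact h1.1
      · exact h2.1
    · intro i
      fin_cases i
      · exact h0.2
      · exact h1.2
      · exact h2.2
    · intro i
      fin_cases i
      · exact (w0 c0).2 e0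
      · exact (w1 c1).2 e1
      · exact (w2 c2).2 e2
    · have j0 : ((Icc 1 p).filter fun n => own n = 0).card = x + 1 := by
        rw [← k0]
        congr 1
        ext n
        rw [mem_filter, mem_filter, w0]
      have j1 : ((Icc 1 p).filter fun n => own n = 1).card = y + 1 := by
        rw [← k1]
        congr 1
        ext n
        rw [mem_filter, mem_filter, w1]
      have j2 : (Icc 1 p).card = ∑ i, ((Icc 1 p).filter fun n => own n = i).card :=
        card_eq_sum_card_fiberwise (f := own) (t := univ) (fun n _ => mem_coe.2 (mem_univ _))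
      rw [Nat.card_Icc, Fin.sum_univ_three, j0, j1] at j2
      intro i
      fin_cases i
      · exact j0
      · exact j1
      · show ((Icc 1 p).filter fun n => own n = 2).card = z + 1
        omega
    · intro n g1 g2 g3
      rcases hall n with h | h | h
      · rw [h, c0e] at g3 ⊢
        exact s0 n g1 g2 g3 ((w0 n).1 h)
      · rw [h, c1e] at g3 ⊢
        exact s1 n g1 g2 g3 ((w1 n).1 h).1 ((w1 n).1 h).2
      · rw [h, c2e] at g3 ⊢
        exact s2 n g1 g2 g3 ((w2 n).1 h).1 ((w2 n).1 h).2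
    · intro v g1 g2
      rw [hsum] at g2
      rcases cov v g1 g2 with ⟨q1, q2, q3, q4⟩ | ⟨q1, q2, q3, q4, q5⟩ | ⟨q1, q2, q3, q4, q5⟩
      · have h := (w0 (v - c0)).2 q4
        refine ⟨v - c0, ⟨by omega, by omega⟩, ?_, ?_⟩
        · rw [h, c0e]
          omega
        · rw [h, c0e]
          omega
      · have h := (w1 (v - c1)).2 ⟨q4, q5⟩
        refine ⟨v - c1, ⟨by omega, by omega⟩, ?_, ?_⟩
        · rw [h, c1e]
          omega
        · rw [h, c1e]
          omega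
      · have h := (w2 (v - c2)).2 ⟨q4, q5⟩
        refine ⟨v - c2, ⟨by omega, by omega⟩, ?_, ?_⟩
        · rw [h, c2e]
          omega
        · rw [h, c2e]
          omega
  exact L.toSSEM

/-- `K_{1,1} ∪ K_{1,x} ∪ K_{1,y}` -/
theorem fam2 (x y : ℕ) : IsSSEM (starForest ![1, y, x]) := by
  apply mk3 (p := x + y + 4) (a := x + 2) (s := x + 5) (fun n => n = 1 ∨ n = x + y + 4)
    (fun n => n = 2 ∨ (x + 3 ≤ n ∧ n ≤ x + y + 2)) 1 2 (x + y + 3) <;> try omega
  · have : (Icc 1 (x + y + 4)).filter (fun n => n = 1 ∨ n = x + y + 4) = {1, x + y + 4} := by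
      ext n
      rw [mem_filter, mem_Icc, mem_insert, mem_singleton]
      omega
    rw [this, card_pair]
    omega
  · have : (Icc 1 (x + y + 4)).filter (fun n => ¬ (n = 1 ∨ n = x + y + 4) ∧
        (n = 2 ∨ (x + 3 ≤ n ∧ n ≤ x + y + 2))) = insert 2 (Icc (x + 3) (x + y + 2)) := by
      ext n
      rw [mem_filter, mem_Icc, mem_insert, mem_Icc]
      omega
    rw [this, card_insert_of_notMem, Nat.card_Icc]
    · omega
    · rw [mem_Icc]
      omega

end Pool.Agent.StarF
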