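import Pool.Agent.StarF.Div

/-!
# Star forests: transposition, the congruence for one centre (MP_fb2988_co)
-/

set_option autoImplicit false

open Finset

namespace Pool.Agent.StarF

variable {t : ℕ} {m : Fin t → ℕ} {p a s : ℕ} {own : ℕ → Fin t} {cen : Fin t → ℕ}

/-- the position of the label `x` in its side -/
def pos (a x : ℕ) : ℕ := if x ≤ a then x else x - a

namespace Lab

/-- transposition: the two sides are exchanged -/
theorem transp (L : Lab m p a s own cen) (hs : a ≤ s) :
    Lab m p (p - a) (s - a + (p - a))
      (fun n => if n ≤ p - a then own (n + a) else own (n - (p - a)))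
      (fun i => if cen i ≤ a then cen i + (p - a) else cen i - a) := by
  have ha := L.ha
  have key : ∀ n, 1 ≤ n → n ≤ p → n ≠ (fun i => if cen i ≤ a then cen i + (p - a) else cen i - a)
      ((fun n => if n ≤ p - a then own (n + a) else own (n - (p - a))) n) →
      ∃ x, 1 ≤ x ∧ x ≤ p ∧ x ≠ cen (own x) ∧
        ((n ≤ p - a ∧ x = n + a ∧ cen (own x) ≤ a ∧
            (fun i => if cen i ≤ a then cen i + (p - a) else cen i - a)
              ((fun n => if n ≤ p - a then own (n + a) else own (n - (p - a))) n) =
              cen (own x) + (p - a)) ∨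
         (p - a < n ∧ x = n - (p - a) ∧ a < cen (own x) ∧
            (fun i => if cen i ≤ a then cen i + (p - a) else cen i - a)
              ((fun n => if n ≤ p - a then own (n + a) else own (n - (p - a))) n) =
              cen (own x) - a)) := by
    intro n h1 h2 h3
    by_cases h4 : n ≤ p - a
    · have e1 : (fun n => if n ≤ p - a then own (n + a) else own (n - (p - a))) n = own (n + a) :=
        if_pos h4
      rw [e1] at h3 ⊢
      have c1 := L.cen1 (own (n + a))
      have c2 := L.cenp (own (n + a))
      refine ⟨n + a, by omega, by omega, ?_, Or.inl ⟨h4, rfl, ?_, ?_⟩⟩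
      · intro h5
        apply h3
        show n = if cen (own (n + a)) ≤ a then cen (own (n + a)) + (p - a) else
          cen (own (n + a)) - a
        split_ifs <;> omega
      · by_contra h5
        apply h3
        show n = if cen (own (n + a)) ≤ a then cen (own (n + a)) + (p - a) else
          cen (own (n + a)) - a
        rw [if_neg h5]
        by_contra h6
        rcases L.opp (n := n + a) (by omega) (by omega) (by omega) with h7 | h7 <;> omega
      · have h5 : cen (own (n + a)) ≤ a := by
          by_contra h5
          apply h3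
          show n = if cen (own (n + a)) ≤ a then cen (own (n + a)) + (p - a) else
            cen (own (n + a)) - a
          rw [if_neg h5]
          by_contra h6
          rcases L.opp (n := n + a) (by omega) (by omega) (by omega) with h7 | h7 <;> omega
        exact if_pos h5
    · have e1 : (fun n => if n ≤ p - a then own (n + a) else own (n - (p - a))) n =
        own (n - (p - a)) := if_neg h4
      rw [e1] at h3 ⊢
      have c1 := L.cen1 (own (n - (p - a)))
      have c2 := L.cenp (own (n - (p - a)))
      have h5 : ¬ cen (own (n - (p - a))) ≤ a := by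
        intro h5
        apply h3
        show n = if cen (own (n - (p - a))) ≤ a then cen (own (n - (p - a))) + (p - a) else
          cen (own (n - (p - a))) - a
        rw [if_pos h5]
        by_contra h6
        rcases L.opp (n := n - (p - a)) (by omega) (by omega) (by omega) with h7 | h7 <;> omega
      refine ⟨n - (p - a), by omega, by omega, by omega, Or.inr ⟨by omega, rfl, by omega, ?_⟩⟩
      exact if_neg h5
  refine ⟨L.hp, by omega, fun i => ?_, fun i => ?_, fun i => ?_, fun i => ?_, ?_, ?_⟩
  · have c1 := L.cen1 i
    show 1 ≤ if cen i ≤ a then cen i + (p - a) else cen i - a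
    split_ifs <;> omega
  · have c1 := L.cenp i
    show (if cen i ≤ a then cen i + (p - a) else cen i - a) ≤ p
    split_ifs <;> omega
  · have c1 := L.cen1 i
    have c2 := L.cenp i
    show (if (if cen i ≤ a then cen i + (p - a) else cen i - a) ≤ p - a then
      own ((if cen i ≤ a then cen i + (p - a) else cen i - a) + a) else
      own ((if cen i ≤ a then cen i + (p - a) else cen i - a) - (p - a))) = i
    by_cases h1 : cen i ≤ a
    · rw [if_pos h1, if_neg (by omega)]
      have h2 : cen i + (p - a) - (p - a) = cen i := by omega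
      rw [h2, L.own_cen]
    · rw [if_neg h1, if_pos (by omega)]
      have h2 : cen i - a + a = cen i := by omega
      rw [h2, L.own_cen]
  · rw [← L.card i]
    apply card_bij' (fun n _ => if n ≤ p - a then n + a else n - (p - a))
      (fun n _ => if n ≤ a then n + (p - a) else n - a)
    · intro n hn
      rw [mem_filter, mem_Icc] at hn ⊢
      obtain ⟨⟨h1, h2⟩, h3⟩ := hn
      by_cases h4 : n ≤ p - a
      · rw [if_pos h4] at h3 ⊢
        exact ⟨⟨by omega, by omega⟩, h3⟩
      · rw [if_neg h4] at h3 ⊢
        exact ⟨⟨by omega, by omega⟩, h3⟩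
    · intro n hn
      rw [mem_filter, mem_Icc] at hn ⊢
      obtain ⟨⟨h1, h2⟩, h3⟩ := hn
      by_cases h4 : n ≤ a
      · rw [if_pos h4]
        refine ⟨⟨by omega, by omega⟩, ?_⟩
        rw [if_neg (by omega)]
        have h5 : n + (p - a) - (p - a) = n := by omega
        rw [h5, h3]
      · rw [if_neg h4]
        refine ⟨⟨by omega, by omega⟩, ?_⟩
        rw [if_pos (by omega)]
        have h5 : n - a + a = n := by omega
        rw [h5, h3]
    · intro n hn
      rw [mem_filter, mem_Icc] at hn
      show (if (if n ≤ p - a then n + a else n - (p - a)) ≤ a then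
        (if n ≤ p - a then n + a else n - (p - a)) + (p - a) else
        (if n ≤ p - a then n + a else n - (p - a)) - a) = n
      by_cases h4 : n ≤ p - a
      · rw [if_pos h4]
        split_ifs <;> omega
      · rw [if_neg h4]
        split_ifs <;> omega
    · intro n hn
      rw [mem_filter, mem_Icc] at hn
      show (if (if n ≤ a then n + (p - a) else n - a) ≤ p - a then
        (if n ≤ a then n + (p - a) else n - a) + a else
        (if n ≤ a then n + (p - a) else n - a) - (p - a)) = n
      by_cases h4 : n ≤ a
      · rw [if_pos h4]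
        split_ifs <;> omega
      · rw [if_neg h4]
        split_ifs <;> omega
  · intro n h1 h2 h3
    obtain ⟨x, h4, h5, h6, h7 | h7⟩ := key n h1 h2 h3
    · obtain ⟨g1, g2, g3, g4⟩ := h7
      beta_reduce at g4
      rw [g4]
      have c1 := L.cen1 (own x)
      omega
    · obtain ⟨g1, g2, g3, g4⟩ := h7
      beta_reduce at g4
      rw [g4]
      have := L.cenp (own x)
      omega
  · ext y
    rw [mem_image, mem_Ico]
    constructor
    · rintro ⟨n, h1, rfl⟩
      rw [mem_filter, mem_Icc] at h1
      obtain ⟨⟨h1, h2⟩, h3⟩ := h1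
      obtain ⟨x, h4, h5, h6, h7 | h7⟩ := key n h1 h2 h3
      · obtain ⟨g1, g2, g3, g4⟩ := h7
        beta_reduce at g4 ⊢
        rw [g4]
        have g5 := L.rng h4 h5 h6
        omega
      · obtain ⟨g1, g2, g3, g4⟩ := h7
        beta_reduce at g4 ⊢
        rw [g4]
        have g5 := L.rng h4 h5 h6
        omega
    · rintro ⟨h1, h2⟩
      obtain ⟨x, g1, g2, g3, g4⟩ := L.cov (x := y + a - (p - a)) (by omega) (by omega)
      have c1 := L.cen1 (own x)
      have c2 := L.cenp (own x)
      rcases L.opp g1 g2 g3 with ⟨g5, g6⟩ | ⟨g5, g6⟩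
      · have e1 : (fun n => if n ≤ p - a then own (n + a) else own (n - (p - a))) (x + (p - a)) =
            own x := by
          show (if x + (p - a) ≤ p - a then own (x + (p - a) + a) else
            own (x + (p - a) - (p - a))) = own x
          rw [if_neg (by omega)]
          congr 1
          omega
        have e2 : (fun i => if cen i ≤ a then cen i + (p - a) else cen i - a) (own x) =
            cen (own x) - a := if_neg (by omega)
        refine ⟨x + (p - a), ?_, ?_⟩
        · rw [mem_filter, mem_Icc]
          refine ⟨⟨by omega, by omega⟩, ?_⟩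
          intro h
          have h' := h.trans (congrArg (fun i => if cen i ≤ a then cen i + (p - a) else cen i - a) e1)
          beta_reduce at h'
          rw [if_neg (by omega)] at h'
          omega
        · have h' := congrArg (fun i => if cen i ≤ a then cen i + (p - a) else cen i - a) e1
          beta_reduce at h' ⊢
          rw [h', if_neg (by omega)]
          omega
      · have e1 : (fun n => if n ≤ p - a then own (n + a) else own (n - (p - a))) (x - a) =
            own x := by
          show (if x - a ≤ p - a then own (x - a + a) else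
            own (x - a - (p - a))) = own x
          rw [if_pos (by omega)]
          congr 1
          omega
        have e2 : (fun i => if cen i ≤ a then cen i + (p - a) else cen i - a) (own x) =
            cen (own x) + (p - a) := if_pos (by omega)
        refine ⟨x - a, ?_, ?_⟩
        · rw [mem_filter, mem_Icc]
          refine ⟨⟨by omega, by omega⟩, ?_⟩
          intro h
          have h' := h.trans (congrArg (fun i => if cen i ≤ a then cen i + (p - a) else cen i - a) e1)
          beta_reduce at h'
          rw [if_pos (by omega)] at h'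
          omega
        · have h' := congrArg (fun i => if cen i ≤ a then cen i + (p - a) else cen i - a) e1
          beta_reduce at h' ⊢
          rw [h', if_pos (by omega)]
          omega

/-- if `g` divides all `m i - 1`, `i ≠ k`: the congruence for the centre of the star `k` -/
theorem cong (L : Lab m p a s own cen) (k : Fin t) {g : ℕ}
    (hg : ∀ i, i ≠ k → (g : ℤ) ∣ (m i : ℤ) - 1) :
    (2 * (g : ℤ)) ∣ 2 * ((m k : ℤ) - 1) * (pos a (cen k) - ((s : ℤ) - a) + 1) -
      (t : ℤ) * (2 * ((s : ℤ) - a) - t - 3) := by
  have h1 := L.total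
  have h2 := L.p_eq
  have h3 := L.a_eq
  have hk : k ∈ (univ : Finset (Fin t)) := mem_univ k
  obtain ⟨Q, hQ⟩ : (g : ℤ) ∣ ((∑ i, m i : ℕ) : ℤ) - t - ((m k : ℤ) - 1) := by
    have e : ((∑ i, m i : ℕ) : ℤ) - t - ((m k : ℤ) - 1) = ∑ i ∈ univ.erase k, ((m i : ℤ) - 1) := by
      have e1 : ∑ i, ((m i : ℤ) - 1) = ((m k : ℤ) - 1) + ∑ i ∈ univ.erase k, ((m i : ℤ) - 1) :=
        (add_sum_erase univ (fun i => (m i : ℤ) - 1) hk).symm
      have e2 : ∑ i, ((m i : ℤ) - 1) = ((∑ i, m i : ℕ) : ℤ) - t := by
        rw [sum_sub_distrib, Nat.cast_sum]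
        simp
      linarith
    rw [e]
    exact dvd_sum fun i hi => hg i (ne_of_mem_erase hi)
  obtain ⟨A, hA⟩ : (g : ℤ) ∣ (a : ℤ) - t - (if cen k ≤ a then 0 else (m k : ℤ) - 1) := by
    have e1 : ((univ.filter fun i => cen i ≤ a).card : ℤ) +
        ((univ.filter fun i => ¬ cen i ≤ a).card : ℤ) = t := by
      have := card_filter_add_card_filter_not (s := (univ : Finset (Fin t))) (fun i => cen i ≤ a)
      rw [card_univ, Fintype.card_fin] at this
      exact_mod_cast this
    have e2 : (a : ℤ) - t = ∑ i ∈ univ.filter (fun i => ¬ cen i ≤ a), ((m i : ℤ) - 1) := by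
      rw [sum_sub_distrib, sum_const, nsmul_eq_mul, mul_one]
      have e3 : (a : ℤ) = ((univ.filter fun i => cen i ≤ a).card : ℤ) +
          ∑ i ∈ univ.filter (fun i => ¬ cen i ≤ a), (m i : ℤ) := by
        exact_mod_cast h3
      linarith
    rw [e2]
    by_cases hc : cen k ≤ a
    · rw [if_pos hc, sub_zero]
      refine dvd_sum fun i hi => hg i ?_
      rintro rfl
      exact (mem_filter.1 hi).2 hc
    · rw [if_neg hc]
      have hm : k ∈ univ.filter (fun i => ¬ cen i ≤ a) := mem_filter.2 ⟨mem_univ k, hc⟩
      rw [← add_sum_erase _ _ hm, add_sub_cancel_left]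
      exact dvd_sum fun i hi => hg i (ne_of_mem_erase hi)
  obtain ⟨S, hS⟩ : (g : ℤ) ∣ ∑ i, ((m i : ℤ) - 1) * cen i - ((m k : ℤ) - 1) * cen k := by
    rw [← add_sum_erase _ _ hk, add_sub_cancel_left]
    exact dvd_sum fun i hi => Dvd.dvd.mul_right (hg i (ne_of_mem_erase hi)) _
  have h4 : (p : ℤ) = ((∑ i, m i : ℕ) : ℤ) + t := by
    exact_mod_cast h2
  have hS' : ∑ i, ((m i : ℤ) - 1) * cen i = ((m k : ℤ) - 1) * cen k + g * S := by linarith
  rw [hS', h4] at h1
  generalize ((∑ i, m i : ℕ) : ℤ) = q at h1 hQ
  generalize (m k : ℤ) - 1 = n at h1 hQ hA ⊢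
  have hq : q = t + n + g * Q := by linarith
  rw [hq] at h1
  unfold pos
  by_cases hc : cen k ≤ a
  · rw [if_pos hc] at hA ⊢
    have ha : (a : ℤ) = t + g * A := by linarith
    refine ⟨Q * (s - t - 1) + A * (t + n) - S, ?_⟩
    linear_combination h1 + 2 * ((t : ℤ) + n) * ha
  · rw [if_neg hc] at hA ⊢
    have ha : (a : ℤ) = t + n + g * A := by linarith
    have hca : a ≤ cen k := by omega
    rw [Nat.cast_sub hca]
    refine ⟨Q * (s - t - 1) + A * t - S, ?_⟩
    linear_combination h1 + 2 * (t : ℤ) * ha

end Lab

end Pool.Agent.StarF
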