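import Mathlib

/-!
# Special super edge-magic star forests: definitions (MP_fb2988_co)
-/

set_option autoImplicit false

namespace Pool.Agent.StarF

/-- The star forest with components `K_{1, m i}`, `i : Fin t`.  The vertex `(i, none)` is the centre
of the `i`-th star, the vertices `(i, some k)` are its leaves. -/
def starForest {t : ℕ} (m : Fin t → ℕ) : SimpleGraph (Σ i : Fin t, Option (Fin (m i))) where
  Adj u v := u.1 = v.1 ∧ (u.2 = none ↔ v.2 ≠ none)
  symm := ⟨fun u v h => ⟨h.1.symm, by have := h.2; tauto⟩⟩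
  loopless := ⟨fun u h => by have := h.2; tauto⟩

/-- `G` is special super edge-magic: `A` and its complement are stable, `f` is a bijection from the
vertices to `{1, .., p}` which maps `A` to `{1, .., |A|}`, and the edge sums form a set of `q`
consecutive integers, `q` the number of edges. -/
def IsSSEM {V : Type} [Fintype V] (G : SimpleGraph V) : Prop :=
  ∃ (A : Set V) (f : V → ℕ), (∀ u v, G.Adj u v → (u ∈ A ↔ v ∉ A)) ∧
    Set.BijOn f Set.univ (Set.Icc 1 (Fintype.card V)) ∧ f '' A = Set.Icc 1 A.ncard ∧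
    ∃ s : ℕ, {x : ℕ | ∃ u v, G.Adj u v ∧ x = f u + f v} = Set.Ico s (s + G.edgeSet.ncard)

/-- Labelings of a star forest in terms of the labels: `own n` is the star of the vertex with label
`n`, `cen i` the label of the centre of the star `i`. -/
structure Lab {t : ℕ} (m : Fin t → ℕ) (p a s : ℕ) (own : ℕ → Fin t) (cen : Fin t → ℕ) : Prop where
  hp : p = ∑ i, (m i + 1)
  ha : a ≤ p
  cen1 : ∀ i, 1 ≤ cen i
  cenp : ∀ i, cen i ≤ p
  own_cen : ∀ i, own (cen i) = i
  card : ∀ i, ((Finset.Icc 1 p).filter fun n => own n = i).card = m i + 1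
  side : ∀ n, 1 ≤ n → n ≤ p → n ≠ cen (own n) → (n ≤ a ↔ ¬ cen (own n) ≤ a)
  sums : (((Finset.Icc 1 p).filter fun n => n ≠ cen (own n)).image fun n => n + cen (own n)) =
    Finset.Ico s (s + ∑ i, m i)

end Pool.Agent.StarF
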