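import Pool.Agent.StarF.Gcd

/-!
# Star forests: the divisibility condition (MP_fb2988_co)
-/

set_option autoImplicit false

open Finset

namespace Pool.Agent.StarF

variable {t : ℕ} {m : Fin t → ℕ} {p a s : ℕ} {own : ℕ → Fin t} {cen : Fin t → ℕ}

namespace Lab

/-- if `g` divides all `m i - 1`, then `2 g` divides `t (t + 3 - 2 (s - a))` -/
theorem dvd_total (L : Lab m p a s own cen) {g : ℕ} (hg : ∀ i, (g : ℤ) ∣ (m i : ℤ) - 1) :
    (2 * (g : ℤ)) ∣ (t : ℤ) * (t + 3 - 2 * ((s : ℤ) - a)) := by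
  have h1 := L.total
  have h2 := L.p_eq
  have h3 := L.a_eq
  -- `q`
  obtain ⟨Q, hQ⟩ : (g : ℤ) ∣ ((∑ i, m i : ℕ) : ℤ) - t := by
    have : ((∑ i, m i : ℕ) : ℤ) - t = ∑ i, ((m i : ℤ) - 1) := by
      rw [sum_sub_distrib, Nat.cast_sum]
      simp
    rw [this]
    exact dvd_sum fun i _ => hg i
  obtain ⟨A, hA⟩ : (g : ℤ) ∣ (a : ℤ) - t := by
    have e1 : ((univ.filter fun i => cen i ≤ a).card : ℤ) +
        ((univ.filter fun i => ¬ cen i ≤ a).card : ℤ) = t := by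
      have := card_filter_add_card_filter_not (s := (univ : Finset (Fin t))) (fun i => cen i ≤ a)
      rw [card_univ, Fintype.card_fin] at this
      exact_mod_cast this
    have e2 : (a : ℤ) - t = ∑ i ∈ univ.filter (fun i => ¬ cen i ≤ a), ((m i : ℤ) - 1) := by
      rw [sum_sub_distrib, sum_const, nsmul_eq_mul, mul_one]
      have e3 : (a : ℤ) = ((univ.filter fun i => cen i ≤ a).card : ℤ) +
          ∑ i ∈ univ.filter (fun i => ¬ cen i ≤ a), (m i : ℤ) := by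
        exact_mod_cast h3
      linarith
    rw [e2]
    exact dvd_sum fun i _ => hg i
  obtain ⟨S, hS⟩ : (g : ℤ) ∣ ∑ i, ((m i : ℤ) - 1) * cen i :=
    dvd_sum fun i _ => Dvd.dvd.mul_right (hg i) _
  have h4 : (p : ℤ) = ((∑ i, m i : ℕ) : ℤ) + t := by
    exact_mod_cast h2
  rw [hS, h4] at h1
  generalize ((∑ i, m i : ℕ) : ℤ) = q at h1 hQ
  have hq : q = t + g * Q := by linarith
  have ha : (a : ℤ) = t + g * A := by linarith
  rw [hq] at h1
  rw [ha]
  refine ⟨A * t - Q * (t + 1 - s) - S, ?_⟩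
  linear_combination h1

/-- the divisibility condition for an even number of stars -/
theorem even_dvd (L : Lab m p a s own cen) (hm : ∀ i, 1 ≤ m i) {h : ℕ} (ht : t = 2 * h) (hh : 1 ≤ h)
    {g : ℕ} (hg : ∀ i, (g : ℤ) ∣ (m i : ℤ) - 1) :
    ∃ w : ℤ, Odd w ∧ |w| ≤ (t : ℤ) - 3 ∧ (g : ℤ) ∣ h * w := by
  have h1 := L.dvd_total hg
  have h2 := L.lower hm (by omega)
  have h3 := L.upper hm (by omega)
  refine ⟨(t : ℤ) + 3 - 2 * ((s : ℤ) - a), ?_, ?_, ?_⟩
  · rw [Int.odd_iff]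
    omega
  · rw [abs_le]
    omega
  · obtain ⟨c, hc⟩ := h1
    refine ⟨c, ?_⟩
    have h4 : (t : ℤ) = 2 * h := by exact_mod_cast ht
    rw [h4] at hc ⊢
    linarith

end Lab

end Pool.Agent.StarF
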