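import Pool.Agent.StarF.Bas
import Pool.Agent.StarF.Ext

/-!
# Star forests: from `Lab` to a labeling (MP_fb2988_co)
-/

set_option autoImplicit false

open Finset

namespace Pool.Agent.StarF

variable {t : ℕ} {m : Fin t → ℕ} {p a s : ℕ} {own : ℕ → Fin t} {cen : Fin t → ℕ}

/-- the vertex labeling given by `own`, `cen` -/
def lf (p : ℕ) (own : ℕ → Fin t) (cen : Fin t → ℕ) (m : Fin t → ℕ)
    (h : ∀ i, (lv p own cen i).card = m i) (v : Σ i : Fin t, Option (Fin (m i))) : ℕ :=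
  v.2.elim (cen v.1) fun k => (lv p own cen v.1).orderEmbOfFin (h v.1) k

namespace Lab

theorem toSSEM (L : Lab m p a s own cen) : IsSSEM (starForest m) := by
  have hc := L.lv_card
  have hp : Fintype.card (Σ i : Fin t, Option (Fin (m i))) = p := by
    rw [card_vert, L.hp]
  have hnone : ∀ i, lf p own cen m hc ⟨i, none⟩ = cen i := fun i => rfl
  have hsome : ∀ i k, lf p own cen m hc ⟨i, some k⟩ ∈ lv p own cen i := fun i k =>
    orderEmbOfFin_mem (lv p own cen i) (hc i) k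
  have hown : ∀ v, own (lf p own cen m hc v) = v.1 := by
    rintro ⟨i, o⟩
    cases o with
    | none => exact L.own_cen i
    | some k => exact ((L.mem_lv i _).1 (hsome i k)).2.2
  have hrange : ∀ v, 1 ≤ lf p own cen m hc v ∧ lf p own cen m hc v ≤ p := by
    rintro ⟨i, o⟩
    cases o with
    | none => exact ⟨L.cen1 i, L.cenp i⟩
    | some k => exact ((L.mem_lv i _).1 (hsome i k)).1
  have hinj : Function.Injective (lf p own cen m hc) := by
    rintro ⟨i, o⟩ ⟨j, o'⟩ h
    have h1 : i = j := by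
      have h2 := hown ⟨i, o⟩
      rw [h, hown] at h2
      exact h2.symm
    subst h1
    cases o with
    | none =>
      cases o' with
      | none => rfl
      | some k =>
        exfalso
        have h2 := (L.mem_lv i _).1 (hsome i k)
        apply h2.2.1
        rw [h2.2.2, ← h, hnone]
    | some k =>
      cases o' with
      | none =>
        exfalso
        have h2 := (L.mem_lv i _).1 (hsome i k)
        apply h2.2.1
        rw [h2.2.2, h, hnone]
      | some l =>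
        have h2 : k = l := (orderEmbOfFin (lv p own cen i) (hc i)).injective h
        rw [h2]
  have hsurjL : ∀ i, ∀ n ∈ lv p own cen i, ∃ k, lf p own cen m hc ⟨i, some k⟩ = n := by
    intro i n hn
    have h1 : n ∈ Set.range (orderEmbOfFin (lv p own cen i) (hc i)) := by
      rw [range_orderEmbOfFin]
      exact hn
    exact h1
  have hsurj : ∀ n, 1 ≤ n → n ≤ p → ∃ v, lf p own cen m hc v = n := by
    intro n h1 h2
    by_cases h3 : n = cen (own n)
    · exact ⟨⟨own n, none⟩, h3.symm⟩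
    · obtain ⟨k, hk⟩ := hsurjL (own n) n ((L.mem_lv _ _).2 ⟨⟨h1, h2⟩, h3, rfl⟩)
      exact ⟨_, hk⟩
  have hA : lf p own cen m hc '' {v | lf p own cen m hc v ≤ a} = Set.Icc 1 a := by
    ext n
    rw [Set.mem_Icc]
    constructor
    · rintro ⟨v, hv, rfl⟩
      exact ⟨(hrange v).1, hv⟩
    · rintro ⟨h1, h2⟩
      obtain ⟨v, hv⟩ := hsurj n h1 (h2.trans L.ha)
      refine ⟨v, ?_, hv⟩
      show lf p own cen m hc v ≤ a
      rw [hv]
      exact h2
  have hAc : Set.ncard {v | lf p own cen m hc v ≤ a} = a := by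
    rw [← Set.ncard_image_of_injective _ hinj, hA, ← coe_Icc, Set.ncard_coe_finset, Nat.card_Icc]
    omega
  refine ⟨{v | lf p own cen m hc v ≤ a}, lf p own cen m hc, ?_, ?_, ?_, s, ?_⟩
  · have key : ∀ i (k : Fin (m i)), lf p own cen m hc ⟨i, none⟩ ≤ a ↔
        ¬ lf p own cen m hc ⟨i, some k⟩ ≤ a := by
      intro i k
      have h2 := (L.mem_lv i _).1 (hsome i k)
      have h3 := L.side _ h2.1.1 h2.1.2 h2.2.1
      rw [h2.2.2] at h3
      rw [hnone, h3, not_not]
    intro u v huv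
    obtain ⟨i, k, ⟨rfl, rfl⟩ | ⟨rfl, rfl⟩⟩ := (adj_iff m u v).1 huv
    · exact key i k
    · have := key i k
      show lf p own cen m hc ⟨i, some k⟩ ≤ a ↔ ¬ lf p own cen m hc ⟨i, none⟩ ≤ a
      tauto
  · rw [hp]
    refine ⟨fun v _ => Set.mem_Icc.2 (hrange v), fun u _ v _ h => hinj h, ?_⟩
    intro n hn
    rw [Set.mem_Icc] at hn
    obtain ⟨v, hv⟩ := hsurj n hn.1 hn.2
    exact ⟨v, Set.mem_univ v, hv⟩
  · rw [hAc, hA]
  · rw [edge_ncard]
    have h2 : (Set.Ico s (s + ∑ i, m i) : Set ℕ) = ((Ico s (s + ∑ i, m i) : Finset ℕ) : Set ℕ) := by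
      rw [coe_Ico]
    rw [h2, ← L.sums]
    ext x
    rw [Set.mem_ofPred_eq, mem_coe, mem_image]
    constructor
    · rintro ⟨u, v, huv, rfl⟩
      obtain ⟨i, k, ⟨rfl, rfl⟩ | ⟨rfl, rfl⟩⟩ := (adj_iff m u v).1 huv
      · have h3 := (L.mem_lv i _).1 (hsome i k)
        refine ⟨_, mem_filter.2 ⟨mem_Icc.2 h3.1, h3.2.1⟩, ?_⟩
        show _ + cen (own _) = _
        rw [h3.2.2, hnone, add_comm]
      · have h3 := (L.mem_lv i _).1 (hsome i k)
        refine ⟨_, mem_filter.2 ⟨mem_Icc.2 h3.1, h3.2.1⟩, ?_⟩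
        show _ + cen (own _) = _
        rw [h3.2.2, hnone]
    · rintro ⟨n, hn, rfl⟩
      rw [mem_filter, mem_Icc] at hn
      obtain ⟨k, hk⟩ := hsurjL (own n) n ((L.mem_lv _ _).2 ⟨hn.1, hn.2, rfl⟩)
      refine ⟨⟨own n, some k⟩, ⟨own n, none⟩,
        (adj_iff m _ _).2 ⟨own n, k, Or.inr ⟨rfl, rfl⟩⟩, ?_⟩
      rw [hk, hnone]

end Lab

end Pool.Agent.StarF
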