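import Pool.Agent.StarF.Build3
import Pool.Agent.StarF.Div

/-!
# Star forests: equal stars, four or six of them (MP_fb2988_co)
-/

set_option autoImplicit false

open Finset

namespace Pool.Agent.StarF

/-- a decidable form of the conditions, `f n` the star and `c i` the centres -/
theorem ssem_of_list {t p a s n : ℕ} (f : ℕ → Fin t) (c : Fin t → ℕ) (hp : p = t * (n + 1))
    (ha : a ≤ p) (h1 : ∀ i, 1 ≤ c i ∧ c i ≤ p ∧ f (c i) = i)
    (h2 : ∀ i, ((Icc 1 p).filter fun m => f m = i).card = n + 1)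
    (h3 : ∀ m ∈ Icc 1 p, m ≠ c (f m) → (m ≤ a ↔ ¬ c (f m) ≤ a))
    (h4 : Ico s (s + t * n) ⊆ ((Icc 1 p).filter fun m => m ≠ c (f m)).image fun m => m + c (f m)) :
    IsSSEM (starForest fun _ : Fin t => n) := by
  have L : Lab (fun _ : Fin t => n) p a s f c := by
    apply lab_of_cov
    · rw [hp]
      simp
    · exact ha
    · exact fun i => (h1 i).1
    · exact fun i => (h1 i).2.1
    · exact fun i => (h1 i).2.2
    · exact h2
    · intro m g1 g2 g3
      exact h3 m (mem_Icc.2 ⟨g1, g2⟩) g3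
    · intro x g1 g2
      have g3 : x ∈ Ico s (s + t * n) := by
        rw [mem_Ico]
        refine ⟨g1, ?_⟩
        simpa using g2
      have g4 := h4 g3
      rw [mem_image] at g4
      obtain ⟨m, g5, g6⟩ := g4
      rw [mem_filter, mem_Icc] at g5
      exact ⟨m, g5.1, g5.2, g6⟩
  exact L.toSSEM

/-- the stars of the labels -/
def l4_2 : List (Fin 4) := [0, 0, 1, 2, 3, 3, 2, 1, 2, 0, 1, 3, 0]

set_option maxRecDepth 20000 in
theorem eq4_2 : IsSSEM (starForest fun _ : Fin 4 => 2) :=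
  ssem_of_list (p := 12) (a := 6) (s := 9) (fun m => l4_2.getD m 0) ![1, 2, 8, 11] (by decide) (by decide)
    (by decide) (by decide) (by decide) (by decide)

/-- the stars of the labels -/
def l4_3 : List (Fin 4) := [0, 0, 2, 1, 3, 3, 3, 2, 2, 1, 0, 2, 1, 0, 1, 0, 3]

set_option maxRecDepth 20000 in
theorem eq4_3 : IsSSEM (starForest fun _ : Fin 4 => 3) :=
  ssem_of_list (p := 16) (a := 8) (s := 11) (fun m => l4_3.getD m 0) ![1, 3, 11, 16] (by decide) (by decide)
    (by decide) (by decide) (by decide) (by decide)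

/-- the stars of the labels -/
def l6_2 : List (Fin 6) := [0, 0, 1, 2, 5, 4, 5, 4, 3, 3, 2, 3, 2, 0, 1, 1, 4, 0, 5]

set_option maxRecDepth 20000 in
theorem eq6_2 : IsSSEM (starForest fun _ : Fin 6 => 2) :=
  ssem_of_list (p := 18) (a := 9) (s := 13) (fun m => l6_2.getD m 0) ![1, 2, 3, 11, 16, 18] (by decide) (by decide)
    (by decide) (by decide) (by decide) (by decide)

/-- the stars of the labels -/
def l6_4 : List (Fin 6) :=
  [0, 0, 1, 2, 5, 3, 5, 5, 4, 5, 3, 4, 3, 4, 4, 3, 2, 0, 3, 0, 0, 0, 1, 1, 1, 1, 2, 4, 2, 2, 5]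

set_option maxRecDepth 20000 in
theorem eq6_4 : IsSSEM (starForest fun _ : Fin 6 => 4) :=
  ssem_of_list (p := 30) (a := 15) (s := 18) (fun m => l6_4.getD m 0) ![1, 2, 3, 18, 27, 30] (by decide) (by decide)
    (by decide) (by decide) (by decide) (by decide)

/-- the stars of the labels -/
def l6_10 : List (Fin 6) :=
  [0, 0, 1, 2, 3, 5, 5, 5, 5, 5, 3, 5, 3, 5, 3, 3, 4, 5, 4, 5, 4, 3, 4, 3, 5, 4, 3, 4, 4, 4, 4,
    4, 3, 3, 2, 0, 2, 0, 2, 0, 2, 0, 2, 0, 2, 0, 2, 0, 2, 0, 1, 1, 1, 1, 1, 3, 0, 0, 1, 1, 1, 1,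
    1, 2, 4, 2, 5]

set_option maxRecDepth 20000 in
theorem eq6_10 : IsSSEM (starForest fun _ : Fin 6 => 10) :=
  ssem_of_list (p := 66) (a := 33) (s := 36) (fun m => l6_10.getD m 0) ![1, 2, 3, 55, 64, 66] (by decide) (by decide)
    (by decide) (by decide) (by decide) (by decide)

end Pool.Agent.StarF
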