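import Pool.Agent.StarF.Equal

/-!
# Star forests: 10 equal stars (MP_fb2988_co)
-/

set_option autoImplicit false

open Finset

namespace Pool.Agent.StarF

/-- the stars of the labels -/
def l10_2 : List (Fin 10) :=
  [0, 0, 1, 2, 3, 4, 9, 5, 9, 6, 8, 6, 8, 7, 5, 7, 5, 6, 2, 0, 7, 0, 1, 1, 2, 3, 4, 8, 3, 4, 9]

set_option maxRecDepth 20000 in
theorem eq10_2 : IsSSEM (starForest fun _ : Fin 10 => 2) :=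
  ssem_of_list (p := 30) (a := 15) (s := 20) (fun m => l10_2.getD m 0)
    ![1, 2, 3, 4, 5, 16, 17, 20, 27, 30] (by decide) (by decide) (by decide) (by decide) (by decide) (by decide)

/-- the stars of the labels -/
def l10_4 : List (Fin 10) :=
  [0, 0, 1, 2, 3, 4, 9, 9, 9, 6, 6, 9, 7, 8, 6, 8, 8, 8, 6, 7, 7, 7, 5, 5, 5, 5, 4, 4, 5, 0, 4,
    4, 0, 0, 3, 3, 0, 3, 1, 3, 1, 2, 2, 2, 2, 6, 1, 1, 7, 8, 9]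

set_option maxRecDepth 20000 in
theorem eq10_4 : IsSSEM (starForest fun _ : Fin 10 => 4) :=
  ssem_of_list (p := 50) (a := 25) (s := 30) (fun m => l10_4.getD m 0)
    ![1, 2, 3, 4, 5, 28, 45, 48, 49, 50] (by decide) (by decide) (by decide) (by decide) (by decide) (by decide)

/-- the stars of the labels -/
def l10_6 : List (Fin 10) :=
  [0, 0, 1, 2, 3, 4, 9, 9, 5, 9, 9, 9, 7, 8, 9, 5, 8, 6, 6, 8, 7, 7, 5, 8, 8, 5, 6, 8, 7, 7, 5,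
    7, 6, 6, 6, 5, 5, 0, 0, 0, 0, 0, 0, 1, 1, 1, 1, 1, 1, 2, 2, 2, 2, 2, 2, 3, 3, 6, 3, 3, 3, 3,
    4, 4, 4, 4, 7, 4, 4, 8, 9]

set_option maxRecDepth 20000 in
theorem eq10_6 : IsSSEM (starForest fun _ : Fin 10 => 6) :=
  ssem_of_list (p := 70) (a := 35) (s := 38) (fun m => l10_6.getD m 0)
    ![1, 2, 3, 4, 5, 36, 57, 66, 69, 70] (by decide) (by decide) (by decide) (by decide) (by decide) (by decide)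

/-- the stars of the labels -/
def l10_8 : List (Fin 10) :=
  [0, 0, 1, 2, 3, 4, 9, 5, 9, 9, 9, 9, 9, 9, 6, 9, 5, 8, 8, 8, 8, 6, 7, 7, 7, 5, 7, 7, 7, 7, 6,
    8, 8, 8, 5, 6, 6, 8, 5, 7, 6, 6, 6, 5, 5, 5, 4, 0, 0, 0, 5, 0, 0, 0, 0, 0, 1, 1, 1, 1, 1, 1,
    1, 1, 2, 2, 2, 2, 2, 2, 2, 2, 3, 3, 3, 3, 3, 3, 3, 3, 4, 4, 4, 6, 4, 4, 4, 4, 7, 8, 9]

set_option maxRecDepth 20000 in
theorem eq10_8 : IsSSEM (starForest fun _ : Fin 10 => 8) :=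
  ssem_of_list (p := 90) (a := 45) (s := 48) (fun m => l10_8.getD m 0)
    ![1, 2, 3, 4, 5, 50, 83, 88, 89, 90] (by decide) (by decide) (by decide) (by decide) (by decide) (by decide)

/-- the stars of the labels -/
def l10_16 : List (Fin 10) :=
  [0, 0, 9, 1, 2, 3, 4, 9, 9, 9, 9, 9, 9, 9, 9, 9, 9, 9, 9, 9, 5, 5, 9, 7, 9, 5, 5, 5, 5, 8, 8,
    8, 8, 8, 8, 8, 8, 8, 8, 8, 8, 8, 5, 8, 8, 5, 7, 5, 5, 5, 7, 7, 7, 7, 7, 7, 7, 7, 7, 7, 7, 7,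
    8, 5, 7, 6, 7, 5, 5, 5, 6, 6, 6, 6, 6, 6, 6, 6, 6, 6, 6, 6, 6, 6, 6, 5, 4, 4, 4, 0, 0, 4, 4,
    4, 0, 0, 4, 4, 4, 0, 0, 4, 4, 4, 0, 0, 4, 4, 4, 0, 0, 4, 2, 3, 0, 3, 3, 3, 0, 3, 3, 3, 0, 3,
    3, 3, 0, 3, 3, 3, 0, 3, 3, 3, 0, 2, 2, 2, 2, 2, 2, 2, 2, 2, 2, 2, 2, 2, 5, 1, 1, 1, 1, 1, 1,
    1, 1, 1, 1, 1, 1, 1, 1, 1, 1, 6, 2, 2, 7, 8, 9]

set_option maxRecDepth 20000 in
theorem eq10_16 : IsSSEM (starForest fun _ : Fin 10 => 16) :=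
  ssem_of_list (p := 170) (a := 85) (s := 90) (fun m => l10_16.getD m 0)
    ![1, 3, 4, 5, 6, 148, 165, 168, 169, 170] (by decide) (by decide) (by decide) (by decide) (by decide) (by decide)

/-- the stars of the labels -/
def l10_26 : List (Fin 10) :=
  [0, 0, 1, 2, 3, 4, 5, 9, 9, 9, 9, 9, 9, 9, 9, 9, 9, 9, 9, 9, 9, 9, 9, 9, 9, 5, 9, 5, 9, 9, 5,
    5, 5, 5, 5, 9, 9, 9, 9, 6, 9, 7, 8, 8, 8, 8, 8, 8, 8, 8, 8, 8, 8, 5, 8, 5, 8, 8, 5, 5, 5, 5,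
    8, 8, 8, 6, 8, 8, 8, 6, 8, 8, 8, 6, 8, 8, 8, 6, 7, 7, 5, 7, 5, 7, 7, 5, 5, 5, 7, 7, 7, 7, 7,
    7, 7, 7, 7, 7, 7, 7, 7, 7, 7, 7, 7, 7, 5, 7, 5, 6, 7, 5, 5, 5, 6, 6, 6, 6, 6, 6, 6, 6, 6, 6,
    6, 6, 6, 6, 6, 6, 6, 6, 6, 6, 5, 5, 4, 4, 0, 0, 4, 4, 0, 0, 4, 4, 0, 0, 4, 4, 0, 0, 4, 4, 0,
    0, 4, 4, 0, 0, 4, 4, 0, 0, 4, 4, 0, 0, 4, 4, 0, 0, 4, 4, 0, 0, 4, 4, 0, 0, 4, 4, 0, 0, 4, 4,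
    0, 0, 3, 1, 3, 1, 3, 1, 3, 1, 3, 1, 3, 1, 3, 1, 3, 1, 3, 1, 3, 1, 3, 1, 3, 1, 3, 1, 3, 1, 3,
    1, 3, 1, 3, 1, 3, 1, 3, 1, 3, 1, 3, 1, 3, 1, 3, 1, 2, 2, 2, 2, 2, 2, 2, 2, 5, 1, 1, 1, 2, 2,
    2, 2, 2, 2, 2, 2, 2, 2, 2, 2, 2, 2, 2, 2, 2, 2, 3, 6, 3, 3, 7, 8, 9]

set_option maxRecDepth 20000 in
theorem eq10_26 : IsSSEM (starForest fun _ : Fin 10 => 26) :=
  ssem_of_list (p := 270) (a := 135) (s := 139) (fun m => l10_26.getD m 0)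
    ![1, 2, 3, 4, 5, 242, 265, 268, 269, 270] (by decide) (by decide) (by decide) (by decide) (by decide) (by decide)

/-- the stars of the labels -/
def l10_36 : List (Fin 10) :=
  [0, 0, 1, 2, 3, 9, 9, 9, 9, 9, 9, 9, 9, 9, 9, 9, 9, 9, 9, 9, 9, 9, 9, 9, 9, 9, 9, 9, 9, 9, 9,
    9, 9, 9, 9, 3, 3, 9, 9, 3, 3, 3, 3, 3, 3, 9, 9, 9, 5, 9, 7, 8, 8, 8, 8, 8, 8, 8, 8, 8, 8, 8,
    8, 8, 8, 8, 8, 8, 8, 8, 8, 8, 8, 8, 8, 3, 3, 8, 8, 3, 3, 3, 3, 3, 8, 8, 8, 8, 8, 4, 8, 8, 8,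
    8, 8, 4, 7, 7, 7, 7, 7, 7, 7, 7, 7, 7, 7, 7, 7, 7, 7, 7, 7, 7, 3, 3, 7, 7, 3, 3, 3, 3, 7, 7,
    7, 7, 4, 7, 7, 7, 7, 4, 7, 7, 7, 7, 4, 7, 5, 7, 5, 7, 5, 6, 6, 6, 6, 6, 6, 6, 6, 6, 3, 3, 6,
    6, 3, 3, 3, 6, 6, 6, 4, 6, 6, 6, 4, 6, 6, 6, 4, 6, 6, 6, 4, 6, 6, 6, 4, 6, 6, 6, 4, 6, 6, 6,
    6, 6, 6, 3, 3, 5, 6, 3, 3, 5, 5, 5, 5, 5, 5, 5, 5, 5, 5, 5, 5, 5, 5, 5, 5, 5, 5, 5, 5, 5, 5,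
    5, 5, 3, 5, 5, 5, 5, 5, 5, 3, 5, 3, 4, 3, 4, 4, 4, 4, 4, 4, 4, 4, 4, 4, 4, 4, 4, 4, 4, 4, 4,
    4, 4, 4, 4, 4, 4, 4, 3, 2, 0, 2, 0, 2, 0, 2, 0, 2, 0, 2, 0, 2, 0, 2, 0, 2, 0, 2, 0, 2, 0, 2,
    0, 2, 0, 2, 0, 2, 0, 2, 0, 2, 0, 2, 0, 2, 0, 2, 0, 2, 0, 2, 0, 2, 0, 2, 0, 2, 0, 2, 0, 2, 0,
    2, 0, 2, 0, 2, 0, 2, 0, 2, 0, 2, 0, 2, 0, 1, 1, 1, 1, 1, 1, 3, 0, 0, 1, 1, 1, 1, 1, 1, 1, 1,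
    1, 1, 1, 1, 1, 1, 1, 1, 1, 1, 1, 1, 1, 1, 1, 1, 1, 1, 1, 1, 1, 1, 4, 2, 2, 5, 6, 7, 8, 9]

set_option maxRecDepth 20000 in
theorem eq10_36 : IsSSEM (starForest fun _ : Fin 10 => 36) :=
  ssem_of_list (p := 370) (a := 255) (s := 258) (fun m => l10_36.getD m 0)
    ![1, 2, 3, 330, 363, 366, 367, 368, 369, 370] (by decide) (by decide) (by decide) (by decide) (by decide) (by decide)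

end Pool.Agent.StarF
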