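import Pool.Agent.StarF.Equal

/-!
# Star forests: 8 equal stars (MP_fb2988_co)
-/

set_option autoImplicit false

open Finset

namespace Pool.Agent.StarF

/-- the stars of the labels -/
def l8_2 : List (Fin 8) :=
  [0, 0, 1, 2, 3, 4, 4, 5, 7, 7, 6, 5, 6, 4, 5, 0, 0, 6, 1, 3, 1, 2, 7, 2, 3]

set_option maxRecDepth 20000 in
theorem eq8_2 : IsSSEM (starForest fun _ : Fin 8 => 2) :=
  ssem_of_list (p := 24) (a := 12) (s := 16) (fun m => l8_2.getD m 0)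
    ![1, 2, 3, 4, 13, 14, 17, 22] (by decide) (by decide) (by decide) (by decide) (by decide) (by decide)

/-- the stars of the labels -/
def l8_3 : List (Fin 8) :=
  [0, 0, 1, 2, 3, 4, 4, 5, 6, 4, 7, 7, 7, 5, 6, 6, 5, 4, 0, 0, 0, 5, 1, 1, 6, 1, 2, 2, 2, 3, 7,
    3, 3]

set_option maxRecDepth 20000 in
theorem eq8_3 : IsSSEM (starForest fun _ : Fin 8 => 3) :=
  ssem_of_list (p := 32) (a := 16) (s := 19) (fun m => l8_3.getD m 0)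
    ![1, 2, 3, 4, 17, 21, 24, 30] (by decide) (by decide) (by decide) (by decide) (by decide) (by decide)

/-- the stars of the labels -/
def l8_4 : List (Fin 8) :=
  [0, 0, 1, 2, 3, 7, 7, 7, 5, 6, 6, 7, 4, 6, 5, 6, 4, 5, 4, 5, 4, 3, 1, 4, 3, 0, 0, 3, 0, 0, 1,
    1, 1, 2, 2, 2, 5, 2, 3, 6, 7]

set_option maxRecDepth 20000 in
theorem eq8_4 : IsSSEM (starForest fun _ : Fin 8 => 4) :=
  ssem_of_list (p := 40) (a := 20) (s := 24) (fun m => l8_4.getD m 0)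
    ![1, 2, 3, 4, 23, 36, 39, 40] (by decide) (by decide) (by decide) (by decide) (by decide) (by decide)

/-- the stars of the labels -/
def l8_5 : List (Fin 8) :=
  [0, 0, 1, 2, 3, 7, 7, 4, 7, 5, 7, 7, 5, 4, 5, 6, 6, 6, 6, 4, 6, 5, 4, 5, 4, 4, 0, 0, 0, 0, 0,
    1, 1, 1, 1, 1, 2, 2, 2, 2, 2, 3, 3, 5, 3, 6, 3, 3, 7]

set_option maxRecDepth 20000 in
theorem eq8_5 : IsSSEM (starForest fun _ : Fin 8 => 5) :=
  ssem_of_list (p := 48) (a := 24) (s := 27) (fun m => l8_5.getD m 0)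
    ![1, 2, 3, 4, 25, 43, 45, 48] (by decide) (by decide) (by decide) (by decide) (by decide) (by decide)

/-- the stars of the labels -/
def l8_6 : List (Fin 8) :=
  [0, 0, 1, 2, 3, 7, 4, 7, 7, 7, 7, 5, 6, 4, 6, 6, 6, 5, 6, 6, 4, 5, 7, 4, 5, 5, 5, 4, 4, 3, 0,
    0, 4, 0, 0, 0, 0, 1, 1, 1, 1, 1, 1, 2, 2, 2, 2, 2, 2, 3, 3, 5, 3, 3, 3, 6, 7]

set_option maxRecDepth 20000 in
theorem eq8_6 : IsSSEM (starForest fun _ : Fin 8 => 6) :=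
  ssem_of_list (p := 56) (a := 28) (s := 31) (fun m => l8_6.getD m 0)
    ![1, 2, 3, 4, 32, 51, 55, 56] (by decide) (by decide) (by decide) (by decide) (by decide) (by decide)

/-- the stars of the labels -/
def l8_7 : List (Fin 8) :=
  [0, 0, 1, 2, 3, 7, 7, 7, 5, 7, 7, 7, 5, 6, 7, 4, 4, 4, 4, 6, 5, 6, 6, 5, 6, 6, 5, 6, 4, 5, 4,
    5, 4, 3, 3, 0, 3, 3, 0, 3, 3, 0, 3, 1, 2, 2, 2, 2, 2, 4, 2, 0, 2, 0, 1, 1, 1, 1, 1, 1, 5, 0,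
    0, 6, 7]

set_option maxRecDepth 20000 in
theorem eq8_7 : IsSSEM (starForest fun _ : Fin 8 => 7) :=
  ssem_of_list (p := 64) (a := 32) (s := 36) (fun m => l8_7.getD m 0)
    ![1, 2, 3, 4, 49, 60, 63, 64] (by decide) (by decide) (by decide) (by decide) (by decide) (by decide)

/-- the stars of the labels -/
def l8_11 : List (Fin 8) :=
  [0, 0, 1, 2, 3, 4, 4, 7, 7, 5, 7, 7, 5, 7, 7, 5, 4, 7, 7, 5, 7, 6, 7, 6, 4, 4, 7, 4, 4, 6, 6,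
    6, 6, 6, 6, 6, 6, 6, 4, 5, 5, 5, 5, 5, 5, 5, 4, 4, 4, 3, 0, 0, 3, 0, 0, 3, 0, 0, 2, 0, 2, 0,
    1, 1, 1, 1, 1, 1, 1, 1, 1, 1, 1, 4, 0, 0, 0, 2, 2, 2, 2, 2, 2, 2, 2, 2, 3, 3, 3, 3, 3, 3, 3,
    5, 6, 3, 7]

set_option maxRecDepth 20000 in
theorem eq8_11 : IsSSEM (starForest fun _ : Fin 8 => 11) :=
  ssem_of_list (p := 96) (a := 48) (s := 51) (fun m => l8_11.getD m 0)
    ![1, 2, 3, 4, 73, 93, 94, 96] (by decide) (by decide) (by decide) (by decide) (by decide) (by decide)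

/-- the stars of the labels -/
def l8_13 : List (Fin 8) :=
  [0, 0, 1, 2, 7, 3, 7, 7, 7, 7, 7, 7, 7, 7, 7, 4, 7, 4, 4, 4, 7, 4, 6, 6, 6, 6, 6, 6, 6, 6, 7,
    4, 6, 4, 4, 4, 5, 5, 5, 5, 5, 5, 6, 6, 6, 4, 6, 5, 4, 5, 5, 5, 5, 5, 5, 4, 4, 3, 3, 0, 0, 3,
    3, 0, 0, 3, 3, 0, 0, 3, 3, 0, 0, 3, 3, 0, 0, 3, 3, 0, 0, 3, 2, 0, 2, 2, 2, 2, 2, 2, 2, 2, 2,
    2, 2, 2, 4, 1, 1, 1, 1, 1, 1, 1, 1, 1, 1, 1, 1, 5, 1, 6, 7]

set_option maxRecDepth 20000 in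
theorem eq8_13 : IsSSEM (starForest fun _ : Fin 8 => 13) :=
  ssem_of_list (p := 112) (a := 56) (s := 60) (fun m => l8_13.getD m 0)
    ![1, 2, 3, 5, 96, 109, 111, 112] (by decide) (by decide) (by decide) (by decide) (by decide) (by decide)

/-- the stars of the labels -/
def l8_21 : List (Fin 8) :=
  [0, 0, 1, 2, 4, 4, 7, 4, 4, 4, 4, 3, 4, 4, 4, 7, 7, 7, 7, 4, 7, 7, 7, 7, 5, 7, 7, 7, 7, 5, 7,
    7, 7, 7, 7, 7, 7, 7, 4, 4, 4, 4, 4, 6, 6, 6, 6, 6, 6, 6, 6, 6, 6, 6, 6, 6, 6, 4, 6, 6, 6, 5,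
    6, 6, 6, 6, 4, 4, 4, 4, 5, 5, 5, 5, 5, 5, 5, 5, 5, 5, 5, 5, 5, 5, 5, 5, 5, 5, 4, 2, 0, 2, 0,
    2, 0, 2, 0, 2, 0, 2, 0, 2, 0, 2, 0, 2, 0, 2, 0, 2, 0, 2, 0, 2, 0, 2, 0, 2, 0, 2, 0, 2, 0, 2,
    0, 2, 0, 1, 1, 1, 1, 1, 1, 1, 1, 1, 1, 1, 1, 1, 1, 1, 1, 1, 1, 1, 1, 1, 4, 0, 0, 2, 3, 3, 3,
    3, 2, 3, 3, 3, 3, 3, 3, 3, 3, 3, 3, 3, 3, 3, 3, 5, 3, 3, 3, 6, 7]

set_option maxRecDepth 20000 in
theorem eq8_21 : IsSSEM (starForest fun _ : Fin 8 => 21) :=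
  ssem_of_list (p := 176) (a := 88) (s := 91) (fun m => l8_21.getD m 0)
    ![1, 2, 3, 11, 148, 171, 175, 176] (by decide) (by decide) (by decide) (by decide) (by decide) (by decide)

end Pool.Agent.StarF
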