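import Pool.Agent.StarF.Small
import Pool.Agent.StarF.Equal8
import Pool.Agent.StarF.Equal10

/-!
# Star forests: at most ten equal stars, an even number of them (MP_fb2988_co)
-/

set_option autoImplicit false

open Finset

namespace Pool.Agent.StarF

/-- the condition for `2 h` stars `K_{1,n}` -/
def EqCond (h n : ℕ) : Prop := ∃ w : ℤ, Odd w ∧ |w| ≤ 2 * (h : ℤ) - 3 ∧ (n : ℤ) - 1 ∣ h * w

theorem eqCond_one (n : ℕ) : ¬ EqCond 1 n := by
  rintro ⟨w, _, h2, _⟩
  have := abs_nonneg w
  push_cast at h2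
  omega

theorem eqCond_two (n : ℕ) (hn : 1 ≤ n) (h : EqCond 2 n) : n = 2 ∨ n = 3 := by
  obtain ⟨w, h1, h2, h3⟩ := h
  obtain ⟨k, hk⟩ := h1
  rw [abs_le] at h2
  push_cast at h2 h3
  have h4 : w = 1 ∨ w = -1 := by omega
  have h5 : (n : ℤ) - 1 ∣ 2 := by
    rcases h4 with h4 | h4
    · rw [h4] at h3
      exact h3
    · rw [h4] at h3
      have h6 : (n : ℤ) - 1 ∣ -(2 * -1) := (dvd_neg (α := ℤ)).2 h3
      norm_num at h6
      exact h6
  have h6 := Int.le_of_dvd (by norm_num) h5
  have h7 : n ≤ 3 := by omega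
  interval_cases n
  · norm_num at h5
  · left
    rfl
  · right
    rfl

theorem eqCond_three (n : ℕ) (hn : 1 ≤ n) (h : EqCond 3 n) : n = 2 ∨ n = 4 ∨ n = 10 := by
  obtain ⟨w, h1, h2, h3⟩ := h
  obtain ⟨k, hk⟩ := h1
  rw [abs_le] at h2
  push_cast at h2 h3
  have h4 : w = 1 ∨ w = -1 ∨ w = 3 ∨ w = -3 := by omega
  have h5 : (n : ℤ) - 1 ∣ 9 := by
    rcases h4 with h4 | h4 | h4 | h4
    all_goals
      rw [h4] at h3
      exact h3.trans (by norm_num)
  have h6 := Int.le_of_dvd (by norm_num) h5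
  have h7 : n ≤ 10 := by omega
  interval_cases n <;> first
    | (exfalso; norm_num at h5; done)
    | (exfalso; revert h5; decide)
    | simp

theorem eqCond_four (n : ℕ) (hn : 1 ≤ n) (h : EqCond 4 n) :
    n = 2 ∨ n = 3 ∨ n = 4 ∨ n = 5 ∨ n = 6 ∨ n = 7 ∨ n = 11 ∨ n = 13 ∨ n = 21 := by
  obtain ⟨w, h1, h2, h3⟩ := h
  obtain ⟨k, hk⟩ := h1
  rw [abs_le] at h2
  push_cast at h2 h3
  have h4 : w = 1 ∨ w = -1 ∨ w = 3 ∨ w = -3 ∨ w = 5 ∨ w = -5 := by omega
  have h5 : (n : ℤ) - 1 ∣ 12 ∨ (n : ℤ) - 1 ∣ 20 := by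
    rcases h4 with h4 | h4 | h4 | h4 | h4 | h4 <;> rw [h4] at h3
    · left
      exact h3.trans (by norm_num)
    · left
      exact h3.trans (by norm_num)
    · left
      exact h3.trans (by norm_num)
    · left
      exact h3.trans (by norm_num)
    · right
      exact h3.trans (by norm_num)
    · right
      exact h3.trans (by norm_num)
  have h6 : (n : ℤ) - 1 ≤ 20 := by
    rcases h5 with h5 | h5
    · have := Int.le_of_dvd (by norm_num) h5
      omega
    · exact Int.le_of_dvd (by norm_num) h5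
  have h7 : n ≤ 21 := by omega
  interval_cases n <;> first
    | (exfalso; revert h5; norm_num; done)
    | (exfalso; revert h5; decide)
    | simp

theorem eqCond_five (n : ℕ) (hn : 1 ≤ n) (h : EqCond 5 n) :
    n = 2 ∨ n = 4 ∨ n = 6 ∨ n = 8 ∨ n = 16 ∨ n = 26 ∨ n = 36 := by
  obtain ⟨w, h1, h2, h3⟩ := h
  obtain ⟨k, hk⟩ := h1
  rw [abs_le] at h2
  push_cast at h2 h3
  have h4 : w = 1 ∨ w = -1 ∨ w = 3 ∨ w = -3 ∨ w = 5 ∨ w = -5 ∨ w = 7 ∨ w = -7 := by omega
  have h5 : (n : ℤ) - 1 ∣ 15 ∨ (n : ℤ) - 1 ∣ 25 ∨ (n : ℤ) - 1 ∣ 35 := by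
    rcases h4 with h4 | h4 | h4 | h4 | h4 | h4 | h4 | h4 <;> rw [h4] at h3
    · left
      exact h3.trans (by norm_num)
    · left
      exact h3.trans (by norm_num)
    · left
      exact h3.trans (by norm_num)
    · left
      exact h3.trans (by norm_num)
    · right; left
      exact h3.trans (by norm_num)
    · right; left
      exact h3.trans (by norm_num)
    · right; right
      exact h3.trans (by norm_num)
    · right; right
      exact h3.trans (by norm_num)
  have h6 : (n : ℤ) - 1 ≤ 35 := by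
    rcases h5 with h5 | h5 | h5
    · have := Int.le_of_dvd (by norm_num) h5
      omega
    · have := Int.le_of_dvd (by norm_num) h5
      omega
    · exact Int.le_of_dvd (by norm_num) h5
  have h7 : n ≤ 36 := by omega
  interval_cases n <;> first
    | (exfalso; revert h5; norm_num; done)
    | (exfalso; revert h5; decide)
    | simp

/-- the necessary condition is sufficient for at most ten equal stars -/
theorem equal_ten (h n : ℕ) (hh : 1 ≤ h) (hn : 1 ≤ n) (h5 : h ≤ 5) :
    IsSSEM (starForest fun _ : Fin (2 * h) => n) ↔ EqCond h n := by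
  constructor
  · exact fun hS => equal_even h hh n hn hS
  · intro hc
    have h6 : h = 1 ∨ h = 2 ∨ h = 3 ∨ h = 4 ∨ h = 5 := by omega
    rcases h6 with rfl | rfl | rfl | rfl | rfl
    · exact absurd hc (eqCond_one n)
    · rcases eqCond_two n hn hc with rfl | rfl
      · exact eq4_2
      · exact eq4_3
    · rcases eqCond_three n hn hc with rfl | rfl | rfl
      · exact eq6_2
      · exact eq6_4
      · exact eq6_10
    · rcases eqCond_four n hn hc with rfl | rfl | rfl | rfl | rfl | rfl | rfl | rfl | rfl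
      · exact eq8_2
      · exact eq8_3
      · exact eq8_4
      · exact eq8_5
      · exact eq8_6
      · exact eq8_7
      · exact eq8_11
      · exact eq8_13
      · exact eq8_21
    · rcases eqCond_five n hn hc with rfl | rfl | rfl | rfl | rfl | rfl | rfl
      · exact eq10_2
      · exact eq10_4
      · exact eq10_6
      · exact eq10_8
      · exact eq10_16
      · exact eq10_26
      · exact eq10_36

end Pool.Agent.StarF
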