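import Pool.Agent.StarF.Build3

/-!
# Star forests: the families with three stars (MP_fb2988_co)
-/

set_option autoImplicit false

open Finset

namespace Pool.Agent.StarF

/-- `K_{1,2} ∪ K_{1,x} ∪ K_{1,y}` -/
theorem fam3 {x y : ℕ} (hx : 1 ≤ x) (hy : 1 ≤ y) : IsSSEM (starForest ![2, x, y]) := by
  apply mk3 (p := x + y + 5) (a := 4) (s := 7) (fun n => n = 1 ∨ n = 4 ∨ n = x + 5)
    (fun n => n = 2 ∨ (5 ≤ n ∧ n ≤ x + 3) ∨ n = x + 6) (x + 5) 2 3 <;> try omega
  · have : (Icc 1 (x + y + 5)).filter (fun n => n = 1 ∨ n = 4 ∨ n = x + 5) = {1, 4, x + 5} := by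
      ext n
      rw [mem_filter, mem_Icc, mem_insert, mem_insert, mem_singleton]
      omega
    rw [this, card_insert_of_notMem, card_pair]
    · omega
    · rw [mem_insert, mem_singleton]
      omega
  · have : (Icc 1 (x + y + 5)).filter (fun n => ¬ (n = 1 ∨ n = 4 ∨ n = x + 5) ∧
        (n = 2 ∨ (5 ≤ n ∧ n ≤ x + 3) ∨ n = x + 6)) = insert 2 (insert (x + 6) (Icc 5 (x + 3))) := by
      ext n
      rw [mem_filter, mem_Icc, mem_insert, mem_insert, mem_Icc]
      omega
    rw [this, card_insert_of_notMem, card_insert_of_notMem, Nat.card_Icc]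
    · omega
    · rw [mem_Icc]
      omega
    · rw [mem_insert, mem_Icc]
      omega

/-- `K_{1,x} ∪ K_{1,x} ∪ K_{1,z}` -/
theorem fam1 (x z : ℕ) : IsSSEM (starForest ![x, x, z]) := by
  apply mk3 (p := 2 * x + z + 3) (a := 3) (s := 6)
    (fun n => n = 1 ∨ (5 ≤ n ∧ n ≤ 2 * x + 3 ∧ n % 2 = 1))
    (fun n => n = 3 ∨ (4 ≤ n ∧ n ≤ 2 * x + 2 ∧ n % 2 = 0)) 1 3 2 <;> try omega
  · have : (Icc 1 (2 * x + z + 3)).filter (fun n => n = 1 ∨ (5 ≤ n ∧ n ≤ 2 * x + 3 ∧ n % 2 = 1)) =
        insert 1 ((range x).image fun u => 2 * u + 5) := by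
      ext n
      rw [mem_filter, mem_Icc, mem_insert, mem_image]
      constructor
      · rintro ⟨h1, h2 | h2⟩
        · exact Or.inl h2
        · right
          exact ⟨(n - 5) / 2, mem_range.2 (by omega), by omega⟩
      · rintro (rfl | ⟨u, hu, rfl⟩)
        · exact ⟨by omega, Or.inl rfl⟩
        · rw [mem_range] at hu
          exact ⟨by omega, by omega⟩
    rw [this, card_insert_of_notMem, card_image_of_injective, card_range]
    · intro u u' h
      simp only at h
      omega
    · rw [mem_image]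
      rintro ⟨u, -, h⟩
      omega
  · have : (Icc 1 (2 * x + z + 3)).filter (fun n =>
        ¬ (n = 1 ∨ (5 ≤ n ∧ n ≤ 2 * x + 3 ∧ n % 2 = 1)) ∧
        (n = 3 ∨ (4 ≤ n ∧ n ≤ 2 * x + 2 ∧ n % 2 = 0))) =
        insert 3 ((range x).image fun u => 2 * u + 4) := by
      ext n
      rw [mem_filter, mem_Icc, mem_insert, mem_image]
      constructor
      · rintro ⟨h1, h3, h2 | h2⟩
        · exact Or.inl h2
        · right
          exact ⟨(n - 4) / 2, mem_range.2 (by omega), by omega⟩
      · rintro (rfl | ⟨u, hu, rfl⟩)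
        · exact ⟨by omega, by omega⟩
        · rw [mem_range] at hu
          exact ⟨by omega, by omega⟩
    rw [this, card_insert_of_notMem, card_image_of_injective, card_range]
    · intro u u' h
      simp only at h
      omega
    · rw [mem_image]
      rintro ⟨u, -, h⟩
      omega

/-- the last family, `d = e + 1` -/
theorem fam4 (e k l : ℕ) (he : 1 ≤ e) :
    IsSSEM (starForest ![k * e + l, k + l * e, e]) := by
  obtain ⟨d, hd⟩ : ∃ d, d = e + 1 := ⟨_, rfl⟩
  obtain ⟨c, hc⟩ : ∃ c, c = 1 + k * d := ⟨_, rfl⟩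
  obtain ⟨b, hb⟩ : ∃ b, b = c + l * d := ⟨_, rfl⟩
  have hc1 : c % d = 1 := by
    rw [hc, Nat.add_mul_mod_self_right, Nat.mod_eq_of_lt (by omega)]
  have hb1 : b % d = 1 := by
    rw [hb, Nat.add_mul_mod_self_right, hc1]
  have e1 : k * d = k * e + k := by rw [hd]; ring
  have e2 : l * d = l * e + l := by rw [hd]; ring
  have hstep : ∀ u v : ℕ, u < v → u % d = v % d → u + d ≤ v := by
    intro u v h1 h2
    have h3 : d ∣ v - u := (Nat.modEq_iff_dvd' h1.le).1 h2
    have := Nat.le_of_dvd (by omega) h3
    omega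
  have hadd : ∀ u : ℕ, (u + d) % d = u % d := fun u => Nat.add_mod_right u d
  have hsub : ∀ u : ℕ, d ≤ u → (u - d) % d = u % d := by
    intro u hu
    rw [← hadd (u - d)]
    congr 1
    omega
  have hlow : ∀ u : ℕ, 2 ≤ u → u % d = 1 → d + 1 ≤ u := by
    intro u h1 h2
    by_contra h3
    by_cases h4 : u = d
    · rw [h4, Nat.mod_self] at h2
      omega
    · rw [Nat.mod_eq_of_lt (by omega)] at h2
      omega
  -- the numbers of the columns
  have q1 := cnt_one d (by omega) k
  have q2 := cnt_not d (by omega) k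
  have q3 := cnt_one d (by omega) l
  have q4 := cnt_not d (by omega) l
  have hd1 : d - 1 = e := by omega
  rw [hd1] at q2 q4
  rw [← hc] at q1 q2
  have key : ∀ n, e + 2 < n → n ≤ e + 2 + b → n ≠ e + 2 + c →
      (n < e + 2 + c ∨ e + 2 + c < n) := by
    intro n h1 h2 h3
    omega
  -- images
  have w1 : ∀ (P : ℕ → Prop) [DecidablePred P], ((Ioo (e + 2) (e + 2 + c)).filter
      fun n => P ((n - (e + 2)) % d)).card = ((Ico 1 c).filter fun j => P (j % d)).card := by
    intro P _
    apply card_bij' (fun n _ => n - (e + 2)) (fun j _ => j + (e + 2))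
    · intro n hn
      rw [mem_filter, mem_Ioo] at hn
      rw [mem_filter, mem_Ico]
      exact ⟨⟨by omega, by omega⟩, hn.2⟩
    · intro j hj
      rw [mem_filter, mem_Ico] at hj
      rw [mem_filter, mem_Ioo]
      have : j + (e + 2) - (e + 2) = j := by omega
      rw [this]
      exact ⟨⟨by omega, by omega⟩, hj.2⟩
    · intro n hn
      rw [mem_filter, mem_Ioo] at hn
      show n - (e + 2) + (e + 2) = n
      omega
    · intro j hj
      show j + (e + 2) - (e + 2) = j
      omega
  have h11 : 1 % d = 1 := Nat.mod_eq_of_lt (by omega)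
  have hsym : ∀ x y : ℕ, x + y = b + 1 → x % d = 1 → y % d = 1 := by
    intro x y h1 h2
    have h3 : x ≡ 1 [MOD d] := by
      show x % d = 1 % d
      rw [h11, h2]
    have h4 : x + y ≡ 1 + 1 [MOD d] := by
      rw [h1]
      apply Nat.ModEq.add_right
      show b % d = 1 % d
      rw [h11, hb1]
    have h5 : y % d = 1 % d := Nat.ModEq.add_left_cancel h3 h4
    rw [h5, h11]
  have w2 : ∀ (P : ℕ → Prop) [DecidablePred P], (∀ x y, x + y = b + 1 → P (x % d) → P (y % d)) →
      ((Ioc (e + 2 + c) (e + 2 + b)).filter fun n => P ((n - (e + 2)) % d)).card =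
      ((Ico 1 (1 + l * d)).filter fun j => P (j % d)).card := by
    intro P _ hP
    apply card_bij' (fun n _ => e + 2 + b + 1 - n) (fun j _ => e + 2 + b + 1 - j)
    · intro n hn
      rw [mem_filter, mem_Ioc] at hn
      rw [mem_filter, mem_Ico]
      exact ⟨⟨by omega, by omega⟩, hP _ _ (by omega) hn.2⟩
    · intro j hj
      rw [mem_filter, mem_Ico] at hj
      rw [mem_filter, mem_Ioc]
      exact ⟨⟨by omega, by omega⟩, hP _ _ (by omega) hj.2⟩
    · intro n hn
      rw [mem_filter, mem_Ioc] at hn
      show e + 2 + b + 1 - (e + 2 + b + 1 - n) = n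
      omega
    · intro j hj
      rw [mem_filter, mem_Ico] at hj
      show e + 2 + b + 1 - (e + 2 + b + 1 - j) = j
      omega
  have t1 := w1 (fun r => r = 1)
  have t2 := w1 (fun r => ¬ r = 1)
  have t3 := w2 (fun r => r = 1) hsym
  have t4 := w2 (fun r => ¬ r = 1) (fun x y h h1 h2 => h1 (hsym y x (by omega) h2))
  rw [q1] at t1
  rw [q2] at t2
  rw [q3] at t3
  rw [q4] at t4
  -- the union of three parts
  have hun : ∀ (x0 : ℕ) (S T : Finset ℕ) (P : ℕ → Prop) [DecidablePred P], 1 ≤ x0 → x0 ≤ e + 2 →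
      (∀ n ∈ S, e + 2 < n ∧ n < e + 2 + c) → (∀ n ∈ T, e + 2 + c < n ∧ n ≤ e + 2 + b) →
      (∀ n, 1 ≤ n → n ≤ e + 2 + b → (P n ↔ n = x0 ∨ n ∈ S ∨ n ∈ T)) →
      ((Icc 1 (e + 2 + b)).filter P).card = S.card + T.card + 1 := by
    intro x0 S T P _ h1 h2 hS hT hP
    have h3 : (Icc 1 (e + 2 + b)).filter P = insert x0 (S ∪ T) := by
      ext n
      rw [mem_filter, mem_Icc, mem_insert, mem_union]
      constructor
      · rintro ⟨h4, h5⟩
        exact (hP n h4.1 h4.2).1 h5
      · intro h4
        have h5 : 1 ≤ n ∧ n ≤ e + 2 + b := by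
          rcases h4 with h4 | h4 | h4
          · omega
          · have := hS n h4
            omega
          · have := hT n h4
            omega
        exact ⟨h5, (hP n h5.1 h5.2).2 h4⟩
    rw [h3, card_insert_of_notMem, card_union_of_disjoint]
    · rw [disjoint_left]
      intro n h4 h5
      have := hS n h4
      have := hT n h5
      omega
    · rw [mem_union]
      rintro (h4 | h4)
      · have := hS x0 h4
        omega
      · have := hT x0 h4
        omega
  apply mk3 (p := e + 2 + b) (a := e + 2) (s := e + 5)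
    (fun n => n = 1 ∨ (e + 2 < n ∧ n < e + 2 + c ∧ ¬ (n - (e + 2)) % d = 1) ∨
      (e + 2 + c < n ∧ (n - (e + 2)) % d = 1))
    (fun n => n = e + 2 ∨ (e + 2 < n ∧ n < e + 2 + c ∧ (n - (e + 2)) % d = 1) ∨
      (e + 2 + c < n ∧ ¬ (n - (e + 2)) % d = 1)) 1 (e + 2) (e + 2 + c)
  · omega
  · omega
  · omega
  · omega
  · omega
  · exact Or.inl rfl
  · exact ⟨by omega, Or.inl rfl⟩
  · exact ⟨by omega, by omega⟩
  · rw [hun 1 ((Ioo (e + 2) (e + 2 + c)).filter fun n => ¬ (n - (e + 2)) % d = 1)
      ((Ioc (e + 2 + c) (e + 2 + b)).filter fun n => (n - (e + 2)) % d = 1), t2, t3]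
    · omega
    · omega
    · intro n hn
      rw [mem_filter, mem_Ioo] at hn
      exact hn.1
    · intro n hn
      rw [mem_filter, mem_Ioc] at hn
      exact hn.1
    · intro n h1 h2
      rw [mem_filter, mem_filter, mem_Ioo, mem_Ioc]
      tauto
  · rw [hun (e + 2) ((Ioo (e + 2) (e + 2 + c)).filter fun n => (n - (e + 2)) % d = 1)
      ((Ioc (e + 2 + c) (e + 2 + b)).filter fun n => ¬ (n - (e + 2)) % d = 1), t1, t4]
    · omega
    · omega
    · intro n hn
      rw [mem_filter, mem_Ioo] at hn
      exact hn.1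
    · intro n hn
      rw [mem_filter, mem_Ioc] at hn
      exact hn.1
    · intro n h1 h2
      rw [mem_filter, mem_filter, mem_Ioo, mem_Ioc]
      omega
  · intro n h1 h2 h3 h4
    omega
  · intro n h1 h2 h3 h4 h5
    omega
  · intro n h1 h2 h3 h4 h5
    omega
  · intro v h1 h2
    by_cases g1 : v ≤ e + 2 + c + 1
    · -- the left columns
      by_cases g2 : v = e + 2 + c + 1 ∨ (v - 1 - (e + 2)) % d = 1
      · right
        left
        have g3 : (v - 1 - (e + 2)) % d = 1 := by
          rcases g2 with g2 | g2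
          · have : v - 1 - (e + 2) = c := by omega
            rw [this, hc1]
          · exact g2
        have g4 := hlow (v - 1 - (e + 2)) (by omega) g3
        have g5 := hsub (v - 1 - (e + 2)) (by omega)
        have g6 : v - 1 - (e + 2) - d = v - (e + 2) - (e + 2) := by omega
        rw [g6, g3] at g5
        refine ⟨by omega, by omega, by omega, by omega, ?_⟩
        right
        left
        exact ⟨by omega, by omega, g5⟩
      · left
        refine ⟨by omega, by omega, by omega, ?_⟩
        right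
        left
        exact ⟨by omega, by omega, fun h => g2 (Or.inr h)⟩
    · by_cases g2 : v ≤ e + 2 + c + e + 1
      · right
        right
        refine ⟨by omega, by omega, by omega, by omega, by omega⟩
      · by_cases g3 : (v - 1 - (e + 2)) % d = 1
        · left
          have g5 := hsub (v - 1 - (e + 2)) (by omega)
          have g7 := hstep (v - 1 - (e + 2) - d) b (by omega) (by rw [g5, g3, hb1])
          refine ⟨by omega, by omega, by omega, ?_⟩
          right
          right
          exact ⟨by omega, g3⟩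
        · right
          left
          have g5 := hsub (v - 1 - (e + 2)) (by omega)
          have g6 : v - 1 - (e + 2) - d = v - (e + 2) - (e + 2) := by omega
          rw [g6] at g5
          have g7 : v - (e + 2) - (e + 2) ≠ c := by
            intro h
            rw [h, hc1] at g5
            exact g3 g5.symm
          refine ⟨by omega, by omega, by omega, by omega, ?_⟩
          right
          right
          refine ⟨by omega, ?_⟩
          rw [g5]
          exact g3

end Pool.Agent.StarF
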