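import Pool.Agent.StarF.Gcd

/-!
# Star forests with five stars: two counting lemmas (MP_fb2988_co)

Leaves of a star with centre `<= a` in a window around two or three consecutive centres `> a`.
-/

set_option autoImplicit false

open Finset

namespace Pool.Agent.StarF

namespace Lab

variable {m : Fin 5 → ℕ} {p a s : ℕ} {own : ℕ → Fin 5} {cen : Fin 5 → ℕ}

theorem win3 (L : Lab m p a s own cen) {B c1 c2 c3 : Fin 5} (hB : cen B ≤ a)
    (h0 : a + 4 ≤ cen c1) (h1 : cen c1 < cen c2) (h2 : cen c2 < cen c3)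
    (h3 : cen c3 ≤ cen c1 + 4)
    (hl : ∀ v, 1 ≤ v → a + v + 3 ≤ cen c1 → own (a + v) = B)
    (hr : ∀ n, cen c3 + 3 ≤ n → n ≤ p → own n ≠ B) :
    cen c1 ≤ m B + a + 3 ∧ m B + a ≤ cen c1 + 3 := by
  have hc := L.lv_card B
  constructor
  · have hsub : Icc (a + 1) (cen c1 - 3) ⊆ lv p own cen B := by
      intro n hn
      rw [mem_Icc] at hn
      rw [L.mem_lv]
      have h4 : own n = B := by
        have h5 := hl (n - a) (by omega) (by omega)
        have h6 : a + (n - a) = n := by omega
        rwa [h6] at h5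
      have h7 := L.cenp c1
      refine ⟨⟨by omega, by omega⟩, ?_, h4⟩
      rw [h4]
      omega
    have h4 := card_le_card hsub
    rw [Nat.card_Icc, hc] at h4
    omega
  · have hsub : lv p own cen B ⊆ (Icc (a + 1) (cen c3 + 2)) \ {cen c1, cen c2, cen c3} := by
      intro n hn
      rw [L.mem_lv] at hn
      obtain ⟨⟨g1, g2⟩, g3, g4⟩ := hn
      have g5 := L.side n g1 g2 g3
      rw [g4] at g5
      rw [mem_sdiff, mem_Icc, mem_insert, mem_insert, mem_singleton]
      refine ⟨⟨?_, ?_⟩, ?_⟩
      · by_contra g6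
        exact (g5.1 (by omega)) hB
      · by_contra g6
        exact hr n (by omega) g2 g4
      · rintro (g6 | g6 | g6)
        · exact L.ne_cen g3 c1 g6
        · exact L.ne_cen g3 c2 g6
        · exact L.ne_cen g3 c3 g6
    have h4 := card_le_card hsub
    rw [hc, card_sdiff_of_subset, Nat.card_Icc, card_insert_of_notMem, card_pair] at h4
    · omega
    · omega
    · rw [mem_insert, mem_singleton]
      omega
    · intro n hn
      rw [mem_insert, mem_insert, mem_singleton] at hn
      rw [mem_Icc]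
      rcases hn with rfl | rfl | rfl <;> omega

theorem win2 (L : Lab m p a s own cen) {P c1 c2 : Fin 5} (hP : cen P ≤ a)
    (h1 : cen c1 < cen c2) (h3 : cen c2 ≤ cen c1 + 2)
    (hl : ∀ v, 1 ≤ v → a + v + 3 ≤ cen c1 → own (a + v) ≠ P)
    (hr : ∀ n, cen c2 + 3 ≤ n → n ≤ p → own n ≠ P) : m P ≤ 5 := by
  have hc := L.lv_card P
  have hsub : lv p own cen P ⊆ (Icc (cen c1 - 2) (cen c2 + 2)) \ {cen c1, cen c2} := by
    intro n hn
    rw [L.mem_lv] at hn
    obtain ⟨⟨g1, g2⟩, g3, g4⟩ := hn
    have g5 := L.side n g1 g2 g3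
    rw [g4] at g5
    have g6 : a < n := by
      by_contra g6
      exact (g5.1 (by omega)) hP
    rw [mem_sdiff, mem_Icc, mem_insert, mem_singleton]
    refine ⟨⟨?_, ?_⟩, ?_⟩
    · by_contra g7
      have g8 := hl (n - a) (by omega) (by omega)
      have g9 : a + (n - a) = n := by omega
      rw [g9] at g8
      exact g8 g4
    · by_contra g7
      exact hr n (by omega) g2 g4
    · rintro (g7 | g7)
      · exact L.ne_cen g3 c1 g7
      · exact L.ne_cen g3 c2 g7
  have h4 := card_le_card hsub
  rw [hc, card_sdiff_of_subset, Nat.card_Icc, card_pair] at h4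
  · omega
  · omega
  · intro n hn
    rw [mem_insert, mem_singleton] at hn
    rw [mem_Icc]
    rcases hn with rfl | rfl <;> omega

end Lab

end Pool.Agent.StarF
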