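import Pool.Agent.StarF.Sym
import Pool.Agent.StarF.Win

/-!
# Five stars: the case `s = a + 4` (MP_fb2988_co)
-/

set_option autoImplicit false

open Finset

namespace Pool.Agent.StarF

variable {m : Fin 5 → ℕ} {p a s : ℕ} {own : ℕ → Fin 5} {cen : Fin 5 → ℕ}

/-- the assumptions on the sizes -/
structure Big (m : Fin 5 → ℕ) (g : Fin 5 → ℕ) : Prop where
  dv : ∀ k i, i ≠ k → (g k : ℤ) ∣ (m i : ℤ) - 1
  nd : ∀ k (x : ℤ), 1 ≤ x → x ≤ 5 → ¬ (g k : ℤ) ∣ x * ((m k : ℤ) - 1)
  n5 : ∀ k, ¬ (g k : ℤ) ∣ (m k : ℤ) - 6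

theorem Big.nd' {m g : Fin 5 → ℕ} (H : Big m g) (k : Fin 5) {x : ℤ} (h0 : x ≠ 0) (h1 : -5 ≤ x)
    (h2 : x ≤ 5) : ¬ (g k : ℤ) ∣ ((m k : ℤ) - 1) * x := by
  intro h
  rcases lt_or_gt_of_ne h0 with h3 | h3
  · apply H.nd k (-x) (by omega) (by omega)
    have : -x * ((m k : ℤ) - 1) = -(((m k : ℤ) - 1) * x) := by ring
    rw [this]
    exact (dvd_neg (α := ℤ)).2 h
  · apply H.nd k x (by omega) (by omega)
    rw [mul_comm]
    exact h

theorem Big.two {m g : Fin 5 → ℕ} (H : Big m g) (hm : ∀ i, 1 ≤ m i) (i : Fin 5) : 2 ≤ m i := by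
  by_contra h
  have h1 := hm i
  have h2 : m i = 1 := by omega
  apply H.nd i 1 (by norm_num) (by norm_num)
  rw [h2]
  norm_num

theorem Big.six {m g : Fin 5 → ℕ} (H : Big m g) (hm : ∀ i, 1 ≤ m i) (i : Fin 5) : 6 ≤ m i := by
  by_contra h
  have h1 := H.two hm i
  have h2 : ∃ k : Fin 5, i ≠ k := by
    by_cases h : i = 0
    · exact ⟨1, by rw [h]; decide⟩
    · exact ⟨0, h⟩
  obtain ⟨k, hk⟩ := h2
  have h3 := H.dv k i hk
  have h4 := Int.le_of_dvd (by omega) h3
  have h5 : 0 < (g k : ℤ) := by
    rcases Nat.eq_zero_or_pos (g k) with h6 | h6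
    · rw [h6, Nat.cast_zero, zero_dvd_iff] at h3
      omega
    · exact_mod_cast h6
  exact H.nd k (g k) (by omega) (by omega) (Dvd.intro _ rfl)

namespace Lab

theorem far_of (L : Lab m p a (a + 4) own cen) {g : Fin 5 → ℕ} (H : Big m g) :
    (∀ k, (g k : ℤ) ∣ ((m k : ℤ) - 1) * ((pos a (cen k) : ℤ) - 3)) ∧ Far a cen := by
  have h0 : ∀ k, (g k : ℤ) ∣ ((m k : ℤ) - 1) * ((pos a (cen k) : ℤ) - 3) := by
    intro k
    obtain ⟨c, hc⟩ := L.cong k (H.dv k)
    refine ⟨c, ?_⟩
    push_cast at hc
    linarith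
  refine ⟨h0, fun k => ?_⟩
  have h1 : 1 ≤ pos a (cen k) := by
    have c1 := L.cen1 k
    unfold pos
    split_ifs <;> omega
  by_contra h2
  push Not at h2
  exact H.nd' k (x := (pos a (cen k) : ℤ) - 3) (by omega) (by omega) (by omega) (h0 k)

theorem a_ge6 (L : Lab m p a s own cen) (hm : ∀ i, 2 ≤ m i) {c : Fin 5} (hc : a < cen c) :
    6 ≤ a := by
  have h1 := L.a_eq
  have hc' : c ∈ univ.filter (fun i => ¬ cen i ≤ a) := mem_filter.2 ⟨mem_univ c, by omega⟩
  have h2 : (univ.filter fun i => ¬ cen i ≤ a).card * 2 ≤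
      ∑ i ∈ univ.filter (fun i => ¬ cen i ≤ a), m i := by
    rw [card_eq_sum_ones, sum_mul]
    exact sum_le_sum fun i _ => by have := hm i; omega
  have h3 := card_filter_add_card_filter_not (s := (univ : Finset (Fin 5))) (fun i => cen i ≤ a)
  rw [card_univ, Fintype.card_fin] at h3
  have h4 : 0 < (univ.filter fun i => ¬ cen i ≤ a).card := card_pos.2 ⟨c, hc'⟩
  omega

theorem card3 {x y z : Fin 5} (h1 : x ≠ y) (h2 : x ≠ z) (h3 : y ≠ z) :
    ({x, y, z} : Finset (Fin 5)).card = 3 :=
  card_eq_three.2 ⟨x, y, z, h1, h2, h3, rfl⟩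

/-- the numbers: three columns close together -/
theorem num (L : Lab m p a (a + 4) own cen)
    {g : Fin 5 → ℕ} (H : Big m g)
    {B c1 c2 c3 : Fin 5} (hB : cen B = 3) (h6 : 6 ≤ a) (h0 : a < cen c1) (h1 : cen c1 < cen c2)
    (h2 : cen c2 < cen c3) (h3 : cen c3 ≤ cen c1 + 4) (h4 : cen c2 ≤ cen c1 + 2)
    (hl : ∀ v, 1 ≤ v → a + v + 3 ≤ cen c1 → own (a + v) = B)
    (hr : ∀ n, cen c3 + 3 ≤ n → n ≤ p → own n ≠ B) : False := by
  obtain ⟨F1, F2⟩ := L.far_of H
  have f1 := F2 c1
  have f2 := F2 c2
  have d1 := F1 c1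
  have d2 := F1 c2
  unfold pos at f1 f2 d1 d2
  rw [if_neg (by omega)] at f1 f2 d1 d2
  have n1 : B ≠ c1 := by
    rintro rfl
    omega
  have n2 : B ≠ c2 := by
    rintro rfl
    omega
  have e1 := H.dv c1 B n1
  have e2 := H.dv c2 B n2
  have h9 : a + 4 ≤ cen c1 := by omega
  obtain ⟨w1, w2⟩ := L.win3 (by omega) h9 h1 h2 h3 hl hr
  rw [Nat.cast_sub (by omega)] at d1 d2
  -- the first column
  have k1 : (cen c1 : ℤ) - a - 3 = (m B : ℤ) - 1 := by
    by_contra hne
    apply H.nd' c1 (x := (cen c1 : ℤ) - a - 3 - ((m B : ℤ) - 1)) (by omega) (by omega) (by omega)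
    have : ((m c1 : ℤ) - 1) * ((cen c1 : ℤ) - a - 3 - ((m B : ℤ) - 1)) =
        ((m c1 : ℤ) - 1) * ((cen c1 : ℤ) - a - 3) - ((m B : ℤ) - 1) * ((m c1 : ℤ) - 1) := by ring
    rw [this]
    exact dvd_sub d1 (Dvd.dvd.mul_right e1 _)
  apply H.nd' c2 (x := (cen c2 : ℤ) - cen c1) (by omega) (by omega) (by omega)
  have : ((m c2 : ℤ) - 1) * ((cen c2 : ℤ) - cen c1) =
      ((m c2 : ℤ) - 1) * ((cen c2 : ℤ) - a - 3) - ((m B : ℤ) - 1) * ((m c2 : ℤ) - 1) := by
    rw [← k1]
    ring
  rw [this]
  exact dvd_sub d2 (Dvd.dvd.mul_right e2 _)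

/-- the position `3` is a centre on the side `≤ a` -/
theorem coreR (L : Lab m p a (a + 4) own cen) (hm : ∀ i, 1 ≤ m i) {g : Fin 5 → ℕ} (H : Big m g)
    {B : Fin 5} (hB : cen B = 3) : False := by
  have hm2 := H.two hm
  have ha5 := L.a_ge hm
  have hap := L.ha
  have hpq := L.p_eq
  obtain ⟨F1, hf⟩ := L.far_of H
  obtain ⟨c, hc, hmin⟩ := L.exists_min hf
  obtain ⟨d, hd⟩ := L.low_next hm rfl hf hB hc hmin
  have hl := L.low_left hm rfl hf hB hmin
  have ha6 := L.a_ge6 hm2 hc
  have hcount := card_filter_add_card_filter_not (s := (univ : Finset (Fin 5))) (fun i => cen i ≤ a)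
  rw [card_univ, Fintype.card_fin] at hcount
  -- reflection
  obtain ⟨o1, c1, L1, e1, e2⟩ := L.re4 hm
  obtain ⟨-, hf1⟩ := L1.far_of H
  have hb5 := L1.a_ge hm
  obtain ⟨T, hT⟩ := L1.low_cen hm rfl hf1
  have hpe : ∀ i, cen i ≤ p := L.cenp
  have hce : ∀ i, 1 ≤ cen i := L.cen1
  rcases hT with hT | hT
  · -- `R` low, `C` high
    exfalso
    obtain ⟨c', hc', hmin'⟩ := L1.exists_min hf1
    obtain ⟨d', hd'⟩ := L1.low_next hm rfl hf1 hT hc' hmin'
    have q1 := hpe c'
    have q2 := hpe d'
    have q3 := hpe T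
    have q4 := hpe d
    have q5 := hce c'
    have q6 := hce d'
    rw [e1] at hT hc' hd'
    rw [e1] at hd'
    -- positions
    have u1 := hf c'
    have u2 := hf d'
    have u3 := hf1 c
    have u4 := hf1 d
    unfold pos at u1 u2 u3 u4
    rw [e1] at u3 u4
    rw [if_pos (by omega)] at u1 u2 u3 u4
    have r1 : B ≠ c' := by
      rintro rfl
      omega
    have r2 : B ≠ d' := by
      rintro rfl
      omega
    have r3 : c' ≠ d' := by
      rintro rfl
      omega
    have s1 : T ≠ c := by
      rintro rfl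
      omega
    have s2 : T ≠ d := by
      rintro rfl
      omega
    have s3 : c ≠ d := by
      rintro rfl
      omega
    have k1 : ({B, c', d'} : Finset (Fin 5)) ⊆ univ.filter fun i => cen i ≤ a := by
      intro i hi
      rw [mem_insert, mem_insert, mem_singleton] at hi
      rw [mem_filter]
      refine ⟨mem_univ i, ?_⟩
      rcases hi with rfl | rfl | rfl <;> omega
    have k2 : ({T, c, d} : Finset (Fin 5)) ⊆ univ.filter fun i => ¬ cen i ≤ a := by
      intro i hi
      rw [mem_insert, mem_insert, mem_singleton] at hi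
      rw [mem_filter]
      refine ⟨mem_univ i, ?_⟩
      rcases hi with rfl | rfl | rfl <;> omega
    have k3 := card_le_card k1
    have k4 := card_le_card k2
    rw [card3 r1 r2 r3] at k3
    rw [card3 s1 s2 s3] at k4
    omega
  · -- `R` low, `R` high
    rw [e1] at hT
    have q1 := hce T
    have hTa : cen T = a - 2 := by
      have := hpe T
      omega
    have hBT : B ≠ T := by
      rintro rfl
      omega
    obtain ⟨o2, c2, L2, e3, e4, e5⟩ := L.rv4 hm
    obtain ⟨-, hf2⟩ := L2.far_of H
    have hT2 : c2 T = 3 := by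
      rw [e3 T (by omega)]
      omega
    obtain ⟨e, he, hmax⟩ := L2.exists_min hf2
    obtain ⟨f, hf3⟩ := L2.low_next hm rfl hf2 hT2 he hmax
    have hl2 := L2.low_left hm rfl hf2 hT2 hmax
    have hrow : ∀ i, a < c2 i → a < cen i ∧ c2 i = p + 1 + a - cen i := by
      intro i hi
      by_cases h : cen i ≤ a
      · rw [e3 i h] at hi
        have := hce i
        omega
      · exact ⟨by omega, e4 i (by omega)⟩
    obtain ⟨he1, he2⟩ := hrow e he
    obtain ⟨hf4, hf5⟩ := hrow f (by omega)
    have qe := hpe e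
    have qf := hpe f
    have hmax2 : ∀ i, a < cen i → cen i ≤ cen e := by
      intro i hi
      have g1 := e4 i hi
      have g2 := hpe i
      have g3 := hmax i (by omega)
      omega
    have hrT : ∀ n, cen e + 3 ≤ n → n ≤ p → own n = T := by
      intro n h1 h2
      have g1 := hl2 (p + 1 - n) (by omega) (by omega)
      rw [e5 (a + (p + 1 - n)) (by omega) (by omega)] at g1
      have g2 : p + 1 + a - (a + (p + 1 - n)) = n := by omega
      rwa [g2] at g1
    have hd1 : a < cen d := by omega
    have hde := hmax2 d hd1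
    by_cases hx : ∃ x, a < cen x ∧ x ≠ c ∧ x ≠ d
    · -- three columns
      by_cases hed : e = d
      · obtain ⟨x, hx1, hx2, hx3⟩ := hx
        have g1 := hmin x hx1
        have g2 := hmax2 x hx1
        rw [hed] at g2
        have g3 : cen x ≠ cen c := fun h => hx2 (L.cen_inj5 h)
        have g4 : cen x ≠ cen d := fun h => hx3 (L.cen_inj5 h)
        refine L.num H hB ha6 hc (c2 := x) (c3 := d) (by omega) (by omega) (by omega)
          (by omega) hl ?_
        intro n h1 h2
        rw [hrT n (by rw [hed]; omega) h2]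
        exact hBT.symm
      · have g1 : cen d ≠ cen e := fun h => hed (L.cen_inj5 h).symm
        have hfe : cen f + 2 ≥ cen e ∧ cen f < cen e := by omega
        have hfd : cen f ≤ cen d := by
          by_contra hfd
          have k1 : ({c, d, e} : Finset (Fin 5)).card = 3 := by
            apply card3
            · rintro rfl
              omega
            · rintro rfl
              omega
            · rintro rfl
              omega
          have k2 : ({f, c, d, e} : Finset (Fin 5)).card = 4 := by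
            rw [card_insert_of_notMem, k1]
            rw [mem_insert, mem_insert, mem_singleton]
            rintro (rfl | rfl | rfl) <;> omega
          have k3 : ({f, c, d, e} : Finset (Fin 5)) ⊆ univ.filter fun i => ¬ cen i ≤ a := by
            intro i hi
            rw [mem_insert, mem_insert, mem_insert, mem_singleton] at hi
            rw [mem_filter]
            refine ⟨mem_univ i, ?_⟩
            rcases hi with rfl | rfl | rfl | rfl <;> omega
          have k4 : ({B, T} : Finset (Fin 5)) ⊆ univ.filter fun i => cen i ≤ a := by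
            intro i hi
            rw [mem_insert, mem_singleton] at hi
            rw [mem_filter]
            refine ⟨mem_univ i, ?_⟩
            rcases hi with rfl | rfl <;> omega
          have k5 := card_le_card k3
          have k6 := card_le_card k4
          rw [card_pair hBT] at k6
          rw [k2] at k5
          omega
        refine L.num H hB ha6 hc (c2 := d) (c3 := e) (by omega) (by omega) (by omega)
          (by omega) hl ?_
        intro n h1 h2
        rw [hrT n h1 h2]
        exact hBT.symm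
    · -- two columns
      push Not at hx
      obtain ⟨P, hP⟩ : ∃ P, P ∉ ({B, T, c, d} : Finset (Fin 5)) := by
        by_contra h
        push Not at h
        have h1 : (univ : Finset (Fin 5)) ⊆ {B, T, c, d} := fun i _ => h i
        have h2 := card_le_card h1
        have h3 := card_le_four (a := B) (b := T) (c := c) (d := d)
        rw [card_univ, Fintype.card_fin] at h2
        omega
      rw [mem_insert, mem_insert, mem_insert, mem_singleton] at hP
      push Not at hP
      obtain ⟨hP1, hP2, hP3, hP4⟩ := hP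
      have hPa : cen P ≤ a := by
        by_contra h
        exact hP4 (hx P (by omega) hP3)
      have hed : cen e = cen d := by
        by_contra h
        have h1 : e ≠ c := by
          rintro rfl
          omega
        have h2 : e ≠ d := by
          rintro rfl
          exact h rfl
        exact h2 (hx e he1 h1)
      have w := L.win2 hPa (c1 := c) (c2 := d) (by omega) (by omega)
        (fun v h1 h2 h3 => hP1 (h3.symm.trans (hl v h1 h2)))
        (fun n h1 h2 h3 => hP2 (h3.symm.trans (hrT n (by omega) h2)))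
      have := H.six hm P
      omega

end Lab

end Pool.Agent.StarF
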