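import Pool.Agent.StarF.Fiv
import Pool.Agent.StarF.Ext

/-!
# Five stars: the divisibility condition (MP_fb2988_co)
-/

set_option autoImplicit false

open Finset

namespace Pool.Agent.StarF

variable {m : Fin 5 → ℕ} {p a s : ℕ} {own : ℕ → Fin 5} {cen : Fin 5 → ℕ}

namespace Lab

theorem sub3 (L : Lab m p a s own cen) (hm : ∀ i, 1 ≤ m i) {g : Fin 5 → ℕ} (H : Big m g)
    (hs : s = a + 3) : False := by
  have hq := q_pos hm (by omega)
  obtain ⟨n, g1, g2, g3, g4⟩ := L.cov (x := s) (le_refl _) (by omega)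
  have c1 := L.cen1 (own n)
  have h1 : pos a (cen (own n)) = 1 ∨ pos a (cen (own n)) = 2 := by
    unfold pos
    rcases L.opp g1 g2 g3 with ⟨g5, g6⟩ | ⟨g5, g6⟩
    · rw [if_neg (by omega)]
      omega
    · rw [if_pos g6]
      omega
  obtain ⟨c, hc⟩ := L.cong (own n) (H.dv (own n))
  rw [hs] at hc
  push_cast at hc
  rcases h1 with h1 | h1
  · rw [h1] at hc
    apply H.n5 (own n)
    refine ⟨-c, ?_⟩
    push_cast at hc
    linarith
  · rw [h1] at hc
    apply H.nd (own n) 5 (by norm_num) (by norm_num)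
    refine Dvd.dvd.mul_right ⟨c, ?_⟩ _
    push_cast at hc
    linarith

theorem not5 (L : Lab m p a s own cen) (hm : ∀ i, 1 ≤ m i) {g : Fin 5 → ℕ} (H : Big m g) :
    False := by
  have h1 := L.lower hm (by omega)
  have h2 := L.upper hm (by omega)
  have h3 : s = a + 3 ∨ s = a + 4 ∨ s = a + 5 := by omega
  rcases h3 with h3 | h3 | h3
  · exact L.sub3 hm H h3
  · subst h3
    obtain ⟨-, hf⟩ := L.far_of H
    obtain ⟨B, hB | hB⟩ := L.low_cen hm rfl hf
    · exact L.coreR hm H hB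
    · obtain ⟨o1, c1, L1, -, e2, -⟩ := L.tr4
      refine L1.coreR hm H (B := B) ?_
      rw [e2 B (by omega), hB]
      omega
  · have hq := q_pos hm (by omega)
    have hp := L.p_eq
    have ha := L.ha
    exact (L.refl hq).sub3 hm H (by omega)

end Lab

/-- the divisibility condition for five stars -/
theorem five_dvd (m : Fin 5 → ℕ) (hm : ∀ i, 1 ≤ m i) (hS : IsSSEM (starForest m))
    (g : Fin 5 → ℕ) (hg : ∀ k i, i ≠ k → (g k : ℤ) ∣ (m i : ℤ) - 1) :
    ∃ k, (∃ x : ℕ, 1 ≤ x ∧ x ≤ 5 ∧ (g k : ℤ) ∣ x * ((m k : ℤ) - 1)) ∨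
      (g k : ℤ) ∣ (m k : ℤ) - 6 := by
  by_contra hcon
  push Not at hcon
  obtain ⟨p, a, s, own, cen, L⟩ := exists_lab (by omega) m hS
  refine L.not5 hm ⟨hg, ?_, fun k => (hcon k).2⟩
  intro k x h1 h2 h3
  refine (hcon k).1 x.toNat (by omega) (by omega) ?_
  rwa [Int.toNat_of_nonneg (by omega)]

/-- an example -/
theorem five_ex : ¬ IsSSEM (starForest ![10297, 9010, 8009, 6553, 5545]) := by
  intro h
  obtain ⟨k, hk⟩ := five_dvd ![10297, 9010, 8009, 6553, 5545]
    (by intro i; fin_cases i <;> simp) h ![7, 8, 9, 11, 13]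
    (by intro k i hne; fin_cases k <;> fin_cases i <;> first
          | (exact absurd rfl hne)
          | norm_num)
  fin_cases k
  all_goals
    rcases hk with ⟨x, h1, h2, h3⟩ | h3
    · interval_cases x <;> simp at h3
    · simp at h3

end Pool.Agent.StarF
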