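import Pool.Agent.StarF.Bas

/-!
# Star forests: reflection, the bounds for `s`, the divisibility condition (MP_fb2988_co)
-/

set_option autoImplicit false

open Finset

namespace Pool.Agent.StarF

variable {t : ℕ} {m : Fin t → ℕ} {p a s : ℕ} {own : ℕ → Fin t} {cen : Fin t → ℕ}

namespace Lab

/-- reflection `n ↦ p + 1 - n` -/
theorem refl (L : Lab m p a s own cen) (hq : 1 ≤ ∑ i, m i) :
    Lab m p (p - a) (2 * p + 3 - (s + ∑ i, m i)) (fun n => own (p + 1 - n))
      (fun i => p + 1 - cen i) := by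
  have ha := L.ha
  have hs : s + ∑ i, m i ≤ 2 * p + 1 := by
    obtain ⟨n, h1, h2, h3, h4⟩ := L.cov (x := s + ∑ i, m i - 1) (by omega) (by omega)
    have := L.cenp (own n)
    omega
  refine ⟨L.hp, by omega, fun i => ?_, fun i => ?_, fun i => ?_, fun i => ?_, ?_, ?_⟩
  · have := L.cenp i
    omega
  · have := L.cen1 i
    omega
  · have h1 := L.cenp i
    have h2 : p + 1 - (p + 1 - cen i) = cen i := by omega
    show own (p + 1 - (p + 1 - cen i)) = i
    rw [h2, L.own_cen]
  · rw [← L.card i]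
    apply card_bij' (fun n _ => p + 1 - n) (fun n _ => p + 1 - n)
    · intro n hn
      rw [mem_filter, mem_Icc] at hn ⊢
      exact ⟨⟨by omega, by omega⟩, hn.2⟩
    · intro n hn
      rw [mem_filter, mem_Icc] at hn ⊢
      refine ⟨⟨by omega, by omega⟩, ?_⟩
      have h2 : p + 1 - (p + 1 - n) = n := by omega
      rw [h2]
      exact hn.2
    · intro n hn
      rw [mem_filter, mem_Icc] at hn
      show p + 1 - (p + 1 - n) = n
      omega
    · intro n hn
      rw [mem_filter, mem_Icc] at hn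
      show p + 1 - (p + 1 - n) = n
      omega
  · intro n h1 h2 h3
    have h4 := L.cenp (own (p + 1 - n))
    have h5 := L.cen1 (own (p + 1 - n))
    have h3' : n ≠ p + 1 - cen (own (p + 1 - n)) := h3
    have h6 := L.side (p + 1 - n) (by omega) (by omega) (by omega)
    show n ≤ p - a ↔ ¬ p + 1 - cen (own (p + 1 - n)) ≤ p - a
    omega
  · ext x
    rw [mem_image, mem_Ico]
    constructor
    · rintro ⟨n, h1, rfl⟩
      rw [mem_filter, mem_Icc] at h1
      obtain ⟨⟨h1, h2⟩, h3⟩ := h1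
      have h4 := L.cenp (own (p + 1 - n))
      have h5 := L.cen1 (own (p + 1 - n))
      have h6 := L.rng (n := p + 1 - n) (by omega) (by omega) (by omega)
      omega
    · rintro ⟨h1, h2⟩
      obtain ⟨n, g1, g2, g3, g4⟩ := L.cov (x := 2 * p + 2 - x) (by omega) (by omega)
      have h4 := L.cenp (own n)
      have h5 := L.cen1 (own n)
      have g5 : p + 1 - (p + 1 - n) = n := by omega
      refine ⟨p + 1 - n, ?_, ?_⟩
      · rw [mem_filter, mem_Icc, g5]
        exact ⟨⟨by omega, by omega⟩, by omega⟩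
      · rw [g5]
        omega

theorem q_pos (hm : ∀ i, 1 ≤ m i) (ht : 1 ≤ t) : 1 ≤ ∑ i, m i := by
  have h1 : m ⟨0, by omega⟩ ≤ ∑ i, m i := single_le_sum (fun i _ => Nat.zero_le (m i)) (mem_univ _)
  have h2 := hm ⟨0, by omega⟩
  omega

theorem lower (L : Lab m p a s own cen) (hm : ∀ i, 1 ≤ m i) (ht : 2 ≤ t) : a + 3 ≤ s := by
  have h1 := L.corner hm ht
  have hq := q_pos hm (by omega)
  obtain ⟨n0, h2, h3, h4, h5⟩ := L.cov (x := s) (le_refl _) (by omega)
  have h6 := L.cen1 (own n0)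
  rcases L.opp h2 h3 h4 with h | h <;> omega

theorem upper (L : Lab m p a s own cen) (hm : ∀ i, 1 ≤ m i) (ht : 2 ≤ t) : s ≤ a + t := by
  have hq := q_pos hm (by omega)
  have h1 := (L.refl hq).lower hm ht
  have h2 := L.ha
  have h3 := L.p_eq
  omega

/-- the number of labels in `A` -/
theorem a_eq (L : Lab m p a s own cen) :
    a = (univ.filter fun i => cen i ≤ a).card + ∑ i ∈ univ.filter (fun i => ¬ cen i ≤ a), m i := by
  have ha := L.ha
  have h1 : a = (Icc 1 a).card := by simp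
  have h2 : (Icc 1 a).card = ∑ i, ((Icc 1 a).filter fun n => own n = i).card :=
    card_eq_sum_card_fiberwise (f := own) (t := univ) (fun n _ => mem_coe.2 (mem_univ _))
  have h3 : ∀ i, ((Icc 1 a).filter fun n => own n = i).card = if cen i ≤ a then 1 else m i := by
    intro i
    split_ifs with h
    · rw [card_eq_one]
      refine ⟨cen i, ?_⟩
      ext n
      rw [mem_filter, mem_Icc, mem_singleton]
      constructor
      · rintro ⟨⟨g1, g2⟩, g3⟩
        by_contra g4
        have g5 : n ≠ cen (own n) := by rwa [g3]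
        have g6 := (L.side n g1 (by omega) g5).1 g2
        rw [g3] at g6
        exact g6 h
      · rintro rfl
        exact ⟨⟨L.cen1 i, h⟩, L.own_cen i⟩
    · rw [← L.lv_card i]
      congr 1
      ext n
      rw [mem_filter, mem_Icc, L.mem_lv]
      constructor
      · rintro ⟨⟨g1, g2⟩, g3⟩
        refine ⟨⟨g1, by omega⟩, ?_, g3⟩
        rw [g3]
        omega
      · rintro ⟨⟨g1, g2⟩, g3, g4⟩
        refine ⟨⟨g1, ?_⟩, g4⟩
        rw [L.side n g1 g2 g3, g4]
        exact h
  rw [sum_congr rfl fun i _ => h3 i, sum_ite] at h2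
  rw [card_eq_sum_ones]
  exact h1.trans h2

/-- the sum of the edge sums -/
theorem total (L : Lab m p a s own cen) :
    (p : ℤ) * (p + 1) + 2 * ∑ i, ((m i : ℤ) - 1) * cen i =
      (∑ i, m i : ℕ) * (2 * s + (∑ i, m i : ℕ) - 1) := by
  -- left hand side
  have h1 : ∑ n ∈ (Icc 1 p).filter (fun n => n ≠ cen (own n)), (n + cen (own n)) =
      ∑ x ∈ Ico s (s + ∑ i, m i), x := by
    rw [← L.sums, sum_image]
    intro n hn n' hn' h
    rw [mem_coe, mem_filter, mem_Icc] at hn hn'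
    exact L.inj hn.1.1 hn.1.2 hn.2 hn'.1.1 hn'.1.2 hn'.2 h
  have h2 : ∑ n ∈ (Icc 1 p).filter (fun n => n ≠ cen (own n)), (n + cen (own n)) =
      ∑ i, ∑ n ∈ lv p own cen i, (n + cen i) := by
    rw [← sum_fiberwise_of_maps_to (g := own) (t := univ) (fun n _ => mem_univ _)]
    apply sum_congr rfl
    intro i _
    have h3 : ((Icc 1 p).filter fun n => n ≠ cen (own n)).filter (fun n => own n = i) =
        lv p own cen i := by
      ext n
      rw [mem_filter, mem_filter, mem_Icc, L.mem_lv i n]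
      tauto
    rw [h3]
    apply sum_congr rfl
    intro n hn
    rw [((L.mem_lv i n).1 hn).2.2]
  have h4 : ∑ n ∈ Icc 1 p, n = ∑ i, (∑ n ∈ lv p own cen i, n + cen i) := by
    rw [← sum_fiberwise_of_maps_to (s := Icc 1 p) (g := own) (t := univ) (fun n _ => mem_univ _)]
    apply sum_congr rfl
    intro i _
    unfold lv
    rw [sum_erase_add]
    rw [mem_filter, mem_Icc]
    exact ⟨⟨L.cen1 i, L.cenp i⟩, L.own_cen i⟩
  have h5 : ∀ i, ∑ n ∈ lv p own cen i, (n + cen i) = ∑ n ∈ lv p own cen i, n + m i * cen i := by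
    intro i
    rw [sum_add_distrib, sum_const, L.lv_card, smul_eq_mul]
  rw [h2, sum_congr rfl fun i _ => h5 i, sum_add_distrib] at h1
  rw [sum_add_distrib] at h4
  have h6 : (∑ n ∈ Icc 1 p, n) * 2 = p * (p + 1) := by
    have h7 := sum_range_id_mul_two (p + 1)
    have h8 : ∑ n ∈ Icc 1 p, n = ∑ n ∈ range (p + 1), n := by
      rw [range_eq_Ico, sum_eq_sum_Ico_succ_bot (by omega : 0 < p + 1)]
      simp
      rfl
    rw [h8, h7]
    simp
    ring
  have h9 : (∑ x ∈ Ico s (s + ∑ i, m i), x) * 2 + (∑ i, m i) =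
      (∑ i, m i) * (2 * s + (∑ i, m i)) := by
    generalize ∑ i, m i = q
    induction q with
    | zero => simp
    | succ q ih =>
      have h10 : s + (q + 1) = s + q + 1 := by omega
      rw [h10, sum_Ico_succ_top (by omega)]
      nlinarith [ih]
  have e1 : ((∑ i, ∑ n ∈ lv p own cen i, n : ℕ) : ℤ) + ((∑ i, m i * cen i : ℕ) : ℤ) =
      ((∑ x ∈ Ico s (s + ∑ i, m i), x : ℕ) : ℤ) := by
    rw [← Nat.cast_add, h1]
  have e2 : ((∑ n ∈ Icc 1 p, n : ℕ) : ℤ) = ((∑ i, ∑ n ∈ lv p own cen i, n : ℕ) : ℤ) +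
      ((∑ i, cen i : ℕ) : ℤ) := by
    rw [h4, Nat.cast_add]
  have e3 : ((∑ n ∈ Icc 1 p, n : ℕ) : ℤ) * 2 = p * (p + 1) := by
    exact_mod_cast h6
  have e4 : ((∑ x ∈ Ico s (s + ∑ i, m i), x : ℕ) : ℤ) * 2 + ((∑ i, m i : ℕ) : ℤ) =
      ((∑ i, m i : ℕ) : ℤ) * (2 * s + ((∑ i, m i : ℕ) : ℤ)) := by
    exact_mod_cast h9
  have e5 : ∑ i, ((m i : ℤ) - 1) * cen i = ((∑ i, m i * cen i : ℕ) : ℤ) -
      ((∑ i, cen i : ℕ) : ℤ) := by
    rw [Nat.cast_sum, Nat.cast_sum, ← sum_sub_distrib]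
    apply sum_congr rfl
    intro i _
    push_cast
    ring
  rw [e5]
  linear_combination (-1) * e3 + 2 * e2 + 2 * e1 + e4

end Lab

end Pool.Agent.StarF
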