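import Pool.Agent.StarF.Walk

/-!
# The walk used for the forests with a component `K_{1,2}` (MP_fb2988_co)
-/

set_option autoImplicit false

open Finset

namespace Pool.Agent.StarF

section
variable {d h : ℕ}

/-- the part before the column `d` -/
theorem St.left (L : ℕ → ℕ) : ∀ i : ℕ, L 0 + ∑ j ∈ range i, (2 * L (j + 1) + 1) ≤ d →
    St d h 0 (L 0 + ∑ j ∈ range i, (2 * L (j + 1) + 1)) i
      (fun x => (if x = 0 then L 0 else 0) + ∑ j ∈ range i,
        ((if x = (j : ℤ) + 1 then L (j + 1) + 1 else 0) +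
          (if x = -((j : ℤ) + 1) then L (j + 1) else 0))) := by
  intro i
  induction i with
  | zero =>
    intro hd
    have h0 : St d h 0 0 0 (fun _ => 0) := by
      refine ⟨fun _ => 0, fun r => by simp, ?_⟩
      intro z hz
      unfold DD at hz
      left
      push_cast at hz
      omega
    rw [sum_range_zero] at hd
    refine (h0.stays (L 0) (fun j a b => by omega)).congr (by simp) (fun x => by simp)
  | succ i ih =>
    intro hd
    rw [sum_range_succ] at hd
    have h1 := ih (by omega)
    have h2 := (h1.cyc (L (i + 1)) (fun j a b => by omega)).up (by omega)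
    refine h2.congr ?_ (fun x => ?_)
    · rw [sum_range_succ]
      ring
    · rw [sum_range_succ]
      have e1 : (x = 0 + (i : ℤ) + 1) ↔ (x = (i : ℤ) + 1) := by
        constructor <;> intro g <;> omega
      have e2 : (x = 0 - (i : ℤ) - 1) ↔ (x = -((i : ℤ) + 1)) := by
        constructor <;> intro g <;> omega
      simp only [e1, e2]
      by_cases g1 : x = (i : ℤ) + 1
      · simp only [g1, if_true]
        ring
      · simp only [g1, if_false]
        ring

/-- the part after the column `d` -/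
theorem St.right (R : ℕ → ℕ) : ∀ (i n : ℕ) (k : ℤ → ℕ), d < n → St d h 1 n i k →
    St d h 1 (n + ∑ j ∈ range i, (2 * R (j + 1) + 1)) 0
      (fun x => k x + ∑ j ∈ range i,
        ((if x = -(j : ℤ) then R (j + 1) + 1 else 0) +
          (if x = (j : ℤ) + 2 then R (j + 1) else 0))) := by
  intro i
  induction i with
  | zero =>
    intro n k _ w
    exact w.congr (by simp) (fun x => by simp)
  | succ i ih =>
    intro n k hd w
    have h1 := (w.down (by omega)).cyc (R (i + 1)) (fun j a b => by omega)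
    have h2 := ih _ _ (by omega) h1
    refine h2.congr ?_ (fun x => ?_)
    · rw [sum_range_succ]
      ring
    · rw [sum_range_succ]
      have e1 : (x = 1 - (i : ℤ) - 1) ↔ (x = -(i : ℤ)) := by
        constructor <;> intro g <;> omega
      have e2 : (x = 1 + (i : ℤ) + 1) ↔ (x = (i : ℤ) + 2) := by
        constructor <;> intro g <;> omega
      simp only [e1, e2]
      by_cases g1 : x = -(i : ℤ)
      · simp only [g1, if_true]
        ring
      · simp only [g1, if_false]
        ring

end

theorem sum_ite_one {h m : ℕ} (F : ℕ → ℕ) (P : ℕ → Prop) [DecidablePred P] (hm : m < h)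
    (hP : ∀ j, P j ↔ j = m) : ∑ j ∈ range h, (if P j then F j else 0) = F m := by
  simp only [hP]
  rw [sum_ite_eq' (range h) m F, if_pos (mem_range.2 hm)]

theorem sum_ite_none {h : ℕ} (F : ℕ → ℕ) (P : ℕ → Prop) [DecidablePred P]
    (hP : ∀ j, j < h → ¬ P j) : ∑ j ∈ range h, (if P j then F j else 0) = 0 := by
  apply sum_eq_zero
  intro j hj
  rw [if_neg (hP j (mem_range.1 hj))]

/-- the whole word -/
theorem exists_word (h : ℕ) (L R : ℕ → ℕ) (hL : L h = 0) (hR : R h = 0) :
    ∃ (d n : ℕ) (f : ℕ → ℤ), d < n ∧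
      (∀ j, j < h → ((range n).filter fun a => a ≠ d ∧ f a = -(j : ℤ)).card =
        L j + R (j + 1) + 1) ∧
      (∀ j, j < h → ((range n).filter fun a => a ≠ d ∧ f a = (j : ℤ) + 1).card =
        R j + L (j + 1) + 1) ∧
      (∀ a, a < n → a ≠ d → -(h : ℤ) < f a ∧ f a ≤ h) ∧
      ∀ z : ℤ, 0 ≤ z → z < (n : ℤ) + 1 → z = d - h ∨ z = d + h + 1 ∨
        ∃ j, j < n ∧ j ≠ d ∧ (j : ℤ) + f j = z := by
  set d : ℕ := L 0 + ∑ j ∈ range h, (2 * L (j + 1) + 1) with hd
  have h1 : St d h 0 d h _ := St.left (d := d) (h := h) L h le_rfl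
  unfold St at h1
  rw [add_zero] at h1
  have h2 := Wd.col h1
  have e : (((d + 1 : ℕ) : ℤ) + 1) = (d : ℤ) + 2 := by push_cast; ring
  rw [← e] at h2
  have h3 : St d h 1 (d + 1) h _ := h2
  have h4 := (St.right R h (d + 1) _ (Nat.lt_succ_self d) h3).stays (R 0)
    (fun j a b => by omega)
  set n : ℕ := d + 1 + ∑ j ∈ range h, (2 * R (j + 1) + 1) + R 0 with hn
  obtain ⟨f, g1, g2⟩ := h4
  have gd : d < n := by omega
  refine ⟨d, n, f, gd, ?_, ?_, ?_, ?_⟩
  · intro j hj
    rw [g1]
    simp only [sum_add_distrib]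
    have a3 : ∑ a ∈ range h, (if -(j : ℤ) = -(a : ℤ) then R (a + 1) + 1 else 0) =
        R (j + 1) + 1 := sum_ite_one (fun a => R (a + 1) + 1) _ hj
      (fun a => by constructor <;> intro g <;> omega)
    have a1 : ∑ a ∈ range h, (if -(j : ℤ) = (a : ℤ) + 1 then L (a + 1) + 1 else 0) = 0 :=
      sum_ite_none _ _ (fun a _ => by omega)
    have a4 : ∑ a ∈ range h, (if -(j : ℤ) = (a : ℤ) + 2 then R (a + 1) else 0) = 0 :=
      sum_ite_none _ _ (fun a _ => by omega)
    have a5 : ¬ (-(j : ℤ) = 1) := by omega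
    rw [a1, a3, a4, if_neg a5]
    rcases Nat.eq_zero_or_pos j with g | g
    · subst g
      have a2 : ∑ a ∈ range h, (if -((0 : ℕ) : ℤ) = -((a : ℤ) + 1) then L (a + 1) else 0) = 0 :=
        sum_ite_none _ _ (fun a _ => by omega)
      rw [a2]
      simp
      omega
    · obtain ⟨b, rfl⟩ : ∃ b, j = b + 1 := ⟨j - 1, by omega⟩
      have a2 : ∑ a ∈ range h, (if -((b + 1 : ℕ) : ℤ) = -((a : ℤ) + 1) then L (a + 1) else 0) =
          L (b + 1) := sum_ite_one (fun a => L (a + 1)) _ (by omega)
        (fun a => by constructor <;> intro g <;> omega)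
      rw [a2, if_neg (by omega)]
      omega
  · intro j hj
    rw [g1]
    simp only [sum_add_distrib]
    have a1 : ∑ a ∈ range h, (if (j : ℤ) + 1 = (a : ℤ) + 1 then L (a + 1) + 1 else 0) =
        L (j + 1) + 1 := sum_ite_one (fun a => L (a + 1) + 1) _ hj
      (fun a => by constructor <;> intro g <;> omega)
    have a2 : ∑ a ∈ range h, (if (j : ℤ) + 1 = -((a : ℤ) + 1) then L (a + 1) else 0) = 0 :=
      sum_ite_none _ _ (fun a _ => by omega)
    have a3 : ∑ a ∈ range h, (if (j : ℤ) + 1 = -(a : ℤ) then R (a + 1) + 1 else 0) = 0 :=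
      sum_ite_none _ _ (fun a _ => by omega)
    have a0 : ¬ ((j : ℤ) + 1 = 0) := by omega
    rw [a1, a2, a3, if_neg a0]
    rcases Nat.eq_zero_or_pos j with g | g
    · subst g
      have a4 : ∑ a ∈ range h, (if ((0 : ℕ) : ℤ) + 1 = (a : ℤ) + 2 then R (a + 1) else 0) = 0 :=
        sum_ite_none _ _ (fun a _ => by omega)
      rw [a4]
      simp
      omega
    · obtain ⟨b, rfl⟩ : ∃ b, j = b + 1 := ⟨j - 1, by omega⟩
      have a4 : ∑ a ∈ range h, (if ((b + 1 : ℕ) : ℤ) + 1 = (a : ℤ) + 2 then R (a + 1) else 0) =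
          R (b + 1) := sum_ite_one (fun a => R (a + 1)) _ (by omega)
        (fun a => by constructor <;> intro g <;> omega)
      rw [a4, if_neg (by omega)]
      omega
  · intro a ha had
    by_contra hcon
    have h5 := g1 (f a)
    have h6 : ((range n).filter fun j => j ≠ d ∧ f j = f a).card ≠ 0 := by
      rw [ne_eq, card_eq_zero]
      intro h7
      have h8 : a ∈ ((range n).filter fun j => j ≠ d ∧ f j = f a) :=
        mem_filter.2 ⟨mem_range.2 ha, had, rfl⟩
      rw [h7] at h8
      exact absurd h8 (notMem_empty a)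
    apply h6
    rw [h5]
    simp only [sum_add_distrib]
    have b0 : ∀ j, j < h → (if f a = -((j : ℤ) + 1) then L (j + 1) else 0) = 0 := by
      intro j hj
      by_cases g : f a = -((j : ℤ) + 1)
      · have : j + 1 = h := by omega
        rw [if_pos g, this, hL]
      · rw [if_neg g]
    have b1 : ∀ j, j < h → (if f a = (j : ℤ) + 2 then R (j + 1) else 0) = 0 := by
      intro j hj
      by_cases g : f a = (j : ℤ) + 2
      · have : j + 1 = h := by omega
        rw [if_pos g, this, hR]
      · rw [if_neg g]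
    have c1 : ∑ j ∈ range h, (if f a = (j : ℤ) + 1 then L (j + 1) + 1 else 0) = 0 :=
      sum_ite_none _ _ (fun j hj => by omega)
    have c2 : ∑ j ∈ range h, (if f a = -((j : ℤ) + 1) then L (j + 1) else 0) = 0 :=
      sum_eq_zero (fun j hj => b0 j (mem_range.1 hj))
    have c3 : ∑ j ∈ range h, (if f a = -(j : ℤ) then R (j + 1) + 1 else 0) = 0 :=
      sum_ite_none _ _ (fun j hj => by omega)
    have c4 : ∑ j ∈ range h, (if f a = (j : ℤ) + 2 then R (j + 1) else 0) = 0 :=
      sum_eq_zero (fun j hj => b1 j (mem_range.1 hj))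
    rw [c1, c2, c3, c4]
    have c5 : (if f a = 0 then L 0 else 0) = 0 := by
      by_cases g : f a = 0
      · have g5 : h = 0 := by omega
        rw [if_pos g]
        rw [g5] at hL
        exact hL
      · rw [if_neg g]
    have c6 : (if f a = 1 then R 0 else 0) = 0 := by
      by_cases g : f a = 1
      · have g5 : h = 0 := by omega
        rw [if_pos g]
        rw [g5] at hR
        exact hR
      · rw [if_neg g]
    rw [c5, c6]
    rfl
  · intro z hz1 hz2
    have h5 : DD ((n : ℤ) + 1) (0 : ℕ) z := by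
      unfold DD
      left
      push_cast
      omega
    rcases g2 z h5 with g | g
    · omega
    · exact g

/-- the multiplicities of the walk -/
theorem exists_mult : ∀ (h : ℕ) (x y : ℕ → ℕ), (∀ j, j + 1 < h → y (j + 1) ≤ x j ∧
    x (j + 1) ≤ y j) → ∃ L R : ℕ → ℕ, L h = 0 ∧ R h = 0 ∧
      ∀ j, j < h → L j + R (j + 1) = x j ∧ R j + L (j + 1) = y j := by
  intro h
  induction h with
  | zero =>
    intro x y _
    exact ⟨fun _ => 0, fun _ => 0, rfl, rfl, fun j hj => absurd hj (Nat.not_lt_zero j)⟩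
  | succ h ih =>
    intro x y hxy
    obtain ⟨L, R, h1, h2, h3⟩ := ih (fun j => x (j + 1)) (fun j => y (j + 1))
      (fun j hj => hxy (j + 1) (by omega))
    have hR0 : R 0 ≤ x 0 ∧ L 0 ≤ y 0 := by
      rcases Nat.eq_zero_or_pos h with g | g
      · subst g
        omega
      · have g1 := h3 0 g
        have g2 := hxy 0 (by omega)
        simp only [zero_add] at g1 g2
        omega
    refine ⟨fun j => Nat.casesOn j (x 0 - R 0) (fun b => L b),
      fun j => Nat.casesOn j (y 0 - L 0) (fun b => R b), h1, h2, ?_⟩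
    intro j hj
    rcases Nat.eq_zero_or_pos j with g | g
    · subst g
      show x 0 - R 0 + R 0 = x 0 ∧ y 0 - L 0 + L 0 = y 0
      omega
    · obtain ⟨b, rfl⟩ : ∃ b, j = b + 1 := ⟨j - 1, by omega⟩
      exact h3 b (by omega)

end Pool.Agent.StarF
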