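import Pool.Agent.StarF.Cong

/-!
# Five stars: the low end (MP_fb2988_co)
-/

set_option autoImplicit false

open Finset

namespace Pool.Agent.StarF

variable {m : Fin 5 → ℕ} {p a s : ℕ} {own : ℕ → Fin 5} {cen : Fin 5 → ℕ}

namespace Lab

theorem cen_inj5 (L : Lab m p a s own cen) {i j : Fin 5} (h : cen i = cen j) : i = j := by
  rw [← L.own_cen i, h, L.own_cen j]

/-- the case `s = a + 4`: no centre has one of the positions `1, 2, 4, .., 8` -/
def Far (a : ℕ) (cen : Fin 5 → ℕ) : Prop := ∀ i, pos a (cen i) = 3 ∨ 9 ≤ pos a (cen i)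

/-- the number of centres `≤ a` and of the others -/
theorem a_ge (L : Lab m p a s own cen) (hm : ∀ i, 1 ≤ m i) : 5 ≤ a := by
  have h1 := L.a_eq
  have h2 : (univ.filter fun i => ¬ cen i ≤ a).card ≤
      ∑ i ∈ univ.filter (fun i => ¬ cen i ≤ a), m i := by
    rw [card_eq_sum_ones]
    exact sum_le_sum fun i _ => hm i
  have h3 := card_filter_add_card_filter_not (s := (univ : Finset (Fin 5))) (fun i => cen i ≤ a)
  rw [card_univ, Fintype.card_fin] at h3
  omega

theorem exists_col (L : Lab m p a s own cen) (hf : Far a cen) : ∃ i, a < cen i := by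
  by_contra hcon
  push Not at hcon
  have h1 := L.a_eq
  have h2 : univ.filter (fun i => cen i ≤ a) = (univ : Finset (Fin 5)) :=
    filter_true_of_mem fun i _ => hcon i
  have h3 : univ.filter (fun i => ¬ cen i ≤ a) = (∅ : Finset (Fin 5)) :=
    filter_false_of_mem fun i _ => not_not.2 (hcon i)
  rw [h2, h3, card_univ, Fintype.card_fin, sum_empty] at h1
  have h4 : ∀ i, cen i = 3 := by
    intro i
    have h5 := hf i
    have h6 := hcon i
    unfold pos at h5
    rw [if_pos h6] at h5
    omega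
  have h5 := L.cen_inj5 ((h4 0).trans (h4 1).symm)
  exact absurd h5 (by decide)

/-- the smallest column centre -/
theorem exists_min (L : Lab m p a s own cen) (hf : Far a cen) :
    ∃ c, a < cen c ∧ ∀ i, a < cen i → cen c ≤ cen i := by
  obtain ⟨i, hi⟩ := L.exists_col hf
  obtain ⟨c, hc, hmin⟩ := exists_min_image (univ.filter fun i => a < cen i) cen
    ⟨i, mem_filter.2 ⟨mem_univ i, hi⟩⟩
  exact ⟨c, (mem_filter.1 hc).2, fun j hj => hmin j (mem_filter.2 ⟨mem_univ j, hj⟩)⟩

/-- Claim 1 -/
theorem low_left (L : Lab m p a s own cen) (hm : ∀ i, 1 ≤ m i) (hs : s = a + 4) (hf : Far a cen)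
    {B : Fin 5} (hB : cen B = 3) {c : Fin 5} (hmin : ∀ i, a < cen i → cen c ≤ cen i) :
    ∀ v, 1 ≤ v → a + v + 3 ≤ cen c → own (a + v) = B := by
  have ha := L.a_ge hm
  have hp := L.p_eq
  have hcp := L.cenp c
  intro v
  induction v using Nat.strong_induction_on with
  | _ v ih =>
    intro h1 h2
    obtain ⟨n, g1, g2, g3, g4⟩ := L.cov (x := a + v + 3) (by omega) (by omega)
    have c1 := L.cen1 (own n)
    rcases L.opp g1 g2 g3 with ⟨g5, g6⟩ | ⟨g5, g6⟩
    · exfalso
      have g7 := hmin _ g6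
      omega
    · have g7 := hf (own n)
      unfold pos at g7
      rw [if_pos g6] at g7
      rcases g7 with g7 | g7
      · have g8 : n = a + v := by omega
        rw [← g8]
        rw [← L.own_cen (own n), g7, ← hB, L.own_cen]
      · exfalso
        have g8 : n = a + (n - a) := by omega
        have g9 := ih (n - a) (by omega) (by omega) (by omega)
        rw [← g8] at g9
        rw [g9, hB] at g7
        omega

/-- Claim 2 -/
theorem low_next (L : Lab m p a s own cen) (hm : ∀ i, 1 ≤ m i) (hs : s = a + 4) (hf : Far a cen)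
    {B : Fin 5} (hB : cen B = 3) {c : Fin 5} (hc : a < cen c)
    (hmin : ∀ i, a < cen i → cen c ≤ cen i) : ∃ d, cen d = cen c + 1 ∨ cen d = cen c + 2 := by
  have ha := L.a_ge hm
  have hp := L.p_eq
  have hcp := L.cenp c
  obtain ⟨n, g1, g2, g3, g4⟩ := L.cov (x := cen c + 3) (by omega) (by omega)
  have c1 := L.cen1 (own n)
  rcases L.opp g1 g2 g3 with ⟨g5, g6⟩ | ⟨g5, g6⟩
  · have g7 := hmin _ g6
    have g8 : n ≠ 3 := by
      intro h
      exact L.ne_cen g3 B (h.trans hB.symm)
    exact ⟨own n, by omega⟩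
  · exfalso
    have g7 := hf (own n)
    unfold pos at g7
    rw [if_pos g6] at g7
    rcases g7 with g7 | g7
    · exact L.ne_cen g3 c (by omega)
    · have g8 : n = a + (n - a) := by omega
      have g9 := L.low_left hm hs hf hB hmin (n - a) (by omega) (by omega)
      rw [← g8] at g9
      rw [g9, hB] at g7
      omega

/-- sum `4`: the position `3` is a centre on one side -/
theorem low_cen (L : Lab m p a s own cen) (hm : ∀ i, 1 ≤ m i) (hs : s = a + 4) (hf : Far a cen) :
    ∃ B, cen B = 3 ∨ cen B = a + 3 := by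
  have ha := L.a_ge hm
  have hq := q_pos hm (by omega)
  obtain ⟨n, g1, g2, g3, g4⟩ := L.cov (x := a + 4) (by omega) (by omega)
  have c1 := L.cen1 (own n)
  have g7 := hf (own n)
  unfold pos at g7
  rcases L.opp g1 g2 g3 with ⟨g5, g6⟩ | ⟨g5, g6⟩
  · rw [if_neg (by omega)] at g7
    exact ⟨own n, Or.inr (by omega)⟩
  · rw [if_pos g6] at g7
    exact ⟨own n, Or.inl (by omega)⟩

end Lab

end Pool.Agent.StarF
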