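import Pool.Agent.StarF.Nec3
import Pool.Agent.StarF.Div
import Pool.Agent.StarF.Fam

/-!
# Star forests: the theorems (MP_fb2988_co)
-/

set_option autoImplicit false

open Finset

namespace Pool.Agent.StarF

theorem of_perm3 (m : Fin 3 → ℕ) {x y z : Fin 3} (h1 : x ≠ y) (h2 : y ≠ z) (h3 : z ≠ x)
    (h : IsSSEM (starForest ![m x, m y, m z])) : IsSSEM (starForest m) := by
  have hinj : Function.Injective (![x, y, z] : Fin 3 → Fin 3) := by
    intro i j hij
    fin_cases i <;> fin_cases j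
    · rfl
    · exact absurd hij h1
    · exact absurd hij h3.symm
    · exact absurd hij h1.symm
    · rfl
    · exact absurd hij h2
    · exact absurd hij h3
    · exact absurd hij h2.symm
    · rfl
  have hbij := Finite.injective_iff_bijective.1 hinj
  apply ssem_perm (by omega) (Equiv.ofBijective _ hbij)
  have : (fun i => m ((Equiv.ofBijective _ hbij) i)) = ![m x, m y, m z] := by
    funext i
    fin_cases i <;> rfl
  have key : ∀ m' : Fin 3 → ℕ, m' = ![m x, m y, m z] → IsSSEM (starForest m') := by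
    rintro _ rfl
    exact h
  exact key _ this

private theorem dec1 : ∀ x y : Fin 3, x ≠ y → ∃ z : Fin 3, y ≠ z ∧ z ≠ x := by decide

private theorem dec2 : ∀ x : Fin 3, ∃ y z : Fin 3, x ≠ y ∧ y ≠ z ∧ z ≠ x := by decide

/-- the classification for three stars -/
theorem three_iff (m : Fin 3 → ℕ) (hm : ∀ i, 1 ≤ m i) : IsSSEM (starForest m) ↔
    (∃ i j, i ≠ j ∧ m i = m j) ∨ (∃ i, m i ≤ 2) ∨
      ∃ x y z : Fin 3, x ≠ y ∧ y ≠ z ∧ z ≠ x ∧
        ∃ k l, m x = k * m z + l ∧ m y = k + l * m z := by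
  constructor
  · intro h
    obtain ⟨p, a, s, own, cen, L⟩ := exists_lab (by omega) m h
    exact L.nec3 hm
  · rintro (⟨x, y, hxy, h⟩ | ⟨x, h⟩ | ⟨x, y, z, h1, h2, h3, k, l, h4, h5⟩)
    · obtain ⟨z, h2, h3⟩ := dec1 x y hxy
      apply of_perm3 m hxy h2 h3
      rw [← h]
      exact fam1 (m x) (m z)
    · obtain ⟨y, z, h1, h2, h3⟩ := dec2 x
      apply of_perm3 m h1 h2 h3
      have h4 := hm x
      have h5 : m x = 1 ∨ m x = 2 := by omega
      rcases h5 with h5 | h5
      · rw [h5]
        exact fam2 (m z) (m y)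
      · rw [h5]
        exact fam3 (hm y) (hm z)
    · apply of_perm3 m h1 h2 h3
      rw [h4, h5]
      exact fam4 (m z) k l (hm z)

end Pool.Agent.StarF
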