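import Pool.Agent.StarF.Cnt
import Pool.Agent.StarF.Gcd

/-!
# Star forests: three stars, necessity (MP_fb2988_co)
-/

set_option autoImplicit false

open Finset

namespace Pool.Agent.StarF

variable {m : Fin 3 → ℕ} {p a s : ℕ} {own : ℕ → Fin 3} {cen : Fin 3 → ℕ}

namespace Lab

theorem g3 (L : Lab m p a s own cen) (hm : ∀ i, 1 ≤ m i) {x y z : Fin 3}
    (hall : ∀ i, i = x ∨ i = y ∨ i = z) (hxy : cen x < cen y) (hya : cen y ≤ a)
    (hz : a < cen z) : G3 a (p - a) (cen z - a) (cen x) (cen y) (fun j => own (a + j) = x) := by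
  have hp := L.p_eq
  have hl := L.lower hm (by omega)
  have hu := L.upper hm (by omega)
  have ha := L.ha
  have h1 := L.cen1 x
  have h2 := L.cenp z
  -- rows
  have hrow : ∀ i, 1 ≤ i → i ≤ a → i ≠ cen x → i ≠ cen y → i ≠ cen (own i) ∧ own i = z := by
    intro i g1 g2 g3 g4
    have g5 : i ≠ cen (own i) := by
      intro g6
      rcases hall (own i) with h | h | h <;> rw [h] at g6 <;> omega
    refine ⟨g5, ?_⟩
    rcases L.opp g1 (by omega) g5 with ⟨g6, g7⟩ | ⟨g6, g7⟩
    · rcases hall (own i) with h | h | h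
      · rw [h] at g7
        omega
      · rw [h] at g7
        omega
      · exact h
    · omega
  -- columns
  have hcol : ∀ j, 1 ≤ j → j ≤ p - a → j ≠ cen z - a → a + j ≠ cen (own (a + j)) ∧
      (own (a + j) = x ∨ own (a + j) = y) := by
    intro j g1 g2 g3
    have g5 : a + j ≠ cen (own (a + j)) := by
      intro g6
      rcases hall (own (a + j)) with h | h | h <;> rw [h] at g6 <;> omega
    refine ⟨g5, ?_⟩
    rcases L.opp (by omega) (by omega) g5 with ⟨g6, g7⟩ | ⟨g6, g7⟩
    · omega
    · rcases hall (own (a + j)) with h | h | h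
      · exact Or.inl h
      · exact Or.inr h
      · rw [h] at g7
        omega
  have hxyne : x ≠ y := by
    intro h
    rw [h] at hxy
    omega
  refine ⟨h1, hxy, hya, by omega, by omega, ?_, ?_, ?_, ?_, ?_, ?_, ?_⟩
  · intro v g1 g2
    obtain ⟨n, g3, g4, g5, g6⟩ := L.cov (x := v + a) (by omega) (by omega)
    rcases L.opp g3 g4 g5 with ⟨g7, g8⟩ | ⟨g7, g8⟩
    · left
      refine ⟨n, g3, g7, L.ne_cen g5 x, L.ne_cen g5 y, ?_⟩
      rw [(hrow n g3 g7 (L.ne_cen g5 x) (L.ne_cen g5 y)).2] at g6 g8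
      omega
    · right
      have e1 : a + (n - a) = n := by omega
      have g9 := hcol (n - a) (by omega) (by omega) (by have := L.ne_cen g5 z; omega)
      rw [e1] at g9
      rcases g9.2 with h | h
      · left
        refine ⟨n - a, by omega, by omega, by have := L.ne_cen g5 z; omega, ?_, ?_⟩
        · show own (a + (n - a)) = x
          rw [e1]
          exact h
        · rw [h] at g6
          omega
      · right
        refine ⟨n - a, by omega, by omega, by have := L.ne_cen g5 z; omega, ?_, ?_⟩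
        · show ¬ own (a + (n - a)) = x
          rw [e1, h]
          exact hxyne.symm
        · rw [h] at g6
          omega
  · intro i g1 g2 g3 g4
    obtain ⟨g5, g6⟩ := hrow i g1 g2 g3 g4
    have g7 := L.rng g1 (by omega) g5
    rw [g6] at g7
    omega
  · intro j g1 g2 g3 g4
    obtain ⟨g5, g6⟩ := hcol j g1 g2 g3
    have g7 := L.rng (n := a + j) (by omega) (by omega) g5
    rw [g4] at g7
    omega
  · intro j g1 g2 g3 g4
    obtain ⟨g5, g6⟩ := hcol j g1 g2 g3
    have g7 := L.rng (n := a + j) (by omega) (by omega) g5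
    rw [g6.resolve_left g4] at g7
    omega
  · intro i j g1 g2 g3 g4 g5 g6 g7 g8 g9
    obtain ⟨q1, q2⟩ := hrow i g1 g2 g3 g4
    obtain ⟨q3, q4⟩ := hcol j g5 g6 g7
    have q5 := L.inj g1 (by omega) q1 (n' := a + j) (by omega) (by omega) q3 (by
      rw [q2, g8]
      omega)
    omega
  · intro i j g1 g2 g3 g4 g5 g6 g7 g8 g9
    obtain ⟨q1, q2⟩ := hrow i g1 g2 g3 g4
    obtain ⟨q3, q4⟩ := hcol j g5 g6 g7
    have q5 := L.inj g1 (by omega) q1 (n' := a + j) (by omega) (by omega) q3 (by
      rw [q2, q4.resolve_left g8]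
      omega)
    omega
  · intro j j' g1 g2 g3 g4 g5 g6 g7 g8 g9
    obtain ⟨q1, q2⟩ := hcol j g1 g2 g3
    obtain ⟨q3, q4⟩ := hcol j' g5 g6 g7
    have q5 := L.inj (n := a + j) (by omega) (by omega) q1 (n' := a + j') (by omega) (by omega) q3 (by
      rw [g4, q4.resolve_left g8]
      omega)
    have q6 : j = j' := by omega
    rw [q6] at g4
    exact g8 g4

/-- the columns of a star with a row centre -/
theorem colSet (L : Lab m p a s own cen) {x z : Fin 3} (hxa : cen x ≤ a) (hz : a < cen z) :
    ∃ T : Finset ℕ, (∀ j, j ∈ T ↔ (1 ≤ j ∧ j ≤ p - a) ∧ j ≠ cen z - a ∧ own (a + j) = x) ∧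
      T.card = m x := by
  have ha := L.ha
  have hlv : ∀ n ∈ lv p own cen x, a < n := by
    intro n hn
    rw [L.mem_lv] at hn
    obtain ⟨⟨g1, g2⟩, g3, g4⟩ := hn
    rcases L.opp g1 g2 g3 with ⟨g5, g6⟩ | ⟨g5, g6⟩
    · rw [g4] at g6
      omega
    · exact g5
  refine ⟨(lv p own cen x).image fun n => n - a, ?_, ?_⟩
  · intro j
    rw [mem_image]
    constructor
    · rintro ⟨n, hn, rfl⟩
      have h1 := hlv n hn
      rw [L.mem_lv] at hn
      obtain ⟨⟨g1, g2⟩, g3, g4⟩ := hn
      have e1 : a + (n - a) = n := by omega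
      rw [e1]
      refine ⟨⟨by omega, by omega⟩, ?_, g4⟩
      have := L.ne_cen g3 z
      omega
    · rintro ⟨⟨g1, g2⟩, g3, g4⟩
      refine ⟨a + j, ?_, by omega⟩
      rw [L.mem_lv]
      refine ⟨⟨by omega, by omega⟩, ?_, g4⟩
      rw [g4]
      omega
  · rw [card_image_of_injOn, L.lv_card]
    intro n hn n' hn' h
    have h1 := hlv n hn
    have h2 := hlv n' hn'
    simp only at h
    omega

theorem a_two (L : Lab m p a s own cen) {x y z : Fin 3}
    (hall : ∀ i, i = x ∨ i = y ∨ i = z) (hxy : cen x < cen y) (hya : cen y ≤ a)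
    (hz : a < cen z) : a = m z + 2 := by
  have h1 := L.a_eq
  have h2 : (univ.filter fun i => cen i ≤ a) = {x, y} := by
    ext i
    rw [mem_filter, mem_insert, mem_singleton]
    constructor
    · rintro ⟨-, h⟩
      rcases hall i with h' | h' | h'
      · exact Or.inl h'
      · exact Or.inr h'
      · rw [h'] at h
        omega
    · rintro (rfl | rfl)
      · exact ⟨mem_univ _, by omega⟩
      · exact ⟨mem_univ _, hya⟩
  have h3 : (univ.filter fun i => ¬ cen i ≤ a) = {z} := by
    ext i
    rw [mem_filter, mem_singleton]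
    constructor
    · rintro ⟨-, h⟩
      rcases hall i with h' | h' | h'
      · rw [h'] at h
        omega
      · rw [h'] at h
        omega
      · exact h'
    · rintro rfl
      exact ⟨mem_univ _, by omega⟩
  rw [h2, h3, sum_singleton, card_pair] at h1
  · omega
  · intro h
    rw [h] at hxy
    omega

/-- two row centres -/
theorem case_two (L : Lab m p a s own cen) (hm : ∀ i, 3 ≤ m i) {x y z : Fin 3}
    (hall : ∀ i, i = x ∨ i = y ∨ i = z) (hxy : cen x < cen y) (hya : cen y ≤ a)
    (hz : a < cen z) : ∃ k l, m x = k * m z + l ∧ m y = k + l * m z := by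
  have hm1 : ∀ i, 1 ≤ m i := fun i => by have := hm i; omega
  have G := L.g3 hm1 hall hxy hya hz
  have ha := L.a_two hall hxy hya hz
  obtain ⟨T, hT, hTc⟩ := L.colSet (x := x) (by omega) hz
  obtain ⟨T', hT', hTc'⟩ := L.colSet (x := y) (by omega) hz
  have hxyne : x ≠ y := by
    intro h
    rw [h] at hxy
    omega
  have h1 := L.ha
  have h2 := L.cenp z
  have hT'' : ∀ j, j ∈ T' ↔ (1 ≤ j ∧ j ≤ p - a) ∧ j ≠ cen z - a ∧ ¬ own (a + j) = x := by
    intro j
    rw [hT']
    constructor
    · rintro ⟨g1, g2, g3⟩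
      refine ⟨g1, g2, ?_⟩
      rw [g3]
      exact hxyne.symm
    · rintro ⟨g1, g2, g3⟩
      refine ⟨g1, g2, ?_⟩
      have g5 : a + j ≠ cen (own (a + j)) := by
        intro g6
        rcases hall (own (a + j)) with h | h | h <;> rw [h] at g6 <;> omega
      rcases L.opp (by omega) (by omega) g5 with ⟨g6, g7⟩ | ⟨g6, g7⟩
      · omega
      · rcases hall (own (a + j)) with h | h | h
        · exact absurd h g3
        · exact h
        · rw [h] at g7
          omega
  have hmx := hm x
  have hmy := hm y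
  have hmz := hm z
  have hb : 4 ≤ p - a := by
    have g1 : T.card ≤ (Icc 1 (p - a)).card := by
      apply card_le_card
      intro j hj
      rw [hT] at hj
      exact mem_Icc.2 hj.1
    rw [Nat.card_Icc] at g1
    have g2 : T'.card ≤ ((Icc 1 (p - a)) \ T).card := by
      apply card_le_card
      intro j hj
      rw [hT''] at hj
      rw [mem_sdiff, mem_Icc, hT]
      exact ⟨hj.1, fun h => hj.2.2 h.2.2⟩
    rw [card_sdiff_of_subset, Nat.card_Icc] at g2
    · omega
    · intro j hj
      rw [hT] at hj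
      exact mem_Icc.2 hj.1
  -- a set with all elements equal
  have hone : ∀ S : Finset ℕ, 3 ≤ S.card → ¬ ∃ j0, ∀ j ∈ S, j = j0 := by
    rintro S hS ⟨j0, hj0⟩
    have : S.card ≤ ({j0} : Finset ℕ).card := by
      apply card_le_card
      intro j hj
      rw [mem_singleton]
      exact hj0 j hj
    rw [card_singleton] at this
    omega
  -- `r1 = 1`
  have hr1 : cen x = 1 := by
    by_contra h
    have h3 := L.cen1 x
    rcases G.left (by omega) hb (by omega) with ⟨j0, hj⟩ | ⟨j0, hj⟩
    · apply hone T (by omega)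
      refine ⟨j0, fun j hj' => ?_⟩
      rw [hT] at hj'
      exact hj j hj'.1.1 hj'.1.2 hj'.2.1 hj'.2.2
    · apply hone T' (by omega)
      refine ⟨j0, fun j hj' => ?_⟩
      rw [hT''] at hj'
      exact hj j hj'.1.1 hj'.1.2 hj'.2.1 hj'.2.2
  -- `r2 = a`
  have hr2 : cen y = a := by
    by_contra h
    have h4 : cen z - a ≤ p - a := by omega
    rcases G.refl.left (by omega) hb (by omega) with ⟨j0, hj⟩ | ⟨j0, hj⟩
    · apply hone T' (by omega)
      refine ⟨p - a + 1 - j0, fun j hj' => ?_⟩
      rw [hT''] at hj'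
      obtain ⟨⟨g1, g2⟩, g3, g4⟩ := hj'
      have e1 : p - a + 1 - (p - a + 1 - j) = j := by omega
      have := hj (p - a + 1 - j) (by omega) (by omega) (by omega) (by rw [e1]; exact g4)
      omega
    · apply hone T (by omega)
      refine ⟨p - a + 1 - j0, fun j hj' => ?_⟩
      rw [hT] at hj'
      obtain ⟨⟨g1, g2⟩, g3, g4⟩ := hj'
      have e1 : p - a + 1 - (p - a + 1 - j) = j := by omega
      have := hj (p - a + 1 - j) (by omega) (by omega) (by omega)
        (by rw [e1]; exact fun h => h g4)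
      omega
  rw [hr1, hr2] at G
  obtain ⟨k, l, h5, h6⟩ := G.countA (by omega)
  have h7 := h5 T hT
  have h8 := h6 T' hT''
  have h9 : a - 2 = m z := by omega
  rw [h9] at h7 h8
  exact ⟨k, l, by omega, by omega⟩

end Lab

end Pool.Agent.StarF
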