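import Pool.Agent.StarF.Nec

/-!
# Star forests: three stars, necessity (MP_fb2988_co)
-/

set_option autoImplicit false

open Finset

namespace Pool.Agent.StarF

variable {m : Fin 3 → ℕ} {p a s : ℕ} {own : ℕ → Fin 3} {cen : Fin 3 → ℕ}

namespace Lab

theorem cen_inj (L : Lab m p a s own cen) {i j : Fin 3} (h : cen i = cen j) : i = j := by
  rw [← L.own_cen i, ← L.own_cen j, h]

theorem two (L : Lab m p a s own cen) (hm : ∀ i, 3 ≤ m i) {x y z : Fin 3}
    (hall : ∀ i, i = x ∨ i = y ∨ i = z) (hne : x ≠ y) (hx : cen x ≤ a) (hy : cen y ≤ a)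
    (hz : a < cen z) : ∃ k l, m x = k * m z + l ∧ m y = k + l * m z := by
  rcases Nat.lt_trichotomy (cen x) (cen y) with h | h | h
  · exact L.case_two hm hall h hy hz
  · exact absurd (L.cen_inj h) hne
  · obtain ⟨k, l, h1, h2⟩ := L.case_two hm (x := y) (y := x) (z := z)
      (fun i => by rcases hall i with h | h | h <;> tauto) h hx hz
    exact ⟨l, k, by omega, by omega⟩

theorem three (L : Lab m p a s own cen) (hm : ∀ i, 1 ≤ m i) (h : ∀ i, cen i ≤ a) :
    ∃ i j, i ≠ j ∧ m i = m j := by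
  have h1 := L.a_eq
  have h2 := L.total
  have h3 := L.p_eq
  have h4 := L.lower hm (by omega)
  have h5 := L.upper hm (by omega)
  have h6 : (univ.filter fun i => cen i ≤ a) = univ := by
    rw [filter_eq_self]
    exact fun i _ => h i
  have h7 : (univ.filter fun i => ¬ cen i ≤ a) = ∅ := by
    rw [filter_eq_empty_iff]
    exact fun i _ => not_not.2 (h i)
  rw [h6, h7, sum_empty, card_univ, Fintype.card_fin] at h1
  have hs : s = 6 := by omega
  have n01 : cen 0 ≠ cen 1 := fun e => absurd (L.cen_inj e) (by decide)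
  have n02 : cen 0 ≠ cen 2 := fun e => absurd (L.cen_inj e) (by decide)
  have n12 : cen 1 ≠ cen 2 := fun e => absurd (L.cen_inj e) (by decide)
  have b0 := h 0
  have b1 := h 1
  have b2 := h 2
  have c0 := L.cen1 0
  have c1 := L.cen1 1
  have c2 := L.cen1 2
  rw [Fin.sum_univ_three] at h2 h3
  rw [Fin.sum_univ_three] at h2
  rw [h3, hs] at h2
  push_cast at h2
  have h8 : ((m 0 : ℤ) - 1) * (cen 0 - 2) + ((m 1 : ℤ) - 1) * (cen 1 - 2) +
      ((m 2 : ℤ) - 1) * (cen 2 - 2) = 0 := by
    have e : 2 * (((m 0 : ℤ) - 1) * (cen 0 - 2) + ((m 1 : ℤ) - 1) * (cen 1 - 2) +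
      ((m 2 : ℤ) - 1) * (cen 2 - 2)) = 0 := by
      linear_combination h2
    omega
  have r0 : cen 0 = 1 ∨ cen 0 = 2 ∨ cen 0 = 3 := by omega
  have r1 : cen 1 = 1 ∨ cen 1 = 2 ∨ cen 1 = 3 := by omega
  have r2 : cen 2 = 1 ∨ cen 2 = 2 ∨ cen 2 = 3 := by omega
  have h9 : m 0 = m 1 ∨ m 0 = m 2 ∨ m 1 = m 2 := by
    clear h2 h6 h7 h
    rcases r0 with e0 | e0 | e0 <;> rcases r1 with e1 | e1 | e1 <;> rcases r2 with e2 | e2 | e2 <;>
      rw [e0, e1, e2] at h8 <;> push_cast at h8 <;> omega
  rcases h9 with e | e | e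
  · exact ⟨0, 1, by decide, e⟩
  · exact ⟨0, 2, by decide, e⟩
  · exact ⟨1, 2, by decide, e⟩

/-- necessity for three stars -/
theorem nec3 (L : Lab m p a s own cen) (hm : ∀ i, 1 ≤ m i) :
    (∃ i j, i ≠ j ∧ m i = m j) ∨ (∃ i, m i ≤ 2) ∨
      ∃ x y z : Fin 3, x ≠ y ∧ y ≠ z ∧ z ≠ x ∧ ∃ k l, m x = k * m z + l ∧ m y = k + l * m z := by
  by_cases h0 : ∃ i, m i ≤ 2
  · exact Or.inr (Or.inl h0)
  have hm3 : ∀ i, 3 ≤ m i := by
    intro i
    by_contra h
    exact h0 ⟨i, by omega⟩
  have L' := L.refl (q_pos hm (by omega))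
  have hp := L.p_eq
  have ha := L.ha
  have u0 := L.cenp 0
  have u1 := L.cenp 1
  have u2 := L.cenp 2
  by_cases g0 : cen 0 ≤ a <;> by_cases g1 : cen 1 ≤ a <;> by_cases g2 : cen 2 ≤ a
  · left
    apply L.three hm
    intro i
    fin_cases i
    · exact g0
    · exact g1
    · exact g2
  · right
    right
    exact ⟨0, 1, 2, by decide, by decide, by decide, L.two hm3 (by decide) (by decide) g0 g1 (by omega)⟩
  · right
    right
    exact ⟨0, 2, 1, by decide, by decide, by decide, L.two hm3 (by decide) (by decide) g0 g2 (by omega)⟩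
  · right
    right
    exact ⟨1, 2, 0, by decide, by decide, by decide,
      L'.two hm3 (by decide) (by decide) (by omega) (by omega) (by omega)⟩
  · right
    right
    exact ⟨1, 2, 0, by decide, by decide, by decide,
      L.two hm3 (by decide) (by decide) (by omega) (by omega) (by omega)⟩
  · right
    right
    exact ⟨0, 2, 1, by decide, by decide, by decide,
      L'.two hm3 (by decide) (by decide) (by omega) (by omega) (by omega)⟩
  · right
    right
    exact ⟨0, 1, 2, by decide, by decide, by decide,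
      L'.two hm3 (by decide) (by decide) (by omega) (by omega) (by omega)⟩
  · left
    apply L'.three hm
    intro i
    have := L.cenp i
    fin_cases i
    · show p + 1 - cen 0 ≤ p - a
      omega
    · show p + 1 - cen 1 ≤ p - a
      omega
    · show p + 1 - cen 2 ≤ p - a
      omega

end Lab

end Pool.Agent.StarF
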