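import Pool.Agent.StarF.Cong
import Pool.Agent.StarF.Abo

/-!
# Star forests with an odd number of stars: residue classes without labelings (MP_fb2988_co)
-/

set_option autoImplicit false

open Finset

namespace Pool.Agent.StarF

variable {t : ℕ} {m : Fin t → ℕ} {p a s : ℕ} {own : ℕ → Fin t} {cen : Fin t → ℕ}

/-- every centre has the position `g` or one of the positions from `2 g` on -/
def FarG (g a : ℕ) (cen : Fin t → ℕ) : Prop := ∀ i, pos a (cen i) = g ∨ 2 * g ≤ pos a (cen i)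

/-- the assumptions on the sizes: modulo `P x y`, the size of `x` is `2`, that of `y ≠ x` is `0`, the
others are `1` -/
structure Res (m : Fin t → ℕ) (P : Fin t → Fin t → ℕ) : Prop where
  big : ∀ x y, t * t + t < P x y
  one : ∀ x y i, i ≠ x → i ≠ y → (P x y : ℤ) ∣ (m i : ℤ) - 1
  fst : ∀ x y, (P x y : ℤ) ∣ (m x : ℤ) - 2
  snd : ∀ x y, x ≠ y → (P x y : ℤ) ∣ (m y : ℤ)

namespace Lab

theorem a_geG (L : Lab m p a s own cen) (hm : ∀ i, 1 ≤ m i) : t ≤ a := by
  have h1 := L.a_eq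
  have h2 : (univ.filter fun i => ¬ cen i ≤ a).card ≤
      ∑ i ∈ univ.filter (fun i => ¬ cen i ≤ a), m i := by
    rw [card_eq_sum_ones]
    exact sum_le_sum fun i _ => hm i
  have h3 := card_filter_add_card_filter_not (s := (univ : Finset (Fin t))) (fun i => cen i ≤ a)
  rw [card_univ, Fintype.card_fin] at h3
  omega

theorem exists_colG (L : Lab m p a s own cen) {g : ℕ} (ht : 2 ≤ t) (hg : t < 2 * g)
    (hf : FarG g a cen) : ∃ i, a < cen i := by
  by_contra hcon
  push Not at hcon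
  have h1 := L.a_eq
  have h2 : univ.filter (fun i => cen i ≤ a) = (univ : Finset (Fin t)) :=
    filter_true_of_mem fun i _ => hcon i
  have h3 : univ.filter (fun i => ¬ cen i ≤ a) = (∅ : Finset (Fin t)) :=
    filter_false_of_mem fun i _ => not_not.2 (hcon i)
  rw [h2, h3, card_univ, Fintype.card_fin, sum_empty] at h1
  have h4 : ∀ i, cen i = g := by
    intro i
    have h5 := hf i
    have h6 := hcon i
    unfold pos at h5
    rw [if_pos h6] at h5
    omega
  have h5 : (⟨0, by omega⟩ : Fin t) = ⟨1, by omega⟩ := by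
    rw [← L.own_cen ⟨0, by omega⟩, h4, ← h4 ⟨1, by omega⟩, L.own_cen]
  have h6 := Fin.mk.inj_iff.1 h5
  omega

/-- the smallest column centre -/
theorem exists_minG (L : Lab m p a s own cen) {g : ℕ} (ht : 2 ≤ t) (hg : t < 2 * g)
    (hf : FarG g a cen) : ∃ c, a < cen c ∧ ∀ i, a < cen i → cen c ≤ cen i := by
  obtain ⟨i, hi⟩ := L.exists_colG ht hg hf
  obtain ⟨c, hc, hmin⟩ := exists_min_image (univ.filter fun i => a < cen i) cen
    ⟨i, mem_filter.2 ⟨mem_univ i, hi⟩⟩
  exact ⟨c, (mem_filter.1 hc).2, fun j hj => hmin j (mem_filter.2 ⟨mem_univ j, hj⟩)⟩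

/-- Claim 1 -/
theorem low_leftG (L : Lab m p a s own cen) (hm : ∀ i, 1 ≤ m i) {g : ℕ} (hs : s = a + g + 1)
    (hf : FarG g a cen) {B : Fin t} (hB : cen B = g) {c : Fin t}
    (hmin : ∀ i, a < cen i → cen c ≤ cen i) :
    ∀ v, 1 ≤ v → a + v + g ≤ cen c → own (a + v) = B := by
  have ha := L.a_geG hm
  have hp := L.p_eq
  have hcp := L.cenp c
  have hg1 := L.cen1 B
  intro v
  induction v using Nat.strong_induction_on with
  | _ v ih =>
    intro h1 h2
    obtain ⟨n, g1, g2, g3, g4⟩ := L.cov (x := a + v + g) (by omega) (by omega)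
    have c1 := L.cen1 (own n)
    rcases L.opp g1 g2 g3 with ⟨g5, g6⟩ | ⟨g5, g6⟩
    · exfalso
      have g7 := hmin _ g6
      omega
    · have g7 := hf (own n)
      unfold pos at g7
      rw [if_pos g6] at g7
      rcases g7 with g7 | g7
      · have g8 : n = a + v := by omega
        rw [← g8]
        rw [← L.own_cen (own n), g7, ← hB, L.own_cen]
      · exfalso
        have g8 : n = a + (n - a) := by omega
        have g9 := ih (n - a) (by omega) (by omega) (by omega)
        rw [← g8] at g9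
        rw [g9, hB] at g7
        omega

/-- Claim 2 -/
theorem low_nextG (L : Lab m p a s own cen) (hm : ∀ i, 1 ≤ m i) {g : ℕ} (hs : s = a + g + 1)
    (hf : FarG g a cen) {B : Fin t} (hB : cen B = g) {c : Fin t} (hc : a < cen c)
    (hmin : ∀ i, a < cen i → cen c ≤ cen i) : ∃ d, cen c < cen d ∧ cen d < cen c + g := by
  have ha := L.a_geG hm
  have hp := L.p_eq
  have hcp := L.cenp c
  have hg1 := L.cen1 B
  obtain ⟨n, g1, g2, g3, g4⟩ := L.cov (x := cen c + g) (by omega) (by omega)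
  have c1 := L.cen1 (own n)
  rcases L.opp g1 g2 g3 with ⟨g5, g6⟩ | ⟨g5, g6⟩
  · have g7 := hmin _ g6
    have g8 : n ≠ g := by
      intro h
      exact L.ne_cen g3 B (h.trans hB.symm)
    exact ⟨own n, by omega, by omega⟩
  · exfalso
    have g7 := hf (own n)
    unfold pos at g7
    rw [if_pos g6] at g7
    rcases g7 with g7 | g7
    · exact L.ne_cen g3 c (by omega)
    · have g8 : n = a + (n - a) := by omega
      have g9 := L.low_leftG hm hs hf hB hmin (n - a) (by omega) (by omega)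
      rw [← g8] at g9
      rw [g9, hB] at g7
      omega

/-- the star with the first sum -/
theorem low_cenG (L : Lab m p a s own cen) (hq : 1 ≤ ∑ i, m i) :
    ∃ k, 1 ≤ pos a (cen k) ∧ a + pos a (cen k) < s := by
  obtain ⟨n, g1, g2, g3, g4⟩ := L.cov (x := s) (le_refl _) (by omega)
  have c1 := L.cen1 (own n)
  refine ⟨own n, ?_⟩
  unfold pos
  rcases L.opp g1 g2 g3 with ⟨g5, g6⟩ | ⟨g5, g6⟩
  · rw [if_neg (by omega)]
    omega
  · rw [if_pos g6]
    omega

/-- the congruence for a pair of centres on the same side -/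
theorem pairC (L : Lab m p a s own cen) (hs : 2 * ((s : ℤ) - a) - t - 3 = 0) {c d : Fin t}
    (hne : c ≠ d) (hc : a < cen c) (hd : a < cen d) {G : ℤ}
    (hG : ∀ i, i ≠ c → i ≠ d → G ∣ (m i : ℤ) - 1) (hcd : G ∣ ((m c : ℤ) - 1) + ((m d : ℤ) - 1)) :
    G ∣ ((m c : ℤ) - 1) * ((cen d : ℤ) - cen c) := by
  have h1 := L.ident
  rw [hs, mul_zero, sub_zero] at h1
  have h2 : G ∣ ∑ i ∈ univ.filter (fun i => ¬ cen i ≤ a), ((m i : ℤ) - 1) := by
    have hc' : c ∈ univ.filter (fun i => ¬ cen i ≤ a) := mem_filter.2 ⟨mem_univ c, by omega⟩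
    have hd' : d ∈ (univ.filter (fun i => ¬ cen i ≤ a)).erase c :=
      mem_erase.2 ⟨hne.symm, mem_filter.2 ⟨mem_univ d, by omega⟩⟩
    rw [← add_sum_erase _ _ hc', ← add_sum_erase _ _ hd', ← add_assoc]
    refine dvd_add hcd (dvd_sum fun i hi => ?_)
    rw [mem_erase, mem_erase] at hi
    exact hG i hi.2.1 hi.1
  have hc' : c ∈ (univ : Finset (Fin t)) := mem_univ c
  have hd' : d ∈ (univ : Finset (Fin t)).erase c := mem_erase.2 ⟨hne.symm, mem_univ d⟩
  have h3 : G ∣ ∑ i ∈ ((univ : Finset (Fin t)).erase c).erase d,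
      ((m i : ℤ) - 1) * ((s : ℤ) - a - 1 - ct a (cen i)) := by
    refine dvd_sum fun i hi => ?_
    rw [mem_erase, mem_erase] at hi
    exact Dvd.dvd.mul_right (hG i hi.2.1 hi.1) _
  have h4 : ((m c : ℤ) - 1) * ((s : ℤ) - a - 1 - ct a (cen c)) +
      (((m d : ℤ) - 1) * ((s : ℤ) - a - 1 - ct a (cen d)) +
        ∑ i ∈ ((univ : Finset (Fin t)).erase c).erase d,
          ((m i : ℤ) - 1) * ((s : ℤ) - a - 1 - ct a (cen i))) =
      ∑ i, ((m i : ℤ) - 1) * ((s : ℤ) - a - 1 - ct a (cen i)) := by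
    rw [add_sum_erase _ (fun i => ((m i : ℤ) - 1) * ((s : ℤ) - a - 1 - ct a (cen i))) hd',
      add_sum_erase _ (fun i => ((m i : ℤ) - 1) * ((s : ℤ) - a - 1 - ct a (cen i))) hc']
  rw [← h4] at h1
  have e1 : ct a (cen c) = (cen c : ℤ) - a := if_neg (by omega)
  have e2 : ct a (cen d) = (cen d : ℤ) - a := if_neg (by omega)
  rw [e1, e2] at h1
  obtain ⟨x, hx⟩ := h2
  obtain ⟨y, hy⟩ := h3
  obtain ⟨z, hz⟩ := hcd
  rw [hx, hy] at h1
  generalize ∑ i ∈ univ.filter (fun i => cen i ≤ a), ((m i : ℤ) - 1) = R at h1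
  refine ⟨-x * R - y - z * ((s : ℤ) - 1 - cen d), ?_⟩
  have h5 : 2 * (((m c : ℤ) - 1) * ((cen d : ℤ) - cen c)) =
      2 * (G * (-x * R - y - z * ((s : ℤ) - 1 - cen d))) := by
    linear_combination h1 - 2 * ((s : ℤ) - 1 - cen d) * hz
  linarith

/-- no centre has a small position different from `h + 1` -/
theorem far_ofG (L : Lab m p a s own cen) {h : ℕ} (ht : t = 2 * h + 1) (hs : s = a + (h + 1) + 1)
    {P : Fin t → Fin t → ℕ} (H : Res m P) : FarG (h + 1) a cen := by
  intro k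
  have h1 : 1 ≤ pos a (cen k) := by
    have c1 := L.cen1 k
    unfold pos
    split_ifs <;> omega
  obtain ⟨c, hc⟩ := L.cong k (g := P k k) fun i hi => H.one k k i hi hi
  obtain ⟨x, hx⟩ := H.fst k k
  have hb := H.big k k
  have h2 : (P k k : ℤ) ∣ (pos a (cen k) : ℤ) - (h + 1) := by
    refine ⟨c - x * ((pos a (cen k) : ℤ) - (h + 1)), ?_⟩
    have e1 : (t : ℤ) = 2 * h + 1 := by exact_mod_cast ht
    have e2 : (s : ℤ) = a + (h + 1) + 1 := by exact_mod_cast hs
    rw [e1, e2] at hc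
    have h5 : 2 * ((pos a (cen k) : ℤ) - (h + 1)) =
        2 * ((P k k : ℤ) * (c - x * ((pos a (cen k) : ℤ) - (h + 1)))) := by
      linear_combination hc - 2 * ((pos a (cen k) : ℤ) - (h + 1)) * hx
    linarith
  by_contra h3
  push Not at h3
  have h4 : t ≤ t * t := Nat.le_mul_self t
  have h5 : (pos a (cen k) : ℤ) - (h + 1) = 0 := by
    apply Int.eq_zero_of_abs_lt_dvd h2
    rw [abs_lt]
    constructor <;> omega
  omega

theorem subG (L : Lab m p a s own cen) (hm : ∀ i, 1 ≤ m i) {h : ℕ} (ht : t = 2 * h + 1)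
    (hh : 1 ≤ h) {P : Fin t → Fin t → ℕ} (H : Res m P) : s = a + (h + 1) + 1 := by
  have hq := q_pos hm (by omega)
  have l1 := L.lower hm (by omega)
  have l2 := L.upper hm (by omega)
  obtain ⟨k, h1, h2⟩ := L.low_cenG hq
  obtain ⟨c, hc⟩ := L.cong k (g := P k k) fun i hi => H.one k k i hi hi
  obtain ⟨x, hx⟩ := H.fst k k
  have hb := H.big k k
  have e1 : (t : ℤ) = 2 * h + 1 := by exact_mod_cast ht
  -- the deviation
  obtain ⟨w, hw⟩ : ∃ w : ℤ, (s : ℤ) - a = h + 2 + w := ⟨(s : ℤ) - a - h - 2, by ring⟩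
  obtain ⟨y, hy⟩ : ∃ y : ℤ, y = (s : ℤ) - a - 1 - pos a (cen k) := ⟨_, rfl⟩
  have h3 : (P k k : ℤ) ∣ y + t * w := by
    refine ⟨-c - x * y, ?_⟩
    have e2 : 2 * ((s : ℤ) - a) - t - 3 = 2 * w := by rw [hw, e1]; ring
    have e3 : (pos a (cen k) : ℤ) - ((s : ℤ) - a) + 1 = -y := by rw [hy]; ring
    rw [e2, e3] at hc
    have h5 : 2 * (y + t * w) = 2 * ((P k k : ℤ) * (-c - x * y)) := by
      linear_combination (-1) * hc - 2 * y * hx
    linarith
  have y0 : 0 ≤ y := by omega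
  have y1 : y < t := by omega
  have w0 : -(h : ℤ) < w := by omega
  have w1 : w < h := by omega
  have h4 : y + t * w = 0 := by
    apply Int.eq_zero_of_abs_lt_dvd h3
    have b1 : (t : ℤ) * t + t < P k k := by exact_mod_cast hb
    rw [abs_lt]
    constructor <;> nlinarith
  have h5 : w = 0 := by
    by_contra hne
    rcases lt_or_gt_of_ne hne with h6 | h6 <;> nlinarith
  omega

/-- the position `h + 1` is a centre on the side `≤ a` -/
theorem coreG (L : Lab m p a s own cen) (hm : ∀ i, 1 ≤ m i) {h : ℕ} (ht : t = 2 * h + 1)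
    (hh : 1 ≤ h) (hs : s = a + (h + 1) + 1) {P : Fin t → Fin t → ℕ} (H : Res m P) {B : Fin t}
    (hB : cen B = h + 1) : False := by
  have hf := L.far_ofG ht hs H
  obtain ⟨c, hc, hmin⟩ := L.exists_minG (by omega) (by omega) hf
  obtain ⟨d, hd1, hd2⟩ := L.low_nextG hm hs hf hB hc hmin
  have hne : c ≠ d := by
    rintro rfl
    omega
  have e1 : (t : ℤ) = 2 * h + 1 := by exact_mod_cast ht
  have e2 : (s : ℤ) = a + (h + 1) + 1 := by exact_mod_cast hs
  obtain ⟨x, hx⟩ := H.fst c d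
  obtain ⟨y, hy⟩ := H.snd c d hne
  have h1 := L.pairC (G := (P c d : ℤ)) (by rw [e1, e2]; ring) hne hc (by omega)
    (fun i hi hi' => H.one c d i hi hi') ⟨x + y, by linear_combination hx + hy⟩
  have hb := H.big c d
  have h2 : (P c d : ℤ) ∣ (cen d : ℤ) - cen c := by
    obtain ⟨z, hz⟩ := h1
    exact ⟨z - x * ((cen d : ℤ) - cen c), by linear_combination hz - ((cen d : ℤ) - cen c) * hx⟩
  have h3 : (cen d : ℤ) - cen c = 0 := by
    apply Int.eq_zero_of_abs_lt_dvd h2
    have h4 : t ≤ t * t := Nat.le_mul_self t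
    rw [abs_lt]
    constructor <;> omega
  omega

theorem not_odd (L : Lab m p a s own cen) (hm : ∀ i, 1 ≤ m i) {h : ℕ} (ht : t = 2 * h + 1)
    (hh : 1 ≤ h) {P : Fin t → Fin t → ℕ} (H : Res m P) : False := by
  have hs := L.subG hm ht hh H
  have hf := L.far_ofG ht hs H
  have hq := q_pos hm (by omega)
  obtain ⟨k, h1, h2⟩ := L.low_cenG hq
  have h3 : pos a (cen k) = h + 1 := by
    rcases hf k with h3 | h3 <;> omega
  by_cases hk : cen k ≤ a
  · unfold pos at h3
    rw [if_pos hk] at h3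
    exact L.coreG hm ht hh hs H h3
  · unfold pos at h3
    rw [if_neg hk] at h3
    have hT := L.transp (by omega)
    refine hT.coreG hm ht hh (by omega) H (B := k) ?_
    show (if cen k ≤ a then cen k + (p - a) else cen k - a) = h + 1
    rw [if_neg hk, h3]

end Lab

end Pool.Agent.StarF
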