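import Pool.Agent.StarF.Odd
import Pool.Agent.StarF.Ext

/-!
# Star forests: residue classes without special super edge-magic labelings (MP_fb2988_co)
-/

set_option autoImplicit false

open Finset

namespace Pool.Agent.StarF

/-- an even number of stars -/
theorem even_class (t : ℕ) (ht : 2 ≤ t) (he : Even t) : ∃ M : ℕ, 0 < M ∧ ∃ u : Fin t → ℕ,
    ∀ m : Fin t → ℕ, (∀ i, m i ≡ u i [MOD M]) → ¬ IsSSEM (starForest m) := by
  obtain ⟨h, hh⟩ := he.two_dvd
  refine ⟨h * t + 2, by omega, fun _ => 1, fun m hm hS => ?_⟩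
  have h1 : ∀ i, ((h * t + 2 : ℕ) : ℤ) ∣ (m i : ℤ) - 1 := by
    intro i
    have h2 := (Nat.modEq_iff_dvd.1 (hm i).symm)
    push_cast at h2 ⊢
    exact h2
  have h2 : ∀ i, 1 ≤ m i := by
    intro i
    by_contra h3
    have h4 : m i = 0 := by omega
    have h5 := h1 i
    rw [h4] at h5
    have h6 : ((h * t + 2 : ℕ) : ℤ) ∣ 1 := by
      have := (dvd_neg (α := ℤ)).2 h5
      simpa using this
    have h7 := Int.le_of_dvd (by norm_num) h6
    push_cast at h7
    have h8 : 0 ≤ (h : ℤ) * t := by positivity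
    omega
  obtain ⟨p, a, s, own, cen, L⟩ := exists_lab (by omega) m hS
  obtain ⟨w, w1, w2, w3⟩ := L.even_dvd h2 hh (by omega) h1
  have h3 : (h : ℤ) * w = 0 := by
    apply Int.eq_zero_of_abs_lt_dvd w3
    rw [abs_mul, Nat.abs_cast]
    push_cast
    have h4 : (0 : ℤ) ≤ h := by positivity
    nlinarith
  rcases mul_eq_zero.1 h3 with h4 | h4
  · have : h = 0 := by exact_mod_cast h4
    omega
  · rw [h4] at w1
    exact absurd w1 (by decide)

/-- an odd number of stars -/
theorem odd_class (t : ℕ) (ht : 2 ≤ t) (ho : Odd t) : ∃ M : ℕ, 0 < M ∧ ∃ u : Fin t → ℕ,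
    ∀ m : Fin t → ℕ, (∀ i, m i ≡ u i [MOD M]) → ¬ IsSSEM (starForest m) := by
  obtain ⟨h, hh⟩ := ho
  let Q : Fin t × Fin t → ℕ := fun x => Nat.nth Nat.Prime (t * t + t + (x.1.1 * t + x.2.1))
  have hQp : ∀ x, (Q x).Prime := fun x => Nat.prime_nth_prime _
  have hQi : Function.Injective Q := by
    intro x y hxy
    have h1 := Nat.nth_injective Nat.infinite_setOfPred_prime hxy
    have h2 : x.1.1 * t + x.2.1 = y.1.1 * t + y.2.1 := by omega
    have h3 : x.2.1 = y.2.1 := by
      have := congrArg (fun n => n % t) h2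
      simpa [Nat.mul_add_mod, Nat.mod_eq_of_lt] using this
    have h4 : x.1.1 = y.1.1 := by
      have h5 : x.1.1 * t = y.1.1 * t := by omega
      exact Nat.eq_of_mul_eq_mul_right (by omega) h5
    exact Prod.ext (Fin.ext h4) (Fin.ext h3)
  have hQb : ∀ x, t * t + t < Q x := by
    intro x
    have := Nat.add_two_le_nth_prime (t * t + t + (x.1.1 * t + x.2.1))
    show t * t + t < Nat.nth Nat.Prime (t * t + t + (x.1.1 * t + x.2.1))
    omega
  let r : Fin t → Fin t × Fin t → ℕ := fun i x => if i = x.1 then 2 else if i = x.2 then 0 else 1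
  have hc : Set.Pairwise (↑(univ : Finset (Fin t × Fin t))) (Function.onFun Nat.Coprime Q) := by
    intro x _ y _ hne
    exact (Nat.coprime_primes (hQp x) (hQp y)).2 fun h => hne (hQi h)
  refine ⟨∏ x, Q x, prod_pos fun x _ => (hQp x).pos,
    fun i => (Nat.chineseRemainderOfFinset (r i) Q univ (fun x _ => (hQp x).ne_zero) hc : ℕ),
    fun m hm hS => ?_⟩
  have h1 : ∀ i x, m i ≡ r i x [MOD Q x] := by
    intro i x
    exact ((hm i).of_dvd (dvd_prod_of_mem Q (mem_univ x))).trans
      ((Nat.chineseRemainderOfFinset (r i) Q univ (fun x _ => (hQp x).ne_zero) hc).2 x (mem_univ x))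
  have h2 : ∀ i x, (Q x : ℤ) ∣ (m i : ℤ) - r i x := fun i x =>
    Nat.modEq_iff_dvd.1 (h1 i x).symm
  have H : Res m fun x y => Q (x, y) := by
    refine ⟨fun x y => hQb (x, y), fun x y i hx hy => ?_, fun x y => ?_, fun x y hne => ?_⟩
    · have h3 := h2 i (x, y)
      have h4 : r i (x, y) = 1 := by
        show (if i = x then 2 else if i = y then 0 else 1) = 1
        rw [if_neg hx, if_neg hy]
      rw [h4] at h3
      exact_mod_cast h3
    · have h3 := h2 x (x, y)
      have h4 : r x (x, y) = 2 := by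
        show (if x = x then 2 else if x = y then 0 else 1) = 2
        rw [if_pos rfl]
      rw [h4] at h3
      exact_mod_cast h3
    · have h3 := h2 y (x, y)
      have h4 : r y (x, y) = 0 := by
        show (if y = x then 2 else if y = y then 0 else 1) = 0
        rw [if_neg hne.symm, if_pos rfl]
      rw [h4] at h3
      simpa using h3
  have h3 : ∀ i, 1 ≤ m i := by
    intro i
    by_contra h4
    have h5 : m i = 0 := by omega
    have h6 := H.fst i i
    rw [h5] at h6
    have h7 : (Q (i, i) : ℤ) ∣ 2 := by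
      have := (dvd_neg (α := ℤ)).2 h6
      simpa using this
    have h8 := Int.le_of_dvd (by norm_num) h7
    have h9 := hQb (i, i)
    omega
  obtain ⟨p, a, s, own, cen, L⟩ := exists_lab (by omega) m hS
  exact L.not_odd h3 hh (by omega) H

/-- for every number `t ≥ 2` of stars there are residue classes without special super edge-magic
star forests -/
theorem class_all (t : ℕ) (ht : 2 ≤ t) : ∃ M : ℕ, 0 < M ∧ ∃ u : Fin t → ℕ,
    ∀ m : Fin t → ℕ, (∀ i, m i ≡ u i [MOD M]) → ¬ IsSSEM (starForest m) := by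
  rcases Nat.even_or_odd t with he | ho
  · exact even_class t ht he
  · exact odd_class t ht ho

end Pool.Agent.StarF
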