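import Pool.Agent.StarF.Build3
import Pool.Agent.StarF.Ladder

/-!
# Star forests with an odd number of components and a component `K_{1,2}` (MP_fb2988_co)
-/

set_option autoImplicit false

open Finset

namespace Pool.Agent.StarF

/-- the number of the star of the label `n` -/
def gOwn (h d : ℕ) (f : ℕ → ℤ) (n : ℕ) : ℕ :=
  if n ≤ 2 * h + 2 then (if n = 1 ∨ n = 2 * h + 2 then 0 else n - 1)
  else if n = 2 * h + 3 + d then 0 else (f (n - (2 * h + 3)) + h).toNat

theorem two_aux (h : ℕ) (M : ℕ → ℕ) (h0 : M 0 = 2) (L R : ℕ → ℕ) (hL : L h = 0) (hR : R h = 0)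
    (hx : ∀ j, j < h → L j + R (j + 1) + 1 = M (h - j))
    (hy : ∀ j, j < h → R j + L (j + 1) + 1 = M (h + 1 + j)) :
    IsSSEM (starForest fun i : Fin (2 * h + 1) => M i) := by
  obtain ⟨d, n, f, hd, k1, k2, k3, k4⟩ := exists_word h L R hL hR
  have hlt : ∀ v, gOwn h d f v < 2 * h + 1 ∨ ¬ (1 ≤ v ∧ v ≤ 2 * h + 2 + n) := by
    intro v
    by_cases hv : 1 ≤ v ∧ v ≤ 2 * h + 2 + n
    · left
      unfold gOwn
      split_ifs with c1 c2 c3
      · omega
      · omega
      · omega
      · have := k3 (v - (2 * h + 3)) (by omega) (by omega)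
        omega
    · exact Or.inr hv
  have hK : ∀ i, 1 ≤ i → i < 2 * h + 1 →
      ((range n).filter fun a => a ≠ d ∧ f a = (i : ℤ) - h).card = M i := by
    intro i hi1 hi2
    rcases Nat.lt_or_ge h i with g | g
    · have e1 := k2 (i - (h + 1)) (by omega)
      have e2 := hy (i - (h + 1)) (by omega)
      rw [show h + 1 + (i - (h + 1)) = i by omega] at e2
      rw [← e2, ← e1]
      have e3 : (((i - (h + 1) : ℕ) : ℤ) + 1) = (i : ℤ) - h := by omega
      rw [e3]
    · have e1 := k1 (h - i) (by omega)
      have e2 := hx (h - i) (by omega)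
      rw [show h - (h - i) = i by omega] at e2
      rw [← e2, ← e1]
      have e3 : (-((h - i : ℕ) : ℤ)) = (i : ℤ) - h := by omega
      rw [e3]
  set own : ℕ → Fin (2 * h + 1) := fun v => ⟨gOwn h d f v % (2 * h + 1),
    Nat.mod_lt _ (by omega)⟩ with hown
  set cen : Fin (2 * h + 1) → ℕ := fun i => if (i : ℕ) = 0 then 2 * h + 3 + d else (i : ℕ) + 1
    with hcen
  have own_iff : ∀ v (i : Fin (2 * h + 1)), 1 ≤ v → v ≤ 2 * h + 2 + n →
      (own v = i ↔ gOwn h d f v = (i : ℕ)) := by
    intro v i h1 h2
    rcases hlt v with g | g
    · rw [hown]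
      constructor
      · intro e
        have e1 := congrArg Fin.val e
        simp only [Nat.mod_eq_of_lt g] at e1
        exact e1
      · intro e
        apply Fin.ext
        simp only [Nat.mod_eq_of_lt g]
        exact e
    · exact absurd ⟨h1, h2⟩ g
  have cen0 : ∀ i : Fin (2 * h + 1), (i : ℕ) = 0 → cen i = 2 * h + 3 + d := by
    intro i hi
    rw [hcen]
    simp only [hi, if_true]
  have cenS : ∀ i : Fin (2 * h + 1), (i : ℕ) ≠ 0 → cen i = (i : ℕ) + 1 := by
    intro i hi
    rw [hcen]
    simp only [hi, if_false]
  have hcard : ∀ i : Fin (2 * h + 1),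
      ((Icc 1 (2 * h + 2 + n)).filter fun v => own v = i).card = M i + 1 := by
    intro i
    by_cases hi : (i : ℕ) = 0
    · have e : ((Icc 1 (2 * h + 2 + n)).filter fun v => own v = i) =
          {1, 2 * h + 2, 2 * h + 3 + d} := by
        ext v
        rw [mem_filter, mem_Icc, mem_insert, mem_insert, mem_singleton]
        constructor
        · rintro ⟨⟨g1, g2⟩, g3⟩
          rw [own_iff v i g1 g2, hi] at g3
          unfold gOwn at g3
          split_ifs at g3 with c1 c2 c3
          · omega
          · omega
          · omega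
          · have := k3 (v - (2 * h + 3)) (by omega) (by omega)
            omega
        · intro g
          have g1 : 1 ≤ v := by omega
          have g2 : v ≤ 2 * h + 2 + n := by omega
          refine ⟨⟨g1, g2⟩, ?_⟩
          rw [own_iff v i g1 g2, hi]
          unfold gOwn
          split_ifs with c1 c2 c3
          · rfl
          · omega
          · rfl
          · omega
      rw [e, hi, h0]
      rw [card_insert_of_notMem, card_insert_of_notMem, card_singleton]
      · rw [mem_singleton]
        omega
      · rw [mem_insert, mem_singleton]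
        omega
    · have e : ((Icc 1 (2 * h + 2 + n)).filter fun v => own v = i) =
          insert ((i : ℕ) + 1) (((range n).filter fun a => a ≠ d ∧ f a = (i : ℤ) - h).image
            fun a => a + (2 * h + 3)) := by
        ext v
        rw [mem_filter, mem_Icc, mem_insert, mem_image]
        constructor
        · rintro ⟨⟨g1, g2⟩, g3⟩
          rw [own_iff v i g1 g2] at g3
          unfold gOwn at g3
          split_ifs at g3 with c1 c2 c3
          · omega
          · left
            omega
          · omega
          · right
            have := k3 (v - (2 * h + 3)) (by omega) (by omega)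
            refine ⟨v - (2 * h + 3), mem_filter.2 ⟨mem_range.2 (by omega), by omega, by omega⟩,
              by omega⟩
        · intro g
          have hi2 := i.2
          rcases g with g | ⟨a, ga, gb⟩
          · have g1 : 1 ≤ v := by omega
            have g2 : v ≤ 2 * h + 2 + n := by omega
            refine ⟨⟨g1, g2⟩, ?_⟩
            rw [own_iff v i g1 g2]
            unfold gOwn
            split_ifs with c1 c2 c3
            · omega
            · omega
            · omega
            · omega
          · rw [mem_filter, mem_range] at ga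
            have g1 : 1 ≤ v := by omega
            have g2 : v ≤ 2 * h + 2 + n := by omega
            refine ⟨⟨g1, g2⟩, ?_⟩
            rw [own_iff v i g1 g2]
            have e5 : v - (2 * h + 3) = a := by omega
            unfold gOwn
            split_ifs with c1 c2 c3
            · omega
            · omega
            · omega
            · rw [e5, ga.2.2]
              omega
      rw [e, card_insert_of_notMem, card_image_of_injective, hK i (by omega) i.2]
      · intro a b hab
        dsimp only at hab
        omega
      · intro hmem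
        rw [mem_image] at hmem
        obtain ⟨a, -, hb⟩ := hmem
        have hi2 := i.2
        omega
  have hp : 2 * h + 2 + n = ∑ i : Fin (2 * h + 1), (M i + 1) := by
    have e1 : (Icc 1 (2 * h + 2 + n)).card = ∑ i : Fin (2 * h + 1),
        ((Icc 1 (2 * h + 2 + n)).filter fun v => own v = i).card :=
      card_eq_sum_card_fiberwise (fun v _ => mem_coe.2 (mem_univ (own v)))
    rw [Nat.card_Icc, sum_congr rfl (fun i _ => hcard i)] at e1
    omega
  have hq : ∑ i : Fin (2 * h + 1), M i = n + 1 := by
    rw [sum_add_distrib] at hp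
    simp only [sum_const, card_univ, Fintype.card_fin, smul_eq_mul, mul_one] at hp
    omega
  have L0 : Lab (fun i : Fin (2 * h + 1) => M i) (2 * h + 2 + n) (2 * h + 2) (3 * h + 4) own
      cen := by
    apply lab_of_cov
    · exact hp
    · omega
    · intro i
      by_cases hi : (i : ℕ) = 0
      · rw [cen0 i hi]
        omega
      · rw [cenS i hi]
        omega
    · intro i
      have hi2 := i.2
      by_cases hi : (i : ℕ) = 0
      · rw [cen0 i hi]
        omega
      · rw [cenS i hi]
        omega
    · intro i
      have hi2 := i.2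
      by_cases hi : (i : ℕ) = 0
      · rw [cen0 i hi, own_iff _ i (by omega) (by omega), hi]
        unfold gOwn
        split_ifs with c1 c2 c3
        · rfl
        · omega
        · rfl
        · omega
      · rw [cenS i hi, own_iff _ i (by omega) (by omega)]
        unfold gOwn
        split_ifs with c1 c2 c3
        · omega
        · omega
        · omega
        · omega
    · exact hcard
    · intro v g1 g2 g3
      have e1 : (own v : ℕ) = gOwn h d f v := ((own_iff v (own v) g1 g2).1 rfl).symm
      by_cases hi : (own v : ℕ) = 0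
      · rw [cen0 _ hi] at g3 ⊢
        rw [hi] at e1
        unfold gOwn at e1
        split_ifs at e1 with c1 c2
        · omega
        · omega
        · have := k3 (v - (2 * h + 3)) (by omega) (by omega)
          omega
      · rw [cenS _ hi] at g3 ⊢
        have hi2 := (own v).2
        by_cases c1 : v ≤ 2 * h + 2
        · by_cases c2 : v = 1 ∨ v = 2 * h + 2
          · exfalso
            apply hi
            rw [e1]
            unfold gOwn
            rw [if_pos c1, if_pos c2]
          · exfalso
            have e2 : gOwn h d f v = v - 1 := by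
              unfold gOwn
              rw [if_pos c1, if_neg c2]
            omega
        · omega
    · intro x hx1 hx2
      rw [hq] at hx2
      rcases k4 ((x : ℤ) - (3 * h + 4)) (by omega) (by omega) with g | g | ⟨j, g1, g2, g3⟩
      · have e1 : own 1 = (⟨0, by omega⟩ : Fin (2 * h + 1)) := by
          rw [own_iff 1 _ (by omega) (by omega)]
          unfold gOwn
          rw [if_pos (by omega), if_pos (by omega)]
        refine ⟨1, by omega, ?_, ?_⟩
        · rw [e1, cen0 _ rfl]
          omega
        · rw [e1, cen0 _ rfl]
          omega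
      · have e1 : own (2 * h + 2) = (⟨0, by omega⟩ : Fin (2 * h + 1)) := by
          rw [own_iff _ _ (by omega) (by omega)]
          unfold gOwn
          rw [if_pos (by omega), if_pos (by omega)]
        refine ⟨2 * h + 2, by omega, ?_, ?_⟩
        · rw [e1, cen0 _ rfl]
          omega
        · rw [e1, cen0 _ rfl]
          omega
      · have g4 := k3 j g1 g2
        have e1 : own (2 * h + 3 + j) = (⟨(f j + h).toNat, by omega⟩ : Fin (2 * h + 1)) := by
          rw [own_iff _ _ (by omega) (by omega)]
          have e5 : 2 * h + 3 + j - (2 * h + 3) = j := by omega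
          unfold gOwn
          rw [if_neg (by omega), if_neg (by omega), e5]
        have e2 : ((⟨(f j + h).toNat, by omega⟩ : Fin (2 * h + 1)) : ℕ) ≠ 0 := by
          show (f j + h).toNat ≠ 0
          omega
        refine ⟨2 * h + 3 + j, by omega, ?_, ?_⟩
        · rw [e1, cenS _ e2]
          show 2 * h + 3 + j ≠ (f j + h).toNat + 1
          omega
        · rw [e1, cenS _ e2]
          show 2 * h + 3 + j + ((f j + h).toNat + 1) = x
          omega
  exact L0.toSSEM

/-- the arrangement of the sizes: sorted sizes in the order of the two chains -/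
def chn (h i : ℕ) : ℕ := if i = 0 then 0 else if i ≤ h then 1 + 2 * (h - i) else 2 * (i - h)

theorem ssem_congr {t : ℕ} {m m' : Fin t → ℕ} (e : m = m') (w : IsSSEM (starForest m)) :
    IsSSEM (starForest m') := by
  subst e
  exact w

theorem chn_lt {h i : ℕ} (hi : i < 2 * h + 1) : chn h i < 2 * h + 1 := by
  unfold chn
  split_ifs <;> omega

theorem chn_inj {h i j : ℕ} (hi : i < 2 * h + 1) (hj : j < 2 * h + 1) (e : chn h i = chn h j) :
    i = j := by
  unfold chn at e
  split_ifs at e <;> omega

/-- Every star forest with an odd number of components, one of them `K_{1,2}`, is SSEM. -/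
theorem odd_two {h : ℕ} (m : Fin (2 * h + 1) → ℕ) (hm : ∀ i, 1 ≤ m i) (h2 : ∃ i, m i = 2) :
    IsSSEM (starForest m) := by
  obtain ⟨i0, hi0⟩ := h2
  set S : ℕ := ∑ i, m i with hS
  have hle : ∀ i, m i ≤ S := fun i => single_le_sum (fun j _ => Nat.zero_le (m j)) (mem_univ i)
  set key : Fin (2 * h + 1) → ℕ := fun i => if i = i0 then 0 else S + 1 - m i with hkey
  set τ : Equiv.Perm (Fin (2 * h + 1)) := Tuple.sort key with hτ
  have hmono : Monotone (key ∘ τ) := Tuple.monotone_sort key
  have hz : τ ⟨0, by omega⟩ = i0 := by
    have h1 : key (τ ⟨0, by omega⟩) ≤ key (τ (τ.symm i0)) :=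
      hmono (Fin.le_def.2 (Nat.zero_le _))
    rw [Equiv.apply_symm_apply] at h1
    by_contra hne
    rw [hkey] at h1
    simp only [if_true] at h1
    rw [if_neg hne] at h1
    have := hle (τ ⟨0, by omega⟩)
    omega
  have hsort : ∀ i j : Fin (2 * h + 1), 1 ≤ (i : ℕ) → (i : ℕ) ≤ j → m (τ j) ≤ m (τ i) := by
    intro i j hi hij
    have h1 : key (τ i) ≤ key (τ j) := hmono (Fin.le_def.2 hij)
    have ne : ∀ a : Fin (2 * h + 1), 1 ≤ (a : ℕ) → τ a ≠ i0 := by
      intro a ha e
      rw [← hz] at e
      have := congrArg Fin.val (τ.injective e)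
      simp only at this
      omega
    rw [hkey] at h1
    simp only [if_neg (ne i hi), if_neg (ne j (by omega))] at h1
    have a1 := hle (τ i)
    have a2 := hle (τ j)
    omega
  set ρ : Fin (2 * h + 1) → Fin (2 * h + 1) := fun i => ⟨chn h i, chn_lt i.2⟩ with hρ
  have ρinj : Function.Injective ρ := by
    intro i j e
    have := congrArg Fin.val e
    exact Fin.ext (chn_inj i.2 j.2 this)
  have ρbij : Function.Bijective ρ := Finite.injective_iff_bijective.1 ρinj
  set σ : Equiv.Perm (Fin (2 * h + 1)) := (Equiv.ofBijective ρ ρbij).trans τ with hσ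
  apply ssem_perm (by omega) σ
  set M : ℕ → ℕ := fun i => if hi : i < 2 * h + 1 then m (σ ⟨i, hi⟩) else 0 with hM
  have hMm : (fun i : Fin (2 * h + 1) => M i) = fun i => m (σ i) := by
    funext i
    rw [hM]
    simp only [i.2, dif_pos]
  refine ssem_congr hMm ?_
  have hMv : ∀ i (hi : i < 2 * h + 1), M i = m (τ ⟨chn h i, chn_lt hi⟩) := by
    intro i hi
    rw [hM]
    simp only [hi, dif_pos]
    rfl
  have hpos : ∀ i, i < 2 * h + 1 → 1 ≤ M i := by
    intro i hi
    rw [hMv i hi]
    exact hm _
  have hM0 : M 0 = 2 := by
    rw [hMv 0 (by omega)]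
    have e : (⟨chn h 0, chn_lt (by omega)⟩ : Fin (2 * h + 1)) = ⟨0, by omega⟩ := by
      apply Fin.ext
      show chn h 0 = 0
      unfold chn
      rfl
    rw [e, hz]
    exact hi0
  have hcmp : ∀ i j, i < 2 * h + 1 → j < 2 * h + 1 → 1 ≤ chn h i → chn h i ≤ chn h j →
      M j ≤ M i := by
    intro i j hi hj h1 h2
    rw [hMv i hi, hMv j hj]
    exact hsort _ _ h1 h2
  have c1 : ∀ j, j < h → chn h (h - j) = 2 * j + 1 := by
    intro j hj
    unfold chn
    rw [if_neg (by omega), if_pos (by omega)]
    omega
  have c2 : ∀ j, j < h → chn h (h + 1 + j) = 2 * j + 2 := by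
    intro j hj
    unfold chn
    rw [if_neg (by omega), if_neg (by omega)]
    omega
  have hchain : ∀ j, j + 1 < h → M (h + 1 + (j + 1)) - 1 ≤ M (h - j) - 1 ∧
      M (h - (j + 1)) - 1 ≤ M (h + 1 + j) - 1 := by
    intro j hj
    have a1 := c1 j (by omega)
    have a2 := c2 (j + 1) (by omega)
    have a3 := c1 (j + 1) (by omega)
    have a4 := c2 j (by omega)
    have e1 := hcmp (h - j) (h + 1 + (j + 1)) (by omega) (by omega) (by omega) (by omega)
    have e2 := hcmp (h + 1 + j) (h - (j + 1)) (by omega) (by omega) (by omega) (by omega)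
    omega
  obtain ⟨L, R, hL, hR, hLR⟩ := exists_mult h (fun j => M (h - j) - 1)
    (fun j => M (h + 1 + j) - 1) hchain
  apply two_aux h M hM0 L R hL hR
  · intro j hj
    have e1 := (hLR j hj).1
    have e2 := hpos (h - j) (by omega)
    omega
  · intro j hj
    have e1 := (hLR j hj).2
    have e2 := hpos (h + 1 + j) (by omega)
    omega

end Pool.Agent.StarF
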