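import Pool.Agent.StarF.Main
import Pool.Agent.StarF.Equal

/-!
# Star forests: one star, two stars, even numbers of stars (MP_fb2988_co)
-/

set_option autoImplicit false

open Finset

namespace Pool.Agent.StarF

theorem one_star (m : Fin 1 → ℕ) : IsSSEM (starForest m) := by
  have hall : ∀ i : Fin 1, i = 0 := fun i => Subsingleton.elim _ _
  have hs : ∑ i, m i = m 0 := by simp
  have L : Lab m (m 0 + 1) 1 3 (fun _ => 0) (fun _ => 1) := by
    apply lab_of_cov
    · simp
    · omega
    · intro i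
      exact le_refl 1
    · intro i
      omega
    · intro i
      exact (hall i).symm
    · intro i
      have h1 : (Icc 1 (m 0 + 1)).filter (fun _ => (0 : Fin 1) = i) = Icc 1 (m 0 + 1) := by
        rw [filter_eq_self]
        intro n _
        exact (hall i).symm
      rw [h1, Nat.card_Icc, hall i]
      omega
    · intro n h1 h2 h3
      have h3' : n ≠ 1 := h3
      show n ≤ 1 ↔ ¬ 1 ≤ 1
      omega
    · intro x h1 h2
      rw [hs] at h2
      refine ⟨x - 1, ⟨by omega, by omega⟩, ?_, ?_⟩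
      · show x - 1 ≠ 1
        omega
      · show x - 1 + 1 = x
        omega
  exact L.toSSEM

theorem two_stars (m : Fin 2 → ℕ) (hm : ∀ i, 1 ≤ m i) : ¬ IsSSEM (starForest m) := by
  intro h
  obtain ⟨p, a, s, own, cen, L⟩ := exists_lab (by omega) m h
  have h1 := L.lower hm (by omega)
  have h2 := L.upper hm (by omega)
  omega

/-- the divisibility condition for `2 h` stars -/
theorem even_stars (h : ℕ) (hh : 1 ≤ h) (m : Fin (2 * h) → ℕ) (hm : ∀ i, 1 ≤ m i)
    (hS : IsSSEM (starForest m)) (g : ℕ) (hg : ∀ i, (g : ℤ) ∣ (m i : ℤ) - 1) :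
    ∃ w : ℤ, Odd w ∧ |w| ≤ 2 * (h : ℤ) - 3 ∧ (g : ℤ) ∣ h * w := by
  obtain ⟨p, a, s, own, cen, L⟩ := exists_lab (by omega) m hS
  obtain ⟨w, h1, h2, h3⟩ := L.even_dvd hm (h := h) rfl hh hg
  refine ⟨w, h1, ?_, h3⟩
  push_cast at h2
  exact h2

theorem equal_even (h : ℕ) (hh : 1 ≤ h) (n : ℕ) (hn : 1 ≤ n)
    (hS : IsSSEM (starForest fun _ : Fin (2 * h) => n)) :
    ∃ w : ℤ, Odd w ∧ |w| ≤ 2 * (h : ℤ) - 3 ∧ (n : ℤ) - 1 ∣ h * w := by
  obtain ⟨w, h1, h2, h3⟩ := even_stars h hh _ (fun _ => hn) hS (n - 1) (fun _ => by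
    rw [Nat.cast_sub hn, Nat.cast_one])
  refine ⟨w, h1, h2, ?_⟩
  rw [Nat.cast_sub hn, Nat.cast_one] at h3
  exact h3

theorem equal_four (n : ℕ) (hn : 1 ≤ n) :
    IsSSEM (starForest fun _ : Fin 4 => n) ↔ n = 2 ∨ n = 3 := by
  constructor
  · intro hS
    obtain ⟨w, h1, h2, h3⟩ := equal_even 2 (by omega) n hn hS
    obtain ⟨k, hk⟩ := h1
    rw [abs_le] at h2
    push_cast at h2 h3
    have h4 : w = 1 ∨ w = -1 := by omega
    have h5 : (n : ℤ) - 1 ∣ 2 := by
      rcases h4 with h4 | h4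
      · rw [h4] at h3
        exact h3
      · rw [h4] at h3
        have : (n : ℤ) - 1 ∣ -(2 * -1) := (dvd_neg (α := ℤ)).2 h3
        norm_num at this
        exact this
    have h6 := Int.le_of_dvd (by norm_num) h5
    have h7 : n ≤ 3 := by omega
    interval_cases n
    · norm_num at h5
    · left
      rfl
    · right
      rfl
  · rintro (rfl | rfl)
    · exact eq4_2
    · exact eq4_3

theorem equal_six (n : ℕ) (hn : 1 ≤ n) :
    IsSSEM (starForest fun _ : Fin 6 => n) ↔ n = 2 ∨ n = 4 ∨ n = 10 := by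
  constructor
  · intro hS
    obtain ⟨w, h1, h2, h3⟩ := equal_even 3 (by omega) n hn hS
    obtain ⟨k, hk⟩ := h1
    rw [abs_le] at h2
    push_cast at h2 h3
    have h4 : w = 1 ∨ w = -1 ∨ w = 3 ∨ w = -3 := by omega
    have h5 : (n : ℤ) - 1 ∣ 9 := by
      rcases h4 with h4 | h4 | h4 | h4
      · rw [h4] at h3
        exact h3.trans (by norm_num)
      · rw [h4] at h3
        exact h3.trans (by norm_num)
      · rw [h4] at h3
        exact h3.trans (by norm_num)
      · rw [h4] at h3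
        exact h3.trans (by norm_num)
    have h6 := Int.le_of_dvd (by norm_num) h5
    have h7 : n ≤ 10 := by omega
    interval_cases n <;> first
      | (exfalso; norm_num at h5; done)
      | (exfalso; revert h5; decide)
      | simp
  · rintro (rfl | rfl | rfl)
    · exact eq6_2
    · exact eq6_4
    · exact eq6_10

end Pool.Agent.StarF
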