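import Pool.Agent.StarF.Low

/-!
# Five stars: the symmetries in the case `s = a + 4` (MP_fb2988_co)
-/

set_option autoImplicit false

open Finset

namespace Pool.Agent.StarF

variable {m : Fin 5 → ℕ} {p a : ℕ} {own : ℕ → Fin 5} {cen : Fin 5 → ℕ}

namespace Lab

/-- transposition -/
theorem tr4 (L : Lab m p a (a + 4) own cen) :
    ∃ (own' : ℕ → Fin 5) (cen' : Fin 5 → ℕ), Lab m p (p - a) (p - a + 4) own' cen' ∧
      (∀ i, cen i ≤ a → cen' i = cen i + (p - a)) ∧ (∀ i, a < cen i → cen' i = cen i - a) ∧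
      (∀ n, n ≤ p - a → own' n = own (n + a)) ∧
      ∀ n, p - a < n → own' n = own (n - (p - a)) := by
  have h1 := L.transp (by omega)
  have h2 : a + 4 - a + (p - a) = p - a + 4 := by omega
  rw [h2] at h1
  exact ⟨_, _, h1, fun i h => if_pos h, fun i h => if_neg (by omega), fun n h => if_pos h,
    fun n h => if_neg (by omega)⟩

/-- reflection and transposition -/
theorem re4 (L : Lab m p a (a + 4) own cen) (hm : ∀ i, 1 ≤ m i) :
    ∃ (own' : ℕ → Fin 5) (cen' : Fin 5 → ℕ), Lab m p (p - a) (p - a + 4) own' cen' ∧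
      (∀ i, cen' i = p + 1 - cen i) ∧ ∀ n, own' n = own (p + 1 - n) := by
  have h1 := L.refl (q_pos hm (by omega))
  have hp := L.p_eq
  have ha := L.ha
  have h2 : 2 * p + 3 - (a + 4 + ∑ i, m i) = p - a + 4 := by omega
  rw [h2] at h1
  exact ⟨_, _, h1, fun i => rfl, fun n => rfl⟩

/-- reflection -/
theorem rv4 (L : Lab m p a (a + 4) own cen) (hm : ∀ i, 1 ≤ m i) :
    ∃ (own' : ℕ → Fin 5) (cen' : Fin 5 → ℕ), Lab m p a (a + 4) own' cen' ∧
      (∀ i, cen i ≤ a → cen' i = a + 1 - cen i) ∧ (∀ i, a < cen i → cen' i = p + 1 + a - cen i) ∧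
      ∀ n, a < n → n ≤ p → own' n = own (p + 1 + a - n) := by
  have ha := L.ha
  obtain ⟨o1, c1, L1, h1, h2⟩ := L.re4 hm
  obtain ⟨o2, c2, L2, h3, h4, h5, h6⟩ := L1.tr4
  have e1 : p - (p - a) = a := by omega
  rw [e1] at L2 h3 h5 h6
  refine ⟨o2, c2, L2, fun i hi => ?_, fun i hi => ?_, fun n hn hn' => ?_⟩
  · have g1 := L.cen1 i
    have g2 := L.cenp i
    rw [h4 i (by rw [h1]; omega), h1]
    omega
  · have g1 := L.cen1 i
    have g2 := L.cenp i
    rw [h3 i (by rw [h1]; omega), h1]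
    omega
  · rw [h6 n hn, h2]
    congr 1
    omega

theorem pos_tr {cen' : Fin 5 → ℕ} {b : ℕ} (h1 : ∀ i, cen i ≤ a → cen' i = cen i + b)
    (h2 : ∀ i, a < cen i → cen' i = cen i - a) (h3 : ∀ i, cen i ≤ a + b) (h4 : ∀ i, 1 ≤ cen i)
    (hf : Far a cen) : Far b cen' := by
  intro i
  have g1 := hf i
  have g2 := h3 i
  have g3 := h4 i
  unfold pos at g1 ⊢
  by_cases h : cen i ≤ a
  · rw [if_pos h] at g1
    rw [h1 i h, if_neg (by omega)]
    omega
  · rw [if_neg h] at g1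
    rw [h2 i (by omega), if_pos (by omega)]
    omega

end Lab

end Pool.Agent.StarF
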