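import Mathlib

/-!
# Star forests: two row centres and one column centre (MP_fb2988_co)
-/

set_option autoImplicit false

open Finset

namespace Pool.Agent.StarF

/-- A grid with `a` rows and `b` columns, the row centres `r1 < r2` and the column centre `c`; `X j`
says that the cell of the column `j` is in the row `r1`.  The sums are `3, .., a + b - 1`. -/
structure G3 (a b c r1 r2 : ℕ) (X : ℕ → Prop) : Prop where
  h1 : 1 ≤ r1
  h12 : r1 < r2
  h2 : r2 ≤ a
  c1 : 1 ≤ c
  c2 : c ≤ b
  cov : ∀ v, 3 ≤ v → v < a + b → (∃ i, 1 ≤ i ∧ i ≤ a ∧ i ≠ r1 ∧ i ≠ r2 ∧ i + c = v) ∨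
    (∃ j, 1 ≤ j ∧ j ≤ b ∧ j ≠ c ∧ X j ∧ j + r1 = v) ∨
    (∃ j, 1 ≤ j ∧ j ≤ b ∧ j ≠ c ∧ ¬ X j ∧ j + r2 = v)
  rng : ∀ i, 1 ≤ i → i ≤ a → i ≠ r1 → i ≠ r2 → 3 ≤ i + c ∧ i + c < a + b
  rng1 : ∀ j, 1 ≤ j → j ≤ b → j ≠ c → X j → 3 ≤ j + r1 ∧ j + r1 < a + b
  rng2 : ∀ j, 1 ≤ j → j ≤ b → j ≠ c → ¬ X j → 3 ≤ j + r2 ∧ j + r2 < a + b
  inj1 : ∀ i j, 1 ≤ i → i ≤ a → i ≠ r1 → i ≠ r2 → 1 ≤ j → j ≤ b → j ≠ c → X j → j + r1 ≠ i + c
  inj2 : ∀ i j, 1 ≤ i → i ≤ a → i ≠ r1 → i ≠ r2 → 1 ≤ j → j ≤ b → j ≠ c → ¬ X j →
    j + r2 ≠ i + c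
  inj3 : ∀ j j', 1 ≤ j → j ≤ b → j ≠ c → X j → 1 ≤ j' → j' ≤ b → j' ≠ c → ¬ X j' →
    j + r1 ≠ j' + r2

namespace G3

variable {a b c r1 r2 : ℕ} {X : ℕ → Prop}

theorem refl (G : G3 a b c r1 r2 X) :
    G3 a b (b + 1 - c) (a + 1 - r2) (a + 1 - r1) (fun j => ¬ X (b + 1 - j)) := by
  have e1 := G.h1
  have e2 := G.h12
  have e3 := G.h2
  have e4 := G.c1
  have e5 := G.c2
  refine ⟨by omega, by omega, by omega, by omega, by omega, ?_, ?_, ?_, ?_, ?_, ?_, ?_⟩
  · intro v h1 h2
    rcases G.cov (a + b + 2 - v) (by omega) (by omega) with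
      ⟨i, g1, g2, g3, g4, g5⟩ | ⟨j, g1, g2, g3, g4, g5⟩ | ⟨j, g1, g2, g3, g4, g5⟩
    · left
      exact ⟨a + 1 - i, by omega, by omega, by omega, by omega, by omega⟩
    · right
      right
      refine ⟨b + 1 - j, by omega, by omega, by omega, ?_, by omega⟩
      have h3 : b + 1 - (b + 1 - j) = j := by omega
      rw [h3]
      exact not_not.2 g4
    · right
      left
      refine ⟨b + 1 - j, by omega, by omega, by omega, ?_, by omega⟩
      have h3 : b + 1 - (b + 1 - j) = j := by omega
      rw [h3]
      exact g4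
  · intro i g1 g2 g3 g4
    have := G.rng (a + 1 - i) (by omega) (by omega) (by omega) (by omega)
    omega
  · intro j g1 g2 g3 g4
    have := G.rng2 (b + 1 - j) (by omega) (by omega) (by omega) g4
    omega
  · intro j g1 g2 g3 g4
    have := G.rng1 (b + 1 - j) (by omega) (by omega) (by omega) (not_not.1 g4)
    omega
  · intro i j g1 g2 g3 g4 g5 g6 g7 g8
    have := G.inj2 (a + 1 - i) (b + 1 - j) (by omega) (by omega) (by omega) (by omega) (by omega)
      (by omega) (by omega) g8
    omega
  · intro i j g1 g2 g3 g4 g5 g6 g7 g8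
    have := G.inj1 (a + 1 - i) (b + 1 - j) (by omega) (by omega) (by omega) (by omega) (by omega)
      (by omega) (by omega) (not_not.1 g8)
    omega
  · intro j j' g1 g2 g3 g4 g5 g6 g7 g8
    have := G.inj3 (b + 1 - j') (b + 1 - j) (by omega) (by omega) (by omega) (not_not.1 g8)
      (by omega) (by omega) (by omega) g4
    omega

theorem f1 (G : G3 a b c r1 r2 X) {j : ℕ} (g1 : 1 ≤ j) (g2 : j ≤ b) (g3 : j ≠ c) (g4 : X j) :
    j + r1 ≤ c ∨ c + a + 1 ≤ j + r1 ∨ j + r1 = c + r2 := by
  by_contra h
  have h1 := G.inj1 (j + r1 - c) j (by omega) (by omega) (by omega) (by omega) g1 g2 g3 g4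
  omega

theorem f2 (G : G3 a b c r1 r2 X) {j : ℕ} (g1 : 1 ≤ j) (g2 : j ≤ b) (g3 : j ≠ c) (g4 : ¬ X j) :
    j + r2 ≤ c ∨ c + a + 1 ≤ j + r2 ∨ j + r2 = c + r1 := by
  by_contra h
  have h1 := G.inj2 (j + r2 - c) j (by omega) (by omega) (by omega) (by omega) g1 g2 g3 g4
  omega

/-- if `r1 ≥ 2` then one of the rows has only one cell -/
theorem left (G : G3 a b c r1 r2 X) (ha : 5 ≤ a) (hb : 4 ≤ b) (hr : 2 ≤ r1) :
    (∃ j0, ∀ j, 1 ≤ j → j ≤ b → j ≠ c → X j → j = j0) ∨
      ∃ j0, ∀ j, 1 ≤ j → j ≤ b → j ≠ c → ¬ X j → j = j0 := by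
  have e2 := G.h12
  have e3 := G.h2
  have e4 := G.c1
  have e5 := G.c2
  -- `c ≥ 2`
  have hc : 2 ≤ c := by
    by_contra h
    have hc1 : c = 1 := by omega
    have h1 := G.rng 1 (by omega) (by omega) (by omega) (by omega)
    omega
  -- the column `c - 1`
  have hX1 : ¬ X (c - 1) := by
    intro h
    have := G.f1 (j := c - 1) (by omega) (by omega) (by omega) h
    omega
  have hd : r2 = r1 + 1 := by
    have := G.f2 (j := c - 1) (by omega) (by omega) (by omega) hX1
    omega
  by_cases hc3 : c = 2
  · -- `c = 2`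
    have h4 : a ≤ r2 + 1 := by
      by_contra h
      by_cases hx : X 4
      · have := G.f1 (j := 4) (by omega) hb (by omega) hx
        omega
      · have := G.f2 (j := 4) (by omega) hb (by omega) hx
        omega
    by_cases h5 : r2 = a
    · -- all columns `≥ 3` are in the row `r1`
      right
      refine ⟨1, ?_⟩
      have hind : ∀ k, 3 + k ≤ b → X (3 + k) := by
        intro k
        induction k with
        | zero =>
          intro hk
          rcases G.cov (3 + r1) (by omega) (by omega) with
            ⟨i, g1, g2, g3, g4, g5⟩ | ⟨j, g1, g2, g3, g4, g5⟩ | ⟨j, g1, g2, g3, g4, g5⟩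
          · omega
          · have : j = 3 := by omega
            rw [this] at g4
            exact g4
          · omega
        | succ k ih =>
          intro hk
          rcases G.cov (3 + (k + 1) + r1) (by omega) (by omega) with
            ⟨i, g1, g2, g3, g4, g5⟩ | ⟨j, g1, g2, g3, g4, g5⟩ | ⟨j, g1, g2, g3, g4, g5⟩
          · omega
          · have : j = 3 + (k + 1) := by omega
            rw [this] at g4
            exact g4
          · have : j = 3 + k := by omega
            rw [this] at g4
            exact absurd (ih (by omega)) g4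
      intro j g1 g2 g3 g4
      by_contra g5
      have h6 := hind (j - 3) (by omega)
      have h7 : 3 + (j - 3) = j := by omega
      rw [h7] at h6
      exact g4 h6
    · -- all columns `≥ 4` are in the row `r2`
      left
      refine ⟨3, ?_⟩
      have hind : ∀ k, k + 4 ≤ b → ¬ X (b - k) := by
        intro k
        induction k with
        | zero =>
          intro hk
          rcases G.cov (b + r2) (by omega) (by omega) with
            ⟨i, g1, g2, g3, g4, g5⟩ | ⟨j, g1, g2, g3, g4, g5⟩ | ⟨j, g1, g2, g3, g4, g5⟩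
          · omega
          · omega
          · have : j = b - 0 := by omega
            rw [this] at g4
            exact g4
        | succ k ih =>
          intro hk
          rcases G.cov (b - (k + 1) + r2) (by omega) (by omega) with
            ⟨i, g1, g2, g3, g4, g5⟩ | ⟨j, g1, g2, g3, g4, g5⟩ | ⟨j, g1, g2, g3, g4, g5⟩
          · omega
          · have : j = b - k := by omega
            rw [this] at g4
            exact absurd g4 (ih (by omega))
          · have : j = b - (k + 1) := by omega
            rw [this] at g4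
            exact g4
      intro j g1 g2 g3 g4
      by_contra g5
      have h8 : j ≠ 1 := by
        rintro rfl
        have h9 : c - 1 = 1 := by omega
        rw [h9] at hX1
        exact hX1 g4
      have h6 := hind (b - j) (by omega)
      have h7 : b - (b - j) = j := by omega
      rw [h7] at h6
      exact h6 g4
  · -- `c ≥ 3`, `r1 = 2`
    have hr2 : r1 = 2 := by
      by_contra h
      by_cases hx : X (c - 2)
      · have := G.f1 (j := c - 2) (by omega) (by omega) (by omega) hx
        omega
      · have := G.f2 (j := c - 2) (by omega) (by omega) (by omega) hx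
        omega
    have hcb : c < b := by
      by_contra h
      have := G.rng a (by omega) (by omega) (by omega) (by omega)
      omega
    have hcb1 : c + 1 = b := by
      by_contra h
      by_cases hx : X (c + 2)
      · have := G.f1 (j := c + 2) (by omega) (by omega) (by omega) hx
        omega
      · have := G.f2 (j := c + 2) (by omega) (by omega) (by omega) hx
        omega
    have hXb : X b := by
      by_contra hx
      have := G.f2 (j := b) (by omega) (by omega) (by omega) hx
      omega
    right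
    refine ⟨c - 1, ?_⟩
    have hind : ∀ k, k + 3 ≤ c → X (k + 1) := by
      intro k
      induction k with
      | zero =>
        intro hk
        rcases G.cov 3 (by omega) (by omega) with
          ⟨i, g1, g2, g3, g4, g5⟩ | ⟨j, g1, g2, g3, g4, g5⟩ | ⟨j, g1, g2, g3, g4, g5⟩
        · omega
        · have : j = 0 + 1 := by omega
          rw [this] at g4
          exact g4
        · omega
      | succ k ih =>
        intro hk
        rcases G.cov (k + 1 + 3) (by omega) (by omega) with
          ⟨i, g1, g2, g3, g4, g5⟩ | ⟨j, g1, g2, g3, g4, g5⟩ | ⟨j, g1, g2, g3, g4, g5⟩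
        · omega
        · have : j = k + 1 + 1 := by omega
          rw [this] at g4
          exact g4
        · have : j = k + 1 := by omega
          rw [this] at g4
          exact absurd (ih (by omega)) g4
    intro j g1 g2 g3 g4
    by_contra g5
    by_cases h6 : j = b
    · rw [h6] at g4
      exact g4 hXb
    · have h7 := hind (j - 1) (by omega)
      have h8 : j - 1 + 1 = j := by omega
      rw [h8] at h7
      exact g4 h7

end G3

end Pool.Agent.StarF
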