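import Mathlib

/-!
# Words with consecutive sums from walks on levels (MP_fb2988_co)
-/

set_option autoImplicit false

open Finset

namespace Pool.Agent.StarF

/-- the values `z < e - i` and `e - i + 1, e - i + 3, .., e + i - 1` -/
def DD (e i z : ℤ) : Prop := z < e - i ∨ (z < e + i ∧ (z - e + i) % 2 = 1)

/-- `n` columns, the column `d` is special (it covers `d - h` and `d + h + 1`), the row `r` is used
`k r` times and all the values in `S` are covered. -/
def Wd (d h n : ℕ) (S : ℤ → Prop) (k : ℤ → ℕ) : Prop :=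
  ∃ f : ℕ → ℤ, (∀ r, ((range n).filter fun j => j ≠ d ∧ f j = r).card = k r) ∧
    ∀ z, S z → z < 0 ∨ z = d - h ∨ z = d + h + 1 ∨ ∃ j, j < n ∧ j ≠ d ∧ (j : ℤ) + f j = z

theorem Wd.step {d h n : ℕ} {S : ℤ → Prop} {k : ℤ → ℕ} (w : Wd d h n S k) (hn : n ≠ d) (r : ℤ)
    (S' : ℤ → Prop) (hS : ∀ z, S' z → S z ∨ z = n + r) :
    Wd d h (n + 1) S' (fun x => k x + if x = r then 1 else 0) := by
  obtain ⟨f, h1, h2⟩ := w
  refine ⟨fun j => if j < n then f j else r, ?_, ?_⟩
  · intro x
    beta_reduce
    rw [← h1 x, card_filter, card_filter, sum_range_succ]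
    congr 1
    · apply sum_congr rfl
      intro j hj
      rw [mem_range] at hj
      simp only [hj, if_true]
    · simp only [lt_irrefl, if_false]
      by_cases hx : x = r
      · subst hx
        simp [hn]
      · rw [if_neg hx, if_neg]
        rintro ⟨-, g⟩
        exact hx g.symm
  · intro z hz
    rcases hS z hz with g | g
    · rcases h2 z g with g | g | g | ⟨j, g1, g2, g3⟩
      · exact Or.inl g
      · exact Or.inr (Or.inl g)
      · exact Or.inr (Or.inr (Or.inl g))
      · refine Or.inr (Or.inr (Or.inr ⟨j, by omega, g2, ?_⟩))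
        simp only [g1, if_true]
        exact g3
    · refine Or.inr (Or.inr (Or.inr ⟨n, by omega, hn, ?_⟩))
      simp only [lt_irrefl, if_false]
      exact g.symm

theorem Wd.col {d h : ℕ} {k : ℤ → ℕ} (w : Wd d h d (DD d h) k) :
    Wd d h (d + 1) (DD ((d : ℤ) + 2) h) k := by
  obtain ⟨f, h1, h2⟩ := w
  refine ⟨f, ?_, ?_⟩
  · intro x
    rw [← h1 x, card_filter, card_filter, sum_range_succ]
    simp
  · intro z hz
    have h3 : DD d h z ∨ z = d - h ∨ z = d + h + 1 := by
      unfold DD at hz ⊢
      omega
    rcases h3 with g | g | g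
    · rcases h2 z g with g | g | g | ⟨j, g1, g2, g3⟩
      · exact Or.inl g
      · exact Or.inr (Or.inl g)
      · exact Or.inr (Or.inr (Or.inl g))
      · exact Or.inr (Or.inr (Or.inr ⟨j, by omega, g2, g3⟩))
    · exact Or.inr (Or.inl g)
    · exact Or.inr (Or.inr (Or.inl g))

/-- the state `i` after `n` columns, in the frame `ε` -/
def St (d h : ℕ) (ε : ℤ) (n i : ℕ) (k : ℤ → ℕ) : Prop := Wd d h n (DD ((n : ℤ) + ε) i) k

section
variable {d h : ℕ} {ε : ℤ} {n i : ℕ} {k : ℤ → ℕ}

theorem St.congr (w : St d h ε n i k) {n' : ℕ} {k' : ℤ → ℕ} (hn : n = n')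
    (hk : ∀ x, k x = k' x) : St d h ε n' i k' := by
  have : k = k' := funext hk
  subst this
  subst hn
  exact w

theorem St.up (w : St d h ε n i k) (hn : n ≠ d) :
    St d h ε (n + 1) (i + 1) (fun x => k x + if x = ε + i + 1 then 1 else 0) := by
  refine Wd.step w hn _ _ ?_
  intro z hz
  unfold DD at hz ⊢
  push_cast at hz ⊢
  omega

theorem St.down (w : St d h ε n (i + 1) k) (hn : n ≠ d) :
    St d h ε (n + 1) i (fun x => k x + if x = ε - i - 1 then 1 else 0) := by
  refine Wd.step w hn _ _ ?_
  intro z hz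
  unfold DD at hz ⊢
  push_cast at hz ⊢
  omega

theorem St.stay (w : St d h ε n 0 k) (hn : n ≠ d) :
    St d h ε (n + 1) 0 (fun x => k x + if x = ε then 1 else 0) := by
  refine Wd.step w hn _ _ ?_
  intro z hz
  unfold DD at hz ⊢
  push_cast at hz ⊢
  omega

theorem St.stays (w : St d h ε n 0 k) : ∀ L : ℕ, (∀ j, n ≤ j → j < n + L → j ≠ d) →
    St d h ε (n + L) 0 (fun x => k x + if x = ε then L else 0) := by
  intro L
  induction L with
  | zero =>
    intro _
    exact w.congr rfl (fun x => by simp)
  | succ L ih =>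
    intro hj
    have h1 := (ih (fun j a b => hj j a (by omega))).stay (hj (n + L) (by omega) (by omega))
    refine h1.congr (by omega) (fun x => ?_)
    by_cases hx : x = ε
    · simp only [hx, if_true]
      omega
    · simp only [hx, if_false]

theorem St.cyc (w : St d h ε n i k) : ∀ L : ℕ, (∀ j, n ≤ j → j < n + 2 * L → j ≠ d) →
    St d h ε (n + 2 * L) i (fun x => k x + ((if x = ε + i + 1 then L else 0) +
      (if x = ε - i - 1 then L else 0))) := by
  intro L
  induction L with
  | zero =>
    intro _
    exact w.congr rfl (fun x => by simp)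
  | succ L ih =>
    intro hj
    have h1 := (ih (fun j a b => hj j a (by omega))).up (hj (n + 2 * L) (by omega) (by omega))
    have h2 := h1.down (hj (n + 2 * L + 1) (by omega) (by omega))
    refine h2.congr (by omega) (fun x => ?_)
    by_cases hx : x = ε + i + 1
    · have hx' : ¬ x = ε - i - 1 := by omega
      simp only [hx, hx', if_true, if_false]
      have : ¬ (ε + (i : ℤ) + 1 = ε - i - 1) := by omega
      simp only [this, if_false]
      omega
    · by_cases hx' : x = ε - i - 1
      · simp only [hx, hx', if_true, if_false]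
        have : ¬ (ε - (i : ℤ) - 1 = ε + i + 1) := by omega
        simp only [this, if_false]
        omega
      · simp only [hx, hx', if_false]

end

end Pool.Agent.StarF
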